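import Pool.Agent.H7.ST.A

/-! Module H: finite extensions of stable fields are stable. -/

set_option autoImplicit false

namespace Pool.Agent.H7.ST

open FirstOrder FirstOrder.Language

universe u w

variable {K : Type u} [Field K] [FirstOrder.Ring.CompatibleRing K]
  {L : Type w} [Field L] [Algebra K L] [FirstOrder.Ring.CompatibleRing L]

/-- Decoding coordinate vectors. -/
noncomputable def Hdec {n : ℕ} (e : Module.Basis (Fin n) K L) {γ : Type*} (x : γ × Fin n → K) : γ → L :=
  fun g => ∑ i, x (g, i) • e i

omit [FirstOrder.Ring.CompatibleRing K] [FirstOrder.Ring.CompatibleRing L] in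
theorem Hdec_repr {n : ℕ} (e : Module.Basis (Fin n) K L) {γ : Type*} (x : γ × Fin n → K)
    (g : γ) (i : Fin n) : e.repr (Hdec e x g) i = x (g, i) := by
  unfold Hdec
  simp [map_sum, Finsupp.single_apply]

omit [FirstOrder.Ring.CompatibleRing K] [FirstOrder.Ring.CompatibleRing L] in
theorem Hdec_surj {n : ℕ} (e : Module.Basis (Fin n) K L) {γ : Type*} (y : γ → L) :
    ∃ x : γ × Fin n → K, Hdec e x = y := by
  refine ⟨fun q => e.repr (y q.1) q.2, ?_⟩
  funext g
  unfold Hdec
  exact e.sum_repr (y g)

section func
variable {R : Type*} [Field R] [FirstOrder.Ring.CompatibleRing R] {γ : Type*} (v : γ → R)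

theorem H_add (ts : Fin 2 → Language.ring.Term γ) :
    (Term.func Ring.addFunc ts).realize v = (ts 0).realize v + (ts 1).realize v := by
  rw [Term.realize_func, Ring.CompatibleRing.funMap_add]

theorem H_mul (ts : Fin 2 → Language.ring.Term γ) :
    (Term.func Ring.mulFunc ts).realize v = (ts 0).realize v * (ts 1).realize v := by
  rw [Term.realize_func, Ring.CompatibleRing.funMap_mul]

theorem H_neg (ts : Fin 1 → Language.ring.Term γ) :
    (Term.func Ring.negFunc ts).realize v = - (ts 0).realize v := by
  rw [Term.realize_func, Ring.CompatibleRing.funMap_neg]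

theorem H_zero (ts : Fin 0 → Language.ring.Term γ) :
    (Term.func Ring.zeroFunc ts).realize v = 0 := by
  rw [Term.realize_func, Ring.CompatibleRing.funMap_zero]

theorem H_one (ts : Fin 0 → Language.ring.Term γ) :
    (Term.func Ring.oneFunc ts).realize v = 1 := by
  rw [Term.realize_func, Ring.CompatibleRing.funMap_one]

end func

omit [FirstOrder.Ring.CompatibleRing K] in
theorem Hterm {n : ℕ} (e : Module.Basis (Fin n) K L) {γ : Type*} (t : Language.ring.Term γ) :
    ∀ i : Fin n, PolyFun (fun x : γ × Fin n → K => e.repr (t.realize (Hdec e x)) i) := by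
  induction t with
  | var g =>
    intro i
    simp only [Term.realize_var, Hdec_repr]
    exact PolyFun.coord (g, i)
  | @func l f ts ih =>
    intro i
    cases f with
    | add =>
      change PolyFun (fun x : γ × Fin n → K =>
        e.repr ((Term.func Ring.addFunc ts).realize (Hdec e x)) i)
      simp only [H_add, map_add, Finsupp.add_apply]
      exact (ih 0 i).add (ih 1 i)
    | mul =>
      change PolyFun (fun x : γ × Fin n → K =>
        e.repr ((Term.func Ring.mulFunc ts).realize (Hdec e x)) i)
      have h2 : ∀ a b : L, e.repr (a * b) i =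
          ∑ j, ∑ k, (e.repr a j * e.repr b k) * e.repr (e j * e k) i := by
        intro a b
        conv_lhs => rw [← e.sum_repr a, ← e.sum_repr b]
        rw [Finset.sum_mul_sum]
        simp only [map_sum, Finsupp.coe_finsetSum, Finset.sum_apply, smul_mul_smul_comm, map_smul,
          Finsupp.smul_apply, smul_eq_mul]
      simp only [H_mul]
      have h3 : (fun x : γ × Fin n → K =>
          e.repr ((ts 0).realize (Hdec e x) * (ts 1).realize (Hdec e x)) i) =
          fun x => ∑ j, ∑ k, (e.repr ((ts 0).realize (Hdec e x)) j *
            e.repr ((ts 1).realize (Hdec e x)) k) * e.repr (e j * e k) i :=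
        funext fun x => h2 _ _
      rw [h3]
      exact PolyFun.sum _ fun j => PolyFun.sum _ fun k =>
        ((ih 0 j).mul (ih 1 k)).mul (PolyFun.const _)
    | neg =>
      change PolyFun (fun x : γ × Fin n → K =>
        e.repr ((Term.func Ring.negFunc ts).realize (Hdec e x)) i)
      simp only [H_neg, map_neg, Finsupp.neg_apply]
      have := (PolyFun.const (-1 : K) (α := γ × Fin n)).mul (ih 0 i)
      simpa using this
    | zero =>
      change PolyFun (fun x : γ × Fin n → K =>
        e.repr ((Term.func Ring.zeroFunc ts).realize (Hdec e x)) i)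
      simp only [H_zero, map_zero, Finsupp.zero_apply]
      exact PolyFun.const 0
    | one =>
      change PolyFun (fun x : γ × Fin n → K =>
        e.repr ((Term.func Ring.oneFunc ts).realize (Hdec e x)) i)
      simp only [H_one]
      exact PolyFun.const _

theorem Hform {n : ℕ} (e : Module.Basis (Fin n) K L) {γ : Type*} {l : ℕ}
    (ψ : Language.ring.BoundedFormula γ l) :
    Dfn {x : (γ ⊕ Fin l) × Fin n → K |
      ψ.Realize (fun g => Hdec e x (Sum.inl g)) (fun j => Hdec e x (Sum.inr j))} := by
  induction ψ with
  | @falsum l =>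
    have : {x : (γ ⊕ Fin l) × Fin n → K |
      (BoundedFormula.falsum : Language.ring.BoundedFormula γ l).Realize
        (fun g => Hdec e x (Sum.inl g)) (fun j => Hdec e x (Sum.inr j))} = ∅ := by
      ext x; simp [BoundedFormula.Realize]
    rw [this]
    exact Set.definable_empty
  | @equal l t1 t2 =>
    have hs : ∀ x : (γ ⊕ Fin l) × Fin n → K,
        (Sum.elim (fun g => Hdec e x (Sum.inl g)) (fun j => Hdec e x (Sum.inr j))) = Hdec e x := by
      intro x; funext g; rcases g with g | g <;> rfl
    have : {x : (γ ⊕ Fin l) × Fin n → K |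
      (BoundedFormula.equal t1 t2 : Language.ring.BoundedFormula γ _).Realize
        (fun g => Hdec e x (Sum.inl g)) (fun j => Hdec e x (Sum.inr j))} =
        ⋂ i : Fin n, {x | e.repr (t1.realize (Hdec e x)) i = e.repr (t2.realize (Hdec e x)) i} := by
      ext x
      simp only [BoundedFormula.Realize, hs, Set.mem_ofPred_eq, Set.mem_iInter]
      constructor
      · intro h i; rw [h]
      · intro h
        apply e.repr.injective
        ext i
        exact h i
    rw [this]
    exact Set.definable_iInter_of_finite fun i => Dfn.eq (Hterm e t1 i) (Hterm e t2 i)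
  | rel R ts => exact isEmptyElim R
  | imp f1 f2 ih1 ih2 =>
    have := (Set.Definable.compl ih1).union ih2
    unfold Dfn
    convert this using 1
    ext x
    simp only [Set.mem_ofPred_eq, BoundedFormula.realize_imp, Set.mem_union, Set.mem_compl_iff]
    tauto
  | @all l f ih =>
    let r : (γ ⊕ Fin (l + 1)) × Fin n → ((γ ⊕ Fin l) × Fin n) ⊕ Fin n := fun q =>
      Sum.elim (fun g => Sum.inl (Sum.inl g, q.2))
        (fun j : Fin (l + 1) => Fin.lastCases (motive := fun _ => ((γ ⊕ Fin l) × Fin n) ⊕ Fin n)
          (Sum.inr q.2) (fun j => Sum.inl (Sum.inr j, q.2)) j) q.1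
    have h1 := Set.Definable.preimage_comp r ih
    have h2 := Set.Definable.forall_of_finite h1
    unfold Dfn
    convert h2 using 1
    ext x
    simp only [Set.mem_ofPred_eq, BoundedFormula.realize_all, Set.mem_preimage]
    have key : ∀ y : Fin n → K,
        ((fun g => Hdec e (Sum.elim x y ∘ r) (Sum.inl g)) = fun g => Hdec e x (Sum.inl g)) ∧
        ((fun j => Hdec e (Sum.elim x y ∘ r) (Sum.inr j)) =
          Fin.snoc (fun j => Hdec e x (Sum.inr j)) (∑ i, y i • e i)) := by
      intro y
      constructor
      · funext g
        rfl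
      · funext j
        refine Fin.lastCases ?_ (fun j => ?_) j
        · simp [Hdec, r]
        · simp [Hdec, r]
    constructor
    · intro h y
      rw [(key y).1, (key y).2]
      exact h _
    · intro h a
      have := h (fun i => e.repr a i)
      rw [(key _).1, (key _).2, e.sum_repr] at this
      exact this

/-- A finite extension of a stable field is stable. -/
theorem stable_finite [FiniteDimensional K L] (hK : StableField K) : StableField L := by
  intro m k φ hlad
  let e := Module.finBasis K L
  set n := Module.finrank K L with hn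
  have h1 := Hform e φ
  let r : ((Fin m ⊕ Fin k) ⊕ Fin 0) × Fin n → (Fin m × Fin n) ⊕ (Fin k × Fin n) := fun q =>
    Sum.elim (Sum.elim (fun a => Sum.inl (a, q.2)) (fun b => Sum.inr (b, q.2)))
      (fun j => j.elim0) q.1
  have h2 := Set.Definable.preimage_comp r h1
  obtain ⟨N, hN⟩ := Dfn.noLadder hK h2
  obtain ⟨a, b, hab⟩ := hlad N
  apply hN
  choose xa hxa using fun i => Hdec_surj e (a i)
  choose xb hxb using fun j => Hdec_surj e (b j)
  refine ⟨xa, xb, fun i j => ?_⟩
  rw [← hab i j]
  simp only [Set.mem_preimage, Set.mem_ofPred_eq]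
  have e1 : (fun g => Hdec e (Sum.elim (xa i) (xb j) ∘ r) (Sum.inl g)) = Sum.elim (a i) (b j) := by
    funext g
    rcases g with g | g
    · have := congrFun (hxa i) g
      rw [Sum.elim_inl, ← this]
      rfl
    · have := congrFun (hxb j) g
      rw [Sum.elim_inr, ← this]
      rfl
  rw [e1]
  unfold Formula.Realize
  have e2 : (fun j' => Hdec e (Sum.elim (xa i) (xb j) ∘ r) (Sum.inr j')) =
      (default : Fin 0 → L) := Subsingleton.elim _ _
  rw [e2]

end Pool.Agent.H7.ST
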