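import Pool.Agent.H7.ST.Base

/-! Module A: definable sets with parameters, polynomial functions.

Hints.
`PolyFun f` means `f` is evaluation of an `MvPolynomial`; closure lemmas are `simp` with the obvious polynomial
(`PolyFun.comp` : `MvPolynomial.bind₁`/`aeval`, `PolyFun.det` : `Matrix.det_apply'`, sums and products).
`Dfn.eq` : `FirstOrder.Ring.mvPolynomial_zeroLocus_definable` with `S = {P - Q}`, then `Set.Definable.mono`.
`Dfn.preimage` : `{x | g x ∈ X} = {x | ∃ y : β → K, (∀ b, y b = g x b) ∧ y ∈ X}`;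
   `Set.Definable.exists_of_finite`, `Set.definable_iInter_of_finite` and `Set.Definable.preimage_comp Sum.inr`.
`Dfn.noLadder` : `Set.definable_iff_exists_formula_sum` gives a formula `φ` with free variables `K ⊕ (α ⊕ β)`
   (parameters evaluated as themselves). Only finitely many parameters occur (`Set.definable_iff_finitely_definable`
   gives a `Finset A0 : Finset K`). Relabel to `Fin m ⊕ Fin k` with `Fin m ≃ α`, `Fin k ≃ A0 ⊕ β`, and use `hK m k`:
   the second tuple is `(b, parameters)`, constant in `j` on the parameters.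
   (`by_contra`, `NoLadder` unfolds to `∃ n, ¬ ...`, `push_neg`.)
`noLadder_affine` : `{p : (α ⊕ (Option α)) → K | (p(inr none)) • x + a ∈ X}` by `Dfn.preimage`, then `Dfn.noLadder`,
   then transport the ladder (given `x_i`, `(u_j, a_j)` take the second tuple `Option.elim u_j a_j`).
`noLadder_NRel` : `∃ c : Fin d → K, det (∑ c_i C(t)^i) = b`, variables `σ ⊕ Unit`.
`dfn_psi` : existential quantifier over `Unit → K`, intersection over the finite set of `i`. -/

set_option autoImplicit false

namespace Pool.Agent.H7.ST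

open FirstOrder Polynomial Matrix Topology

universe u

variable {K : Type u} [Field K]

theorem PolyFun.const {α : Type*} (c : K) : PolyFun (fun _ : α → K => c) :=
  ⟨MvPolynomial.C c, fun x => by simp⟩

theorem PolyFun.coord {α : Type*} (a : α) : PolyFun (fun x : α → K => x a) :=
  ⟨MvPolynomial.X a, fun x => by simp⟩

theorem PolyFun.add {α : Type*} {f g : (α → K) → K} (hf : PolyFun f) (hg : PolyFun g) :
    PolyFun (fun x => f x + g x) := by
  obtain ⟨P, hP⟩ := hf
  obtain ⟨Q, hQ⟩ := hg
  exact ⟨P + Q, fun x => by simp [hP, hQ]⟩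

theorem PolyFun.mul {α : Type*} {f g : (α → K) → K} (hf : PolyFun f) (hg : PolyFun g) :
    PolyFun (fun x => f x * g x) := by
  obtain ⟨P, hP⟩ := hf
  obtain ⟨Q, hQ⟩ := hg
  exact ⟨P * Q, fun x => by simp [hP, hQ]⟩

theorem PolyFun.sum {α : Type*} {ι : Type*} (s : Finset ι) {f : ι → (α → K) → K}
    (hf : ∀ i, PolyFun (f i)) : PolyFun (fun x => ∑ i ∈ s, f i x) := by
  choose P hP using hf
  exact ⟨∑ i ∈ s, P i, fun x => by simp [hP]⟩

theorem PolyFun.prod {α : Type*} {ι : Type*} (s : Finset ι) {f : ι → (α → K) → K}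
    (hf : ∀ i, PolyFun (f i)) : PolyFun (fun x => ∏ i ∈ s, f i x) := by
  choose P hP using hf
  exact ⟨∏ i ∈ s, P i, fun x => by simp [hP]⟩

theorem PolyFun.comp {α β : Type*} {f : (β → K) → K} (hf : PolyFun f) {g : (α → K) → (β → K)}
    (hg : ∀ b, PolyFun (fun x => g x b)) : PolyFun (fun x => f (g x)) := by
  obtain ⟨P, hP⟩ := hf
  choose Q hQ using hg
  refine ⟨MvPolynomial.bind₁ Q P, fun x => ?_⟩
  have hg' : g x = fun b => MvPolynomial.eval x (Q b) := funext fun b => hQ b x
  change f (g x) = _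
  rw [hP, hg']
  have key : ∀ R : MvPolynomial β K, MvPolynomial.eval (fun b => MvPolynomial.eval x (Q b)) R
      = MvPolynomial.eval x (MvPolynomial.bind₁ Q R) := by
    intro R
    induction R using MvPolynomial.induction_on with
    | C a => simp
    | add p q hp hq => simp only [map_add, hp, hq]
    | mul_X p n hp => simp only [map_mul, hp, MvPolynomial.eval_X, MvPolynomial.bind₁_X_right]
  exact key P

theorem PolyFun.det {α : Type*} {n : Type*} [Fintype n] [DecidableEq n]
    {M : (α → K) → Matrix n n K} (hM : ∀ i j, PolyFun (fun x => M x i j)) :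
    PolyFun (fun x => (M x).det) := by
  simp only [Matrix.det_apply']
  refine PolyFun.sum _ fun σ => ?_
  refine PolyFun.mul (PolyFun.const _) ?_
  exact PolyFun.prod _ fun i => hM (σ i) i

theorem PolyFun.continuous {α : Type*} [TopologicalSpace K] [IsTopologicalRing K]
    {f : (α → K) → K} (hf : PolyFun f) : Continuous f := by
  obtain ⟨P, hP⟩ := hf
  have : f = fun x => MvPolynomial.eval x P := funext hP
  rw [this]
  exact MvPolynomial.continuous_eval P

variable [FirstOrder.Ring.CompatibleRing K]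

theorem Dfn.eq {α : Type*} {f g : (α → K) → K} (hf : PolyFun f) (hg : PolyFun g) :
    Dfn {x | f x = g x} := by
  obtain ⟨P, hP⟩ := hf
  obtain ⟨Q, hQ⟩ := hg
  have h := (FirstOrder.Ring.mvPolynomial_zeroLocus_definable (K := K) {P - Q}).mono
    (Set.subset_univ _)
  have e : {x : α → K | f x = g x}
      = MvPolynomial.zeroLocus K (Ideal.span
          (↑({P - Q} : Finset (MvPolynomial α K)) : Set (MvPolynomial α K))) := by
    rw [MvPolynomial.zeroLocus_span]
    ext x
    simp [hP, hQ, sub_eq_zero, MvPolynomial.aeval_eq_eval]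
  unfold Dfn
  rw [e]
  exact h

theorem A_map {α β : Type*} {g : (α → K) → (β → K)} (hg : ∀ b, PolyFun (fun x => g x b)) :
    (Set.univ : Set K).DefinableMap FirstOrder.Language.ring g := by
  intro b
  have h1 : PolyFun (fun w : Option α → K => g (fun a => w (some a)) b) :=
    (hg b).comp (g := fun (w : Option α → K) a => w (some a)) fun a => PolyFun.coord (some a)
  exact Dfn.eq h1 (PolyFun.coord none)

theorem Dfn.preimage {α β : Type*} [Finite α] [Finite β] {X : Set (β → K)} (hX : Dfn X)
    {g : (α → K) → (β → K)} (hg : ∀ b, PolyFun (fun x => g x b)) : Dfn {x | g x ∈ X} :=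
  Set.Definable.preimage_map (A_map hg) hX

theorem A_transport {A B A' B' : Type*} {R : A → B → Prop} {R' : A' → B' → Prop} (f : A' → A)
    (g : B' → B) (h : ∀ a b, R' a b ↔ R (f a) (g b)) (hR : NoLadder R) : NoLadder R' := by
  obtain ⟨n, hn⟩ := hR
  refine ⟨n, fun ⟨a, b, hab⟩ => hn ⟨fun i => f (a i), fun j => g (b j), fun i j => ?_⟩⟩
  rw [← h]
  exact hab i j

theorem Dfn.noLadder (hK : StableField K) {α β : Type*} [Finite α] [Finite β]
    {X : Set (α ⊕ β → K)} (hX : Dfn X) :
    NoLadder (fun (x : α → K) (y : β → K) => Sum.elim x y ∈ X) := by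
  classical
  obtain ⟨A0, -, hA0⟩ := Set.definable_iff_finitely_definable.mp hX
  obtain ⟨φ, hφ⟩ := Set.definable_iff_exists_formula_sum.mp hA0
  obtain ⟨m, ⟨e1⟩⟩ := Finite.exists_equiv_fin α
  have : Finite (A0 : Set K) := A0.finite_toSet
  obtain ⟨k, ⟨e2⟩⟩ := Finite.exists_equiv_fin ((A0 : Set K) ⊕ β)
  let ρ : (A0 : Set K) ⊕ (α ⊕ β) → Fin m ⊕ Fin k :=
    Sum.elim (fun a => Sum.inr (e2 (Sum.inl a)))
      (Sum.elim (fun x => Sum.inl (e1 x)) (fun y => Sum.inr (e2 (Sum.inr y))))
  have hs := hK m k (φ.relabel ρ)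
  by_contra hcon
  apply hs
  intro n
  unfold NoLadder at hcon
  rw [not_exists] at hcon
  obtain ⟨a, b, hab⟩ := not_not.mp (hcon n)
  refine ⟨fun i => (a i) ∘ e1.symm,
    fun j => (Sum.elim (fun z : (A0 : Set K) => (z : K)) (b j)) ∘ e2.symm, fun i j => ?_⟩
  rw [FirstOrder.Language.Formula.realize_relabel, ← hab i j]
  have e : (Sum.elim ((a i) ∘ e1.symm)
      ((Sum.elim (fun z : (A0 : Set K) => (z : K)) (b j)) ∘ e2.symm)) ∘ ρ
      = Sum.elim (fun z : (A0 : Set K) => (z : K)) (Sum.elim (a i) (b j)) := by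
    funext z
    rcases z with z | z | z <;> simp [ρ]
  rw [e]
  conv_rhs => rw [hφ]
  rfl

theorem noLadder_affine (hK : StableField K) {α : Type*} [Finite α] {X : Set (α → K)} (hX : Dfn X) :
    NoLadder (fun (x : α → K) (p : K × (α → K)) => p.1 • x + p.2 ∈ X) := by
  have hY : Dfn {v : α ⊕ Option α → K |
      (fun a => v (Sum.inr none) * v (Sum.inl a) + v (Sum.inr (some a))) ∈ X} := by
    apply hX.preimage
    intro b
    exact ((PolyFun.coord _).mul (PolyFun.coord _)).add (PolyFun.coord _)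
  refine A_transport (R := fun (x : α → K) (y : Option α → K) => Sum.elim x y ∈ {v : α ⊕ Option α → K |
      (fun a => v (Sum.inr none) * v (Sum.inl a) + v (Sum.inr (some a))) ∈ X})
    (fun x => x) (fun p o => Option.elim o p.1 p.2) ?_ (hY.noLadder hK)
  intro x p
  exact Iff.rfl

theorem dfn_affine {α : Type*} [Finite α] {X : Set (α → K)} (hX : Dfn X) (c : K) (a : α → K) :
    Dfn {x | c • x + a ∈ X} := by
  apply hX.preimage (g := fun x => c • x + a)
  intro b
  exact ((PolyFun.const c).mul (PolyFun.coord b)).add (PolyFun.const (a b))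

omit [FirstOrder.Ring.CompatibleRing K] in
theorem A_pow {α : Type*} {d : ℕ} {C : (α → K) → Matrix (Fin d) (Fin d) K}
    (hC : ∀ i j, PolyFun (fun t => C t i j)) (n : ℕ) :
    ∀ i j, PolyFun (fun t => (C t ^ n) i j) := by
  induction n with
  | zero =>
    intro i j
    simp only [pow_zero]
    exact PolyFun.const _
  | succ n ih =>
    intro i j
    simp only [pow_succ, Matrix.mul_apply]
    exact PolyFun.sum _ fun k => (ih i k).mul (hC k j)

theorem A_dfnNRel {σ : Type*} [Finite σ] {d : ℕ}
    {C : (σ → K) → Matrix (Fin d) (Fin d) K} (hC : ∀ i j, PolyFun (fun t => C t i j)) :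
    Dfn {v : σ ⊕ Unit → K | NRel (C (fun s => v (Sum.inl s))) (v (Sum.inr ()))} := by
  have h1 : Dfn {w : (σ ⊕ Unit) ⊕ Fin d → K |
      (∑ i : Fin d, w (Sum.inr i) • C (fun s => w (Sum.inl (Sum.inl s))) ^ (i : ℕ)).det
        = w (Sum.inl (Sum.inr ()))} := by
    apply Dfn.eq
    · apply PolyFun.det
      intro i j
      simp only [Matrix.sum_apply, Matrix.smul_apply, smul_eq_mul]
      refine PolyFun.sum _ fun k => ?_
      refine PolyFun.mul (PolyFun.coord _) ?_
      exact (A_pow hC (k : ℕ) i j).comp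
        (g := fun (w : (σ ⊕ Unit) ⊕ Fin d → K) s => w (Sum.inl (Sum.inl s)))
        fun s => PolyFun.coord _
    · exact PolyFun.coord _
  exact Set.Definable.exists_of_finite h1

theorem noLadder_NRel (hK : StableField K) {σ : Type*} [Finite σ] {d : ℕ}
    {C : (σ → K) → Matrix (Fin d) (Fin d) K} (hC : ∀ i j, PolyFun (fun t => C t i j)) :
    NoLadder (fun (t : σ → K) (b : K) => NRel (C t) b) := by
  refine A_transport (R := fun (x : σ → K) (y : Unit → K) => Sum.elim x y ∈
    {v : σ ⊕ Unit → K | NRel (C (fun s => v (Sum.inl s))) (v (Sum.inr ()))})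
    (fun x => x) (fun b _ => b) ?_ ((A_dfnNRel hC).noLadder hK)
  intro x p
  exact Iff.rfl

theorem dfn_psi {σ : Type*} [Finite σ] {d : ℕ} {C : (σ → K) → Matrix (Fin d) (Fin d) K}
    (hC : ∀ i j, PolyFun (fun t => C t i j)) (n : ℕ) (j : Fin n) :
    Dfn {T : Fin n × σ → K | ∃ b : K, ¬ NRel (C (fun s => T (j, s))) b ∧
      ∀ i, i ≠ j → NRel (C (fun s => T (i, s))) b} := by
  have h0 : ∀ i : Fin n, Dfn {w : (Fin n × σ) ⊕ Unit → K |
      NRel (C (fun s => w (Sum.inl (i, s)))) (w (Sum.inr ()))} := by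
    intro i
    apply (A_dfnNRel hC).preimage
      (g := fun (w : (Fin n × σ) ⊕ Unit → K) => Sum.elim (fun s => w (Sum.inl (i, s)))
        (fun _ => w (Sum.inr ())))
    rintro (s | _)
    · exact PolyFun.coord _
    · exact PolyFun.coord _
  have h1 : ∀ i : Fin n, Dfn {w : (Fin n × σ) ⊕ Unit → K |
      i ≠ j → NRel (C (fun s => w (Sum.inl (i, s)))) (w (Sum.inr ()))} := by
    intro i
    by_cases h : i = j
    · have : {w : (Fin n × σ) ⊕ Unit → K |
          i ≠ j → NRel (C (fun s => w (Sum.inl (i, s)))) (w (Sum.inr ()))} = Set.univ := by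
        ext w; simp [h]
      unfold Dfn
      rw [this]
      exact Set.definable_univ
    · have : {w : (Fin n × σ) ⊕ Unit → K |
          i ≠ j → NRel (C (fun s => w (Sum.inl (i, s)))) (w (Sum.inr ()))}
          = {w | NRel (C (fun s => w (Sum.inl (i, s)))) (w (Sum.inr ()))} := by
        ext w; simp [h]
      unfold Dfn
      rw [this]
      exact h0 i
  have h2 := (Set.Definable.compl (h0 j)).inter (Set.definable_iInter_of_finite h1)
  have h3 := Set.Definable.exists_of_finite h2
  unfold Dfn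
  convert h3 using 1
  ext T
  simp only [Set.mem_ofPred_eq, Set.mem_inter_iff, Set.mem_compl_iff, Set.mem_iInter,
    Sum.elim_inl, Sum.elim_inr]
  constructor
  · rintro ⟨b, hb⟩
    exact ⟨fun _ => b, hb⟩
  · rintro ⟨u, hu⟩
    exact ⟨u (), hu⟩

end Pool.Agent.H7.ST
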