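import Pool.Agent.H7.ST.Base

/-! Module B: generic sets in a vector space, for a class of sets without ladders. -/

set_option autoImplicit false

namespace Pool.Agent.H7.ST

universe u

/-! ### Trees and ladders -/
section tree
variable {A B : Type*} (φ : A → B → Prop)

/-- Full binary trees of instances of `φ` with parameters in `T` and all leaves meeting `S`. -/
def Tree : ℕ → Set A → Set B → Prop
  | 0, S, _ => S.Nonempty
  | n + 1, S, T => ∃ b ∈ T, Tree n {a | a ∈ S ∧ φ a b} T ∧ Tree n {a | a ∈ S ∧ ¬ φ a b} T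

variable {φ}

theorem Tree.nonempty : ∀ {n : ℕ} {S : Set A} {T : Set B}, Tree φ n S T → S.Nonempty
  | 0, _, _, h => h
  | _ + 1, _, _, ⟨_, _, h, _⟩ => by
      obtain ⟨a, ha⟩ := Tree.nonempty h
      exact ⟨a, ha.1⟩

theorem Tree.mono : ∀ {n : ℕ} {S S' : Set A} {T T' : Set B}, S ⊆ S' → T ⊆ T' →
    Tree φ n S T → Tree φ n S' T'
  | 0, _, _, _, _, hS, _, h => Set.Nonempty.mono hS h
  | _ + 1, _, _, _, _, hS, hT, ⟨b, hb, h1, h2⟩ =>
      ⟨b, hT hb, Tree.mono (fun _ hx => ⟨hS hx.1, hx.2⟩) hT h1,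
        Tree.mono (fun _ hx => ⟨hS hx.1, hx.2⟩) hT h2⟩

theorem Tree.ramsey : ∀ (n p q : ℕ) (S : Set A) (T1 T2 : Set B), p + q = n →
    Tree φ n S (T1 ∪ T2) → Tree φ p S T1 ∨ Tree φ q S T2
  | 0, p, q, S, T1, T2, hn, h => by
      have hp : p = 0 := by omega
      subst hp
      exact Or.inl h
  | n + 1, p, q, S, T1, T2, hn, h => by
      rcases p with _ | p
      · exact Or.inl (Tree.nonempty h)
      rcases q with _ | q
      · exact Or.inr (Tree.nonempty h)
      obtain ⟨b, hb, h1, h2⟩ := h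
      rcases hb with hb | hb
      · rcases Tree.ramsey n p (q + 1) _ T1 T2 (by omega) h1 with h1 | h1
        · rcases Tree.ramsey n p (q + 1) _ T1 T2 (by omega) h2 with h2 | h2
          · exact Or.inl ⟨b, hb, h1, h2⟩
          · exact Or.inr (Tree.mono (fun _ hx => hx.1) (le_refl _) h2)
        · exact Or.inr (Tree.mono (fun _ hx => hx.1) (le_refl _) h1)
      · rcases Tree.ramsey n (p + 1) q _ T1 T2 (by omega) h1 with h1 | h1
        · exact Or.inl (Tree.mono (fun _ hx => hx.1) (le_refl _) h1)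
        · rcases Tree.ramsey n (p + 1) q _ T1 T2 (by omega) h2 with h2 | h2
          · exact Or.inl (Tree.mono (fun _ hx => hx.1) (le_refl _) h2)
          · exact Or.inr ⟨b, hb, h1, h2⟩

variable (φ)

/-- Ladders `φ (a i) (b j) ↔ i ≤ j`. -/
def LT (p : ℕ) (S : Set A) (T : Set B) : Prop :=
  ∃ (a : Fin p → A) (b : Fin p → B), (∀ i, a i ∈ S) ∧ (∀ i, b i ∈ T) ∧
    ∀ i j, (φ (a i) (b j) ↔ i ≤ j)

/-- Ladders `φ (a i) (b j) ↔ j < i`. -/
def LF (p : ℕ) (S : Set A) (T : Set B) : Prop :=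
  ∃ (a : Fin p → A) (b : Fin p → B), (∀ i, a i ∈ S) ∧ (∀ i, b i ∈ T) ∧
    ∀ i j, (φ (a i) (b j) ↔ j < i)

/-- Depth needed for `k` pairs. -/
def dep : ℕ → ℕ
  | 0 => 0
  | k + 1 => 2 * (dep k + 1)

variable {φ}

theorem Tree.ladders : ∀ (k : ℕ) (S : Set A) (T : Set B), Tree φ (dep k) S T →
    ∃ p q, p + q = k ∧ LT φ p S T ∧ LF φ q S T
  | 0, S, T, _ => by
      refine ⟨0, 0, rfl, ⟨Fin.elim0, Fin.elim0, fun i => i.elim0, fun i => i.elim0,
        fun i => i.elim0⟩, ⟨Fin.elim0, Fin.elim0, fun i => i.elim0, fun i => i.elim0,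
        fun i => i.elim0⟩⟩
  | k + 1, S, T, h => by
      obtain ⟨a, ha⟩ := h.nonempty
      have hT : T = {b | b ∈ T ∧ φ a b} ∪ {b | b ∈ T ∧ ¬ φ a b} := by
        ext b
        by_cases hb : φ a b <;> simp [hb]
      rw [hT] at h
      have hd : (dep k + 1) + (dep k + 1) = dep (k + 1) := by
        simp only [dep]; ring
      rcases Tree.ramsey _ _ _ _ _ _ hd h with h | h
      · obtain ⟨b, hb, -, h2⟩ := h
        obtain ⟨p, q, hpq, ⟨x, y, hx, hy, hxy⟩, ⟨x', y', hx', hy', hxy'⟩⟩ :=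
          Tree.ladders k _ _ h2
        refine ⟨p + 1, q, by omega, ⟨Fin.cons a x, Fin.cons b y, ?_, ?_, ?_⟩,
          ⟨x', y', fun i => (hx' i).1, fun i => (hy' i).1, hxy'⟩⟩
        · intro i
          refine Fin.cases ?_ (fun i => ?_) i
          · simpa using ha
          · simpa using (hx i).1
        · intro i
          refine Fin.cases ?_ (fun i => ?_) i
          · simpa using hb.1
          · simpa using (hy i).1
        · intro i j
          refine Fin.cases ?_ (fun i => ?_) i <;> refine Fin.cases ?_ (fun j => ?_) j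
          · simpa using hb.2
          · simpa using (hy j).2
          · simpa using (hx i).2
          · simpa using hxy i j
      · obtain ⟨b, hb, h1, -⟩ := h
        obtain ⟨p, q, hpq, ⟨x, y, hx, hy, hxy⟩, ⟨x', y', hx', hy', hxy'⟩⟩ :=
          Tree.ladders k _ _ h1
        refine ⟨p, q + 1, by omega, ⟨x, y, fun i => (hx i).1, fun i => (hy i).1, hxy⟩,
          ⟨Fin.cons a x', Fin.cons b y', ?_, ?_, ?_⟩⟩
        · intro i
          refine Fin.cases ?_ (fun i => ?_) i
          · simpa using ha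
          · simpa using (hx' i).1
        · intro i
          refine Fin.cases ?_ (fun i => ?_) i
          · simpa using hb.1
          · simpa using (hy' i).1
        · intro i j
          refine Fin.cases ?_ (fun i => ?_) i <;> refine Fin.cases ?_ (fun j => ?_) j
          · simpa using hb.2
          · simpa using (hy' j).2
          · simpa using (hx' i).2
          · simpa using hxy' i j

theorem NoLadder.not_LT (h : NoLadder φ) : ∃ n, ∀ p, n ≤ p → ¬ LT φ p Set.univ Set.univ := by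
  obtain ⟨n, hn⟩ := h
  refine ⟨n + 1, fun p hp => ?_⟩
  rintro ⟨a, b, -, -, hab⟩
  refine hn ⟨fun i => a ⟨i + 1, by omega⟩, fun j => b ⟨j, by omega⟩, fun i j => ?_⟩
  rw [hab]
  simp only [Fin.mk_le_mk, Fin.lt_def]
  omega

theorem NoLadder.not_LF (h : NoLadder φ) : ∃ n, ∀ p, n ≤ p → ¬ LF φ p Set.univ Set.univ := by
  obtain ⟨n, hn⟩ := h
  refine ⟨n, fun p hp => ?_⟩
  rintro ⟨a, b, -, -, hab⟩
  refine hn ⟨fun i => a ⟨n - 1 - i, by omega⟩, fun j => b ⟨n - 1 - j, by omega⟩, fun i j => ?_⟩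
  rw [hab]
  simp only [Fin.lt_def]
  omega

theorem NoLadder.tree (h : NoLadder φ) : ∃ n, ¬ Tree φ n Set.univ Set.univ := by
  obtain ⟨m, hm⟩ := h.not_LT
  obtain ⟨n, hn⟩ := h.not_LF
  refine ⟨dep (m + n), fun ht => ?_⟩
  obtain ⟨p, q, hpq, h1, h2⟩ := ht.ladders
  by_cases hp : m ≤ p
  · exact hm p hp h1
  · exact hn q (by omega) h2

end tree

/-! ### Generic sets -/
section gen
variable {V : Type*} [AddCommGroup V]

/-- Finitely many translates of `X` cover. -/
def Gen (X : Set V) : Prop := ∃ F : Finset V, ∀ x : V, ∃ f ∈ F, x - f ∈ X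

theorem Gen.mono {X Y : Set V} (h : X ⊆ Y) (hX : Gen X) : Gen Y := by
  obtain ⟨F, hF⟩ := hX
  exact ⟨F, fun x => by obtain ⟨f, hf, hx⟩ := hF x; exact ⟨f, hf, h hx⟩⟩

theorem gen_univ : Gen (Set.univ : Set V) := ⟨{0}, fun x => ⟨0, by simp, trivial⟩⟩

theorem not_gen_empty : ¬ Gen (∅ : Set V) := by
  rintro ⟨F, hF⟩
  obtain ⟨f, _, h⟩ := hF 0
  exact h

theorem not_gen_iff {X : Set V} : ¬ Gen X ↔ ∀ F : Finset V, ∃ x : V, ∀ f ∈ F, x - f ∉ X := by
  unfold Gen; push Not; rfl

theorem Gen.of_translates {X : Set V} (F : Finset V) (h : Gen {x | ∃ f ∈ F, x - f ∈ X}) :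
    Gen X := by
  classical
  obtain ⟨G, hG⟩ := h
  refine ⟨Finset.image₂ (· + ·) G F, fun x => ?_⟩
  obtain ⟨g, hg, f, hf, hx⟩ := hG x
  refine ⟨g + f, Finset.mem_image₂_of_mem hg hf, ?_⟩
  rwa [← sub_sub]

variable {K : Type u} [Field K] [Module K V]

theorem Gen.aff {X : Set V} (hX : Gen X) {c : K} (hc : c ≠ 0) (a : V) :
    Gen {x | c • x + a ∈ X} := by
  classical
  obtain ⟨F, hF⟩ := hX
  refine ⟨F.image (fun f => c⁻¹ • f), fun x => ?_⟩
  obtain ⟨f, hf, hx⟩ := hF (c • x + a)
  refine ⟨c⁻¹ • f, Finset.mem_image_of_mem _ hf, ?_⟩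
  have : c • (x - c⁻¹ • f) + a = c • x + a - f := by
    rw [smul_sub, smul_smul, mul_inv_cancel₀ hc, one_smul]; abel
  simpa [this] using hx

theorem gen_aff_iff {X : Set V} {c : K} (hc : c ≠ 0) (a : V) :
    Gen {x | c • x + a ∈ X} ↔ Gen X := by
  refine ⟨fun h => ?_, fun h => h.aff hc a⟩
  have := h.aff (inv_ne_zero hc) (-(c⁻¹ • a))
  refine this.mono (fun x hx => ?_)
  have e : c • (c⁻¹ • x + -(c⁻¹ • a)) + a = x := by
    rw [smul_add, smul_neg, smul_smul, smul_smul, mul_inv_cancel₀ hc, one_smul, one_smul]; abel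
  change c • (c⁻¹ • x + -(c⁻¹ • a)) + a ∈ X at hx
  rwa [e] at hx

end gen

/-- A class of sets closed under Boolean operations and affine substitutions, without ladders. -/
structure Cls (K : Type u) [Field K] {V : Type*} [AddCommGroup V] [Module K V]
    (D : Set (Set V)) : Prop where
  compl : ∀ X ∈ D, Xᶜ ∈ D
  union : ∀ X ∈ D, ∀ Y ∈ D, X ∪ Y ∈ D
  aff : ∀ X ∈ D, ∀ (c : K) (a : V), {x | c • x + a ∈ X} ∈ D
  lad : ∀ X ∈ D, NoLadder (fun (x : V) (p : K × V) => p.1 • x + p.2 ∈ X)

section main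
variable {K : Type u} [Field K] {V : Type*} [AddCommGroup V] [Module K V] {D : Set (Set V)}

theorem Cls.inter (hD : Cls K D) {X Y : Set V} (hX : X ∈ D) (hY : Y ∈ D) : X ∩ Y ∈ D := by
  have := hD.compl _ (hD.union _ (hD.compl _ hX) _ (hD.compl _ hY))
  simpa [Set.compl_union, compl_compl] using this

theorem Cls.univ (hD : Cls K D) {X : Set V} (hX : X ∈ D) : Set.univ ∈ D := by
  have := hD.union _ hX _ (hD.compl _ hX)
  simpa using this

theorem Cls.empty (hD : Cls K D) {X : Set V} (hX : X ∈ D) : ∅ ∈ D := by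
  have := hD.compl _ (hD.univ hX)
  simpa using this

theorem Cls.biUnion (hD : Cls K D) {X0 : Set V} (hX0 : X0 ∈ D) {ι : Type*} (s : Finset ι)
    (Y : ι → Set V) (hY : ∀ i ∈ s, Y i ∈ D) : {x | ∃ i ∈ s, x ∈ Y i} ∈ D := by
  classical
  induction s using Finset.induction_on with
  | empty => simpa using hD.empty hX0
  | insert a s ha ih =>
    have h1 := ih (fun i hi => hY i (Finset.mem_insert_of_mem hi))
    have h2 := hD.union _ (hY a (Finset.mem_insert_self _ _)) _ h1
    convert h2 using 1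
    ext x
    simp

theorem Cls.translates (hD : Cls K D) {X : Set V} (hX : X ∈ D) (F : Finset V) :
    {x | ∃ f ∈ F, x - f ∈ X} ∈ D := by
  have := hD.biUnion hX F (fun f => {x | (1 : K) • x + (-f) ∈ X}) (fun f _ => hD.aff X hX 1 (-f))
  simpa [sub_eq_add_neg] using this

/-- A definable set or its complement is generic. -/
theorem Cls.gen_or (hD : Cls K D) {X : Set V} (hX : X ∈ D) : Gen X ∨ Gen Xᶜ := by
  classical
  by_contra hcon
  push Not at hcon
  obtain ⟨h1, h2⟩ := hcon
  rw [not_gen_iff] at h1 h2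
  obtain ⟨n, hn⟩ := hD.lad X hX
  have key : ∀ m : ℕ, ∃ (a b : Fin m → V), ∀ i j, (a i + b j ∈ X ↔ i < j) := by
    intro m
    induction m with
    | zero => exact ⟨Fin.elim0, Fin.elim0, fun i => i.elim0⟩
    | succ m ih =>
      obtain ⟨a, b, hab⟩ := ih
      obtain ⟨y, hy⟩ := h2 (Finset.univ.image (fun i => - a i))
      obtain ⟨x, hx⟩ := h1 (insert (-y) (Finset.univ.image (fun i => - b i)))
      have hy' : ∀ i, a i + y ∈ X := by
        intro i
        have := hy (-a i) (Finset.mem_image_of_mem _ (Finset.mem_univ _))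
        simp only [sub_neg_eq_add, Set.mem_compl_iff, not_not] at this
        rwa [add_comm]
      have hx1 : x + y ∉ X := by
        have := hx (-y) (Finset.mem_insert_self _ _)
        simpa [sub_neg_eq_add] using this
      have hx2 : ∀ j, x + b j ∉ X := by
        intro j
        have := hx (-b j) (Finset.mem_insert_of_mem (Finset.mem_image_of_mem _ (Finset.mem_univ _)))
        simpa [sub_neg_eq_add] using this
      refine ⟨Fin.snoc a x, Fin.snoc b y, fun i j => ?_⟩
      refine Fin.lastCases ?_ (fun i => ?_) i <;> refine Fin.lastCases ?_ (fun j => ?_) j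
      · simpa using hx1
      · simp only [Fin.snoc_last, Fin.snoc_castSucc]
        constructor
        · intro h; exact absurd h (hx2 j)
        · intro h; exact absurd h (not_lt.mpr (Fin.le_last _))
      · simp only [Fin.snoc_last, Fin.snoc_castSucc]
        exact ⟨fun _ => Fin.castSucc_lt_last i, fun _ => hy' i⟩
      · simpa using hab i j
  obtain ⟨a, b, hab⟩ := key n
  exact hn ⟨a, fun j => (1, b j), fun i j => by simpa using hab i j⟩

/-- Nongeneric sets form an ideal. -/
theorem Cls.gen_union (hD : Cls K D) {X Y : Set V} (hX : X ∈ D) (_hY : Y ∈ D)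
    (h : Gen (X ∪ Y)) : Gen X ∨ Gen Y := by
  by_contra hcon
  push Not at hcon
  obtain ⟨h1, h2⟩ := hcon
  obtain ⟨F, hF⟩ := h
  have hX' := hD.translates hX F
  have h3 : ¬ Gen {x | ∃ f ∈ F, x - f ∈ X} := fun h => h1 (Gen.of_translates F h)
  have h4 := (hD.gen_or hX').resolve_left h3
  refine h2 (Gen.of_translates F (h4.mono ?_))
  intro x hx
  obtain ⟨f, hf, hxf⟩ := hF x
  rcases hxf with hxf | hxf
  · exact absurd ⟨f, hf, hxf⟩ hx
  · exact ⟨f, hf, hxf⟩

theorem Cls.gen_biUnion (hD : Cls K D) {X0 : Set V} (hX0 : X0 ∈ D) {ι : Type*} (s : Finset ι)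
    (Y : ι → Set V) (hY : ∀ i ∈ s, Y i ∈ D) (h : Gen {x | ∃ i ∈ s, x ∈ Y i}) :
    ∃ i ∈ s, Gen (Y i) := by
  classical
  induction s using Finset.induction_on with
  | empty =>
    exfalso
    apply not_gen_empty (V := V)
    simpa using h
  | insert a s ha ih =>
    have e : {x | ∃ i ∈ insert a s, x ∈ Y i} = Y a ∪ {x | ∃ i ∈ s, x ∈ Y i} := by
      ext x; simp
    rw [e] at h
    rcases hD.gen_union (hY a (Finset.mem_insert_self _ _))
      (hD.biUnion hX0 s Y (fun i hi => hY i (Finset.mem_insert_of_mem hi))) h with h | h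
    · exact ⟨a, Finset.mem_insert_self _ _, h⟩
    · obtain ⟨i, hi, hg⟩ := ih (fun i hi => hY i (Finset.mem_insert_of_mem hi)) h
      exact ⟨i, Finset.mem_insert_of_mem hi, hg⟩

/-- There is a generic set that is not split into two generic pieces by any instance. -/
theorem Cls.exists_Z (hD : Cls K D) {X : Set V} (hX : X ∈ D) :
    ∃ Z ∈ D, Gen Z ∧ ∀ (c : K) (a : V), c ≠ 0 →
      ¬ Gen {z | z ∈ Z ∧ c • z + a ∈ X} ∨ ¬ Gen {z | z ∈ Z ∧ c • z + a ∉ X} := by
  by_contra hcon
  push Not at hcon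
  obtain ⟨n, hn⟩ := (hD.lad X hX).tree
  have key : ∀ (m : ℕ) (Z : Set V), Z ∈ D → Gen Z →
      Tree (fun (x : V) (p : K × V) => p.1 • x + p.2 ∈ X) m Z Set.univ := by
    intro m
    induction m with
    | zero =>
      intro Z _ hZ
      obtain ⟨F, hF⟩ := hZ
      obtain ⟨f, _, h⟩ := hF 0
      exact ⟨_, h⟩
    | succ m ih =>
      intro Z hZ hg
      obtain ⟨c, a, hc, h1, h2⟩ := hcon Z hZ hg
      refine ⟨(c, a), trivial, ih _ (hD.inter hZ (hD.aff X hX c a)) h1,
        ih _ (hD.inter hZ (hD.compl _ (hD.aff X hX c a))) h2⟩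
  exact hn (key n _ (hD.univ hX) gen_univ)

/-- Connectedness: a definable set or its complement is not generic. -/
theorem Cls.not_gen_or [Infinite K] (hD : Cls K D) {X : Set V} (hX : X ∈ D) :
    ¬ Gen X ∨ ¬ Gen Xᶜ := by
  classical
  obtain ⟨Z, hZD, hZ, hsplit⟩ := hD.exists_Z hX
  obtain ⟨F, hF⟩ := hZ
  have hZ : Gen Z := ⟨F, hF⟩
  -- `S b c` : almost all `z ∈ Z` satisfy `c • (z + b) ∈ X`
  let P : V → K → Set V := fun b c => {z | z ∈ Z ∧ c • (z + b) ∈ X}
  let N : V → K → Set V := fun b c => {z | z ∈ Z ∧ c • (z + b) ∉ X}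
  have hPD : ∀ b c, P b c ∈ D := by
    intro b c
    have := hD.inter hZD (hD.aff X hX c (c • b))
    have e : P b c = Z ∩ {x | c • x + c • b ∈ X} := by
      ext z
      simp [P, smul_add]
    rw [e]; exact this
  have hND : ∀ b c, N b c ∈ D := by
    intro b c
    have := hD.inter hZD (hD.compl _ (hD.aff X hX c (c • b)))
    have e : N b c = Z ∩ {x | c • x + c • b ∈ X}ᶜ := by
      ext z
      simp [N, smul_add]
    rw [e]; exact this
  let S : V → K → Prop := fun b c => ¬ Gen (N b c)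
  have hS : ∀ b c, c ≠ 0 → ¬ S b c → ¬ Gen (P b c) := by
    intro b c hc h
    rcases hsplit c (c • b) hc with h' | h'
    · simpa [P, smul_add] using h'
    · exfalso
      apply h
      simpa [S, N, smul_add] using h'
  -- transfer
  have transfer : ∀ (r : K) (e : V), r ≠ 0 → Gen {z | z ∈ Z ∧ r • z + e ∈ Z} →
      ∀ (b : V) (c : K), c ≠ 0 → (S b c ↔ S (r⁻¹ • (e + b)) (c * r)) := by
    intro r e hr hg b c hc
    have hid : ∀ z : V, (c * r) • (z + r⁻¹ • (e + b)) = c • (r • z + e + b) := by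
      intro z
      rw [smul_add, smul_smul, mul_assoc, mul_inv_cancel₀ hr, mul_one, mul_smul, ← smul_add,
        add_assoc]
    have hGD : {z | z ∈ Z ∧ r • z + e ∈ Z} ∈ D := hD.inter hZD (hD.aff Z hZD r e)
    constructor
    · intro h1
      by_contra h2
      have h3 := hS _ _ (mul_ne_zero hc hr) (fun h => h h2)
      have h4 : ¬ Gen {z | r • z + e ∈ N b c} := by
        rw [gen_aff_iff hr]; exact h1
      have hsub : {z | z ∈ Z ∧ r • z + e ∈ Z} ⊆
          {z | r • z + e ∈ N b c} ∪ P (r⁻¹ • (e + b)) (c * r) := by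
        intro z hz
        by_cases hx : c • (r • z + e + b) ∈ X
        · right
          exact ⟨hz.1, by rw [hid]; exact hx⟩
        · left
          exact ⟨hz.2, hx⟩
      rcases hD.gen_union (hD.aff _ (hND b c) r e) (hPD (r⁻¹ • (e + b)) (c * r))
        (hg.mono hsub) with h | h
      · exact h4 h
      · exact h3 h
    · intro h1
      by_contra h2
      have h3 := hS _ _ hc (fun h => h h2)
      have h4 : ¬ Gen {z | r • z + e ∈ P b c} := by
        rw [gen_aff_iff hr]; exact h3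
      have hsub : {z | z ∈ Z ∧ r • z + e ∈ Z} ⊆
          {z | r • z + e ∈ P b c} ∪ N (r⁻¹ • (e + b)) (c * r) := by
        intro z hz
        by_cases hx : c • (r • z + e + b) ∈ X
        · left
          exact ⟨hz.2, hx⟩
        · right
          exact ⟨hz.1, by rw [hid]; exact hx⟩
      rcases hD.gen_union (hD.aff _ (hPD b c) r e) (hND (r⁻¹ • (e + b)) (c * r))
        (hg.mono hsub) with h | h
      · exact h4 h
      · exact h1 h
  -- for each `r ≠ 0` and `a` there is `f ∈ F` with `G (r, a - f)` generic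
  have exF : ∀ (r : K) (a : V), r ≠ 0 → ∃ f ∈ F, Gen {z | z ∈ Z ∧ r • z + (a - f) ∈ Z} := by
    intro r a hr
    refine hD.gen_biUnion hX F (fun f => {z | z ∈ Z ∧ r • z + (a - f) ∈ Z})
      (fun f _ => hD.inter hZD (hD.aff Z hZD r (a - f))) ?_
    refine hZ.mono (fun z hz => ?_)
    obtain ⟨f, hf, h⟩ := hF (r • z + a)
    exact ⟨f, hf, hz, by rwa [← add_sub_assoc]⟩
  -- the stabiliser
  let H : Set V := {h | ∀ b c, c ≠ 0 → (S b c ↔ S (b + h) c)}
  have H0 : ∀ a : V, ∃ f ∈ F, a - f ∈ H := by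
    intro a
    obtain ⟨f, hf, hg⟩ := exF 1 a one_ne_zero
    refine ⟨f, hf, fun b c hc => ?_⟩
    have := transfer 1 (a - f) one_ne_zero hg b c hc
    simpa [add_comm] using this
  have Hadd : ∀ h ∈ H, ∀ h' ∈ H, h + h' ∈ H := by
    intro h hh h' hh' b c hc
    rw [hh b c hc, hh' (b + h) c hc, add_assoc]
  have Hneg : ∀ h ∈ H, -h ∈ H := by
    intro h hh b c hc
    have := hh (b + -h) c hc
    rw [this]
    simp
  have Hsmul : ∀ (r : K), r ≠ 0 → ∀ h ∈ H, r • h ∈ H := by
    intro r hr h hh b c hc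
    obtain ⟨f, -, hg⟩ := exF r 0 hr
    rw [transfer r _ hr hg b c hc, transfer r _ hr hg (b + r • h) c hc]
    have e : r⁻¹ • (0 - f + (b + r • h)) = r⁻¹ • (0 - f + b) + h := by
      rw [← add_assoc, smul_add, smul_smul, inv_mul_cancel₀ hr, one_smul]
    rw [e]
    exact hh _ _ (mul_ne_zero hc hr)
  have Hall : ∀ x : V, x ∈ H := by
    intro x
    choose g hg hg' using fun c : K => H0 (c • x)
    have : ∃ c c' : K, c ≠ c' ∧ g c = g c' := by
      by_contra hcon
      push Not at hcon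
      have hinj : Function.Injective (fun c : K => (⟨g c, hg c⟩ : F)) := by
        intro c c' h
        by_contra hne
        exact hcon c c' hne (congrArg Subtype.val h)
      have := Finite.of_injective _ hinj
      exact not_finite K
    obtain ⟨c, c', hne, heq⟩ := this
    have h1 := Hadd _ (hg' c) _ (Hneg _ (hg' c'))
    rw [heq] at h1
    have e : c • x - g c' + -(c' • x - g c') = (c - c') • x := by
      rw [sub_smul]; abel
    rw [e] at h1
    have h2 := Hsmul (c - c')⁻¹ (inv_ne_zero (sub_ne_zero.mpr hne)) _ h1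
    rwa [smul_smul, inv_mul_cancel₀ (sub_ne_zero.mpr hne), one_smul] at h2
  have hconst : ∀ b, (S 0 1 ↔ S b 1) := by
    intro b
    have := Hall b 0 1 one_ne_zero
    simpa using this
  by_cases h0 : S 0 1
  · right
    intro hgen
    have : Gen {x | ∃ f ∈ F, x ∈ {x | (1 : K) • x + (-f) ∈ N f 1}} := by
      refine hgen.mono (fun x hx => ?_)
      obtain ⟨f, hf, h⟩ := hF x
      refine ⟨f, hf, ?_, ?_⟩
      · simpa [sub_eq_add_neg] using h
      · simpa using hx
    obtain ⟨f, _, h⟩ := hD.gen_biUnion hX F _ (fun f _ => hD.aff _ (hND f 1) 1 (-f)) this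
    rw [gen_aff_iff one_ne_zero] at h
    exact (hconst f).1 h0 h
  · left
    intro hgen
    have : Gen {x | ∃ f ∈ F, x ∈ {x | (1 : K) • x + (-f) ∈ P f 1}} := by
      refine hgen.mono (fun x hx => ?_)
      obtain ⟨f, hf, h⟩ := hF x
      refine ⟨f, hf, ?_, ?_⟩
      · simpa [sub_eq_add_neg] using h
      · simpa using hx
    obtain ⟨f, _, h⟩ := hD.gen_biUnion hX F _ (fun f _ => hD.aff _ (hPD f 1) 1 (-f)) this
    rw [gen_aff_iff one_ne_zero] at h
    exact hS f 1 one_ne_zero (fun h' => h0 ((hconst f).2 h')) h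

/-- A definable set that absorbs finite sets around one of its points is generic. -/
theorem Cls.gen_of_absorbing (hD : Cls K D) {X : Set V} (hX : X ∈ D) (x0 : V)
    (habs : ∀ A : Finset V, ∃ u : K, u ≠ 0 ∧ ∀ a ∈ A, x0 + u • a ∈ X) : Gen X := by
  classical
  by_contra hng
  obtain ⟨n, hn⟩ := hD.lad X hX
  have key : ∀ m : ℕ, ∃ (x : Fin m → V) (u : Fin m → K), (∀ j, u j ≠ 0) ∧
      ∀ i j, (u j • x i + x0 ∈ X ↔ i < j) := by
    intro m
    induction m with
    | zero => exact ⟨Fin.elim0, Fin.elim0, fun i => i.elim0, fun i => i.elim0⟩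
    | succ m ih =>
      obtain ⟨x, u, hu, hxu⟩ := ih
      obtain ⟨w, hw, hw'⟩ := habs (Finset.univ.image x)
      have hex : ∃ y : V, ∀ j : Fin (m + 1), (Fin.snoc u w : Fin (m + 1) → K) j • y + x0 ∉ X := by
        by_contra hcon
        push Not at hcon
        have hg : Gen {y | ∃ j ∈ (Finset.univ : Finset (Fin (m + 1))),
            y ∈ {y | (Fin.snoc u w : Fin (m + 1) → K) j • y + x0 ∈ X}} := by
          refine gen_univ.mono (fun y _ => ?_)
          obtain ⟨j, hj⟩ := hcon y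
          exact ⟨j, Finset.mem_univ _, hj⟩
        obtain ⟨j, _, h⟩ := hD.gen_biUnion hX _ _ (fun j _ => hD.aff X hX _ _) hg
        have hne : (Fin.snoc u w : Fin (m + 1) → K) j ≠ 0 := by
          refine Fin.lastCases ?_ (fun j => ?_) j
          · simpa using hw
          · simpa using hu j
        rw [gen_aff_iff hne] at h
        exact hng h
      obtain ⟨y, hy⟩ := hex
      refine ⟨Fin.snoc x y, Fin.snoc u w, ?_, fun i j => ?_⟩
      · intro j
        refine Fin.lastCases ?_ (fun j => ?_) j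
        · simpa using hw
        · simpa using hu j
      · refine Fin.lastCases ?_ (fun i => ?_) i
        · rw [Fin.snoc_last]
          constructor
          · intro h; exact absurd h (hy j)
          · intro h; exact absurd h (not_lt.mpr (Fin.le_last _))
        · refine Fin.lastCases ?_ (fun j => ?_) j
          · simp only [Fin.snoc_last, Fin.snoc_castSucc]
            refine ⟨fun _ => Fin.castSucc_lt_last i, fun _ => ?_⟩
            rw [add_comm]
            exact hw' _ (Finset.mem_image_of_mem _ (Finset.mem_univ _))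
          · simpa using hxu i j
  obtain ⟨x, u, _, hxu⟩ := key n
  exact hn ⟨x, fun j => (u j, x0), fun i j => by simpa using hxu i j⟩

end main

theorem common_point {K : Type u} [Field K] [Infinite K] {V : Type*} [AddCommGroup V] [Module K V]
    (D : Set (Set V)) (hcompl : ∀ X ∈ D, Xᶜ ∈ D)
    (hunion : ∀ X ∈ D, ∀ Y ∈ D, X ∪ Y ∈ D)
    (haff : ∀ X ∈ D, ∀ (c : K) (a : V), {x | c • x + a ∈ X} ∈ D)
    (hlad : ∀ X ∈ D, NoLadder (fun (x : V) (p : K × V) => p.1 • x + p.2 ∈ X))
    {ι : Type*} [Finite ι] (X : ι → Set V) (hX : ∀ i, X i ∈ D) (x0 : ι → V)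
    (habs : ∀ i, ∀ A : Finset V, ∃ u : K, u ≠ 0 ∧ ∀ a ∈ A, x0 i + u • a ∈ X i) :
    (⋂ i, X i).Nonempty := by
  classical
  have hD : Cls K D := ⟨hcompl, hunion, haff, hlad⟩
  cases nonempty_fintype ι
  by_contra hcon
  rw [Set.not_nonempty_iff_eq_empty] at hcon
  rcases isEmpty_or_nonempty ι with hι | ⟨⟨i0⟩⟩
  · rw [Set.iInter_of_empty] at hcon
    exact Set.univ_nonempty.ne_empty hcon
  have hg : Gen {x | ∃ i ∈ (Finset.univ : Finset ι), x ∈ (X i)ᶜ} := by
    refine gen_univ.mono (fun x _ => ?_)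
    by_contra h
    have : x ∈ (⋂ i, X i) := by
      rw [Set.mem_iInter]
      intro i
      by_contra hi
      exact h ⟨i, Finset.mem_univ _, hi⟩
    rw [hcon] at this
    exact this
  obtain ⟨i, _, h⟩ := hD.gen_biUnion (hX i0) _ _ (fun i _ => hD.compl _ (hX i)) hg
  rcases hD.not_gen_or (hX i) with h' | h'
  · exact h' (hD.gen_of_absorbing (hX i) (x0 i) (habs i))
  · exact h' h

end Pool.Agent.H7.ST
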