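import Mathlib

/-! Stable fields and valuations: definitions. -/

set_option autoImplicit false

namespace Pool.Agent.H7.ST

open FirstOrder Polynomial

universe u

/-- `K` is stable: no formula of the language of rings has arbitrarily long ladders. -/
def StableField (K : Type u) [Field K] [FirstOrder.Ring.CompatibleRing K] : Prop :=
  ∀ (m k : ℕ) (φ : FirstOrder.Language.ring.Formula (Fin m ⊕ Fin k)),
    ¬ ∀ n : ℕ, ∃ (a : Fin n → Fin m → K) (b : Fin n → Fin k → K),
      ∀ i j : Fin n, (φ.Realize (Sum.elim (a i) (b j)) ↔ i < j)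

/-- A relation without arbitrarily long ladders. -/
def NoLadder {A B : Type*} (R : A → B → Prop) : Prop :=
  ∃ n : ℕ, ¬ ∃ (a : Fin n → A) (b : Fin n → B), ∀ i j : Fin n, (R (a i) (b j) ↔ i < j)

/-- Sets definable in the language of rings with parameters in `K`. -/
def Dfn {K : Type*} [Field K] [FirstOrder.Ring.CompatibleRing K] {α : Type*}
    (X : Set (α → K)) : Prop :=
  (Set.univ : Set K).Definable FirstOrder.Language.ring X

/-- Polynomial functions. -/
def PolyFun {K : Type*} [Field K] {α : Type*} (f : (α → K) → K) : Prop :=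
  ∃ P : MvPolynomial α K, ∀ x, f x = MvPolynomial.eval x P

/-- `b` is a (possibly zero) value of `det h(C)` for a polynomial `h` of degree `< d`. -/
def NRel {K : Type*} [Field K] {d : ℕ} (C : Matrix (Fin d) (Fin d) K) (b : K) : Prop :=
  ∃ c : Fin d → K, (∑ i : Fin d, c i • C ^ (i : ℕ)).det = b

/-- The tensor product of a family of `d × d` matrices. -/
def tens {K : Type*} [Field K] {ι : Type*} [Fintype ι] {d : ℕ}
    (E : ι → Matrix (Fin d) (Fin d) K) : Matrix (ι → Fin d) (ι → Fin d) K :=
  fun f g => ∏ i, E i (f i) (g i)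

/-- The matrix of multiplication by `X` on `K[X]/(X^l - a)`: entry `(i+1, i)` is `1`, entry
`(0, l-1)` is `a`. -/
def radMat {K : Type*} [Field K] (l : ℕ) (a : K) : Matrix (Fin l) (Fin l) K :=
  fun i j => if (i : ℕ) = j + 1 then 1 else if (i : ℕ) = 0 ∧ (j : ℕ) + 1 = l then a else 0

end Pool.Agent.H7.ST
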