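import Pool.Agent.H7.ST.Base

/-! Module C: determinants of polynomials in a matrix, Kronecker products.

Hints.
`NRel_iff` : from right to left reduce `h` modulo the charpoly (`Polynomial.modByMonic`, `Matrix.aeval_self_charpoly`,
   `Matrix.charpoly_degree_eq_dim`), write `aeval C h'` as `∑ i : Fin d` (`Polynomial.aeval_eq_sum_range'`,
   `Fin.sum_univ_eq_sum_range`).
`NRel.inv` : for `b ≠ 0`, the inverse of `aeval C h` is a polynomial in `C`; simplest: `b⁻¹ = det (aeval C h')` where, with
   `M = aeval C h` and `d ≥ 1`, `M⁻¹` is a polynomial in `M` by Cayley-Hamilton; or: `b⁻¹ = b^(d-1) * (b⁻¹)^d`, `b^(d-1)` is a norm by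
   `NRel.mul`, and `(b⁻¹)^d = det (aeval C (Polynomial.C b⁻¹))`. For `d = 0` all determinants are 1.
`NRel_tens` : reindex along `Equiv.funSplitAt i (Fin d) : (ι → Fin d) ≃ Fin d × ({j // j ≠ i} → Fin d)`; the matrix becomes a
   Kronecker product `E i ⊗ₖ M`. Put `M' = 1 + X • (c • M).map Polynomial.C` over `K[X]`; apply `Matrix.det_det`-type theorem
   (Mathlib.RingTheory.Norm.Transitivity, `Matrix.comp`): `det (comp (M'.map (aeval (E i)))) = det (aeval (E i) (det M'))`.
`det_one_add_smul_tens_vecMulVec` : `tens (fun _ => vecMulVec u w) = vecMulVec (fun f => ∏ i, u (f i)) (fun f => ∏ i, w (f i))`,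
   `∑ f, ∏ i, w (f i) * u (f i) = (w ⬝ᵥ u)^card = 1` (`Finset.prod_univ_sum`), matrix determinant lemma
   (`Matrix.det_one_add_mul_comm` or `det_one_add_replicateCol_mul_replicateRow`). -/

set_option autoImplicit false

namespace Pool.Agent.H7.ST

open Polynomial Matrix

universe u

variable {K : Type u} [Field K] {d : ℕ}

theorem NRel_iff (C : Matrix (Fin d) (Fin d) K) (b : K) :
    NRel C b ↔ ∃ h : K[X], (aeval C h).det = b := by
  constructor
  · rintro ⟨c, hc⟩
    refine ⟨∑ i : Fin d, Polynomial.C (c i) * Polynomial.X ^ (i : ℕ), ?_⟩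
    rw [← hc]
    congr 1
    rw [map_sum]
    refine Finset.sum_congr rfl fun i _ => ?_
    rw [map_mul, aeval_C, map_pow, aeval_X, Algebra.algebraMap_eq_smul_one, smul_mul_assoc,
      one_mul]
  · rintro ⟨h, hh⟩
    rcases Nat.eq_zero_or_pos d with hd | hd
    · subst hd
      refine ⟨fun _ => 0, ?_⟩
      rw [← hh, Matrix.det_isEmpty, Matrix.det_isEmpty]
    · set h' : K[X] := h %ₘ C.charpoly with hh'
      have h1 : aeval C h' = aeval C h := by
        have h2 := Polynomial.modByMonic_add_div h C.charpoly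
        have h3 : aeval C h = aeval C (h %ₘ C.charpoly + C.charpoly * (h /ₘ C.charpoly)) := by
          rw [h2]
        rw [h3, map_add, map_mul, Matrix.aeval_self_charpoly, zero_mul, add_zero]
      have hdeg : h'.natDegree < d := by
        have h2 : h'.degree < C.charpoly.degree :=
          Polynomial.degree_modByMonic_lt h C.charpoly_monic
        rw [Matrix.charpoly_degree_eq_dim, Fintype.card_fin] at h2
        by_cases h0 : h' = 0
        · rw [h0, natDegree_zero]; exact hd
        · exact (Polynomial.natDegree_lt_iff_degree_lt h0).2 h2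
      refine ⟨fun i => h'.coeff i, ?_⟩
      rw [← hh, ← h1, Polynomial.aeval_eq_sum_range' hdeg, ← Fin.sum_univ_eq_sum_range
        (fun i => h'.coeff i • C ^ i)]

theorem NRel.mul {C : Matrix (Fin d) (Fin d) K} {b c : K} (hb : NRel C b) (hc : NRel C c) :
    NRel C (b * c) := by
  rw [NRel_iff] at hb hc ⊢
  obtain ⟨h, rfl⟩ := hb
  obtain ⟨h', rfl⟩ := hc
  exact ⟨h * h', by rw [map_mul, Matrix.det_mul]⟩

theorem NRel.one (C : Matrix (Fin d) (Fin d) K) : NRel C 1 := by
  rw [NRel_iff]
  exact ⟨1, by rw [map_one, Matrix.det_one]⟩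

theorem C_pow {C : Matrix (Fin d) (Fin d) K} {b : K} (hb : NRel C b) (n : ℕ) :
    NRel C (b ^ n) := by
  induction n with
  | zero => rw [pow_zero]; exact NRel.one C
  | succ n ih => rw [pow_succ]; exact ih.mul hb

theorem NRel.inv {C : Matrix (Fin d) (Fin d) K} {b : K} (hb : NRel C b) : NRel C b⁻¹ := by
  by_cases h0 : b = 0
  · rw [h0, _root_.inv_zero, ← h0]; exact hb
  rcases Nat.eq_zero_or_pos d with hd | hd
  · subst hd
    have h1 : b = 1 := by
      rw [NRel_iff] at hb
      obtain ⟨h, rfl⟩ := hb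
      exact Matrix.det_isEmpty
    rw [h1, _root_.inv_one]
    exact NRel.one C
  · have h1 : NRel C ((b⁻¹) ^ d) := by
      rw [NRel_iff]
      refine ⟨Polynomial.C b⁻¹, ?_⟩
      rw [aeval_C, Algebra.algebraMap_eq_smul_one, Matrix.det_smul, Matrix.det_one, mul_one,
        Fintype.card_fin]
    have h2 : b⁻¹ = b ^ (d - 1) * (b⁻¹) ^ d := by
      obtain ⟨e, rfl⟩ : ∃ e, d = e + 1 := ⟨d - 1, by omega⟩
      rw [Nat.add_sub_cancel, pow_succ, ← mul_assoc, ← mul_pow, mul_inv_cancel₀ h0, one_pow,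
        one_mul]
    rw [h2]
    exact (C_pow hb (d - 1)).mul h1

theorem NRel_tens {ι : Type*} [Fintype ι] [DecidableEq ι] (E : ι → Matrix (Fin d) (Fin d) K)
    (c : K) (i : ι) : NRel (E i) (1 + c • tens E).det := by
  classical
  rw [NRel_iff]
  let J := {j // j ≠ i} → Fin d
  let MJ : Matrix J J K := tens (fun j : {j // j ≠ i} => E j)
  let P : Matrix J J K[X] := 1 + (Polynomial.X : K[X]) • (c • MJ).map Polynomial.C
  let F : K[X] →+* Matrix (Fin d) (Fin d) K := (aeval (E i) : K[X] →ₐ[K] _).toRingHom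
  refine ⟨P.det, ?_⟩
  have h1 : (F P.det).det = ((P.map F).comp J J (Fin d) (Fin d) K).det := Matrix.det_det P F
  have h2 : aeval (E i) P.det = F P.det := rfl
  rw [h2, h1]
  let e : (ι → Fin d) ≃ J × Fin d := (Equiv.funSplitAt i (Fin d)).trans (Equiv.prodComm _ _)
  have h3 : (1 + c • tens E : Matrix (ι → Fin d) (ι → Fin d) K) =
      ((P.map F).comp J J (Fin d) (Fin d) K).submatrix e e := by
    ext f g
    have hF : F (P (e f).1 (e g).1) = (1 : Matrix J J K) (e f).1 (e g).1 •
        (1 : Matrix (Fin d) (Fin d) K) + (c * MJ (e f).1 (e g).1) • E i := by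
      have hP : P (e f).1 (e g).1 = Polynomial.C ((1 : Matrix J J K) (e f).1 (e g).1) +
          Polynomial.X * Polynomial.C (c * MJ (e f).1 (e g).1) := by
        show (1 : Matrix J J K[X]) (e f).1 (e g).1 + _ = _
        congr 1
        rw [Matrix.one_apply, Matrix.one_apply]
        split_ifs <;> simp
      rw [hP, map_add, map_mul]
      show aeval (E i) _ + aeval (E i) _ * aeval (E i) _ = _
      rw [aeval_C, aeval_C, aeval_X, Algebra.algebraMap_eq_smul_one,
        Algebra.algebraMap_eq_smul_one, mul_smul_comm, mul_one]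
    show (1 : Matrix (ι → Fin d) (ι → Fin d) K) f g + c * tens E f g =
      F (P (e f).1 (e g).1) (e f).2 (e g).2
    rw [hF]
    show _ = (1 : Matrix J J K) (e f).1 (e g).1 * (1 : Matrix (Fin d) (Fin d) K) (e f).2 (e g).2 +
      (c * MJ (e f).1 (e g).1) * E i (e f).2 (e g).2
    have h4 : tens E f g = E i (e f).2 (e g).2 * MJ (e f).1 (e g).1 := by
      unfold tens
      rw [Fintype.prod_eq_mul_prod_subtype_ne _ i]
      rfl
    rw [h4]
    have h5 : (1 : Matrix (ι → Fin d) (ι → Fin d) K) f g =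
        (1 : Matrix J J K) (e f).1 (e g).1 * (1 : Matrix (Fin d) (Fin d) K) (e f).2 (e g).2 := by
      rw [Matrix.one_apply, Matrix.one_apply, Matrix.one_apply]
      by_cases hfg : f = g
      · subst hfg; simp
      · rw [if_neg hfg]
        by_cases ha : (e f).1 = (e g).1
        · have hb : (e f).2 ≠ (e g).2 := fun hb => hfg (e.injective (Prod.ext ha hb))
          rw [if_neg hb, mul_zero]
        · rw [if_neg ha, zero_mul]
    rw [h5]
    ring
  rw [h3, Matrix.det_submatrix_equiv_self]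

theorem NRel_tens_aeval {ι : Type*} [Fintype ι] [DecidableEq ι]
    (C : ι → Matrix (Fin d) (Fin d) K) (l : K[X]) (c : K) (i : ι) :
    NRel (C i) (1 + c • tens (fun i => aeval (C i) l)).det := by
  have h1 := NRel_tens (fun i => aeval (C i) l) c i
  rw [NRel_iff] at h1 ⊢
  obtain ⟨h, hh⟩ := h1
  exact ⟨h.comp l, by rw [Polynomial.aeval_comp]; exact hh⟩

theorem det_one_add_smul_tens_vecMulVec {ι : Type*} [Fintype ι] [DecidableEq ι]
    (u w : Fin d → K) (h : w ⬝ᵥ u = 1) (c : K) :
    (1 + c • tens (fun _ : ι => vecMulVec u w)).det = 1 + c := by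
  have h1 : c • tens (fun _ : ι => vecMulVec u w) =
      vecMulVec (fun f : ι → Fin d => c * ∏ i, u (f i)) (fun f : ι → Fin d => ∏ i, w (f i)) := by
    ext f g
    show c * ∏ i, (u (f i) * w (g i)) = (c * ∏ i, u (f i)) * ∏ i, w (g i)
    rw [Finset.prod_mul_distrib]
    ring
  rw [h1, Matrix.vecMulVec_eq Unit, Matrix.det_one_add_replicateCol_mul_replicateRow]
  congr 1
  have h2 : (fun f : ι → Fin d => ∏ i, w (f i)) ⬝ᵥ (fun f : ι → Fin d => c * ∏ i, u (f i)) =
      c * ∑ f : ι → Fin d, ∏ i, (w (f i) * u (f i)) := by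
    rw [Finset.mul_sum]
    refine Finset.sum_congr rfl fun f _ => ?_
    rw [Finset.prod_mul_distrib]
    ring
  rw [h2]
  have h3 : ∑ f : ι → Fin d, ∏ i, (w (f i) * u (f i)) = 1 := by
    have h4 := Finset.prod_univ_sum (fun _ : ι => (Finset.univ : Finset (Fin d)))
      (fun (_ : ι) (a : Fin d) => w a * u a)
    rw [Fintype.piFinset_univ] at h4
    rw [← h4]
    have h5 : ∑ a : Fin d, w a * u a = 1 := h
    rw [Finset.prod_congr rfl fun _ _ => h5, Finset.prod_const_one]
  rw [h3, mul_one]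

end Pool.Agent.H7.ST
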