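import Pool.Agent.H7.ST.Base

/-! Module Da: local obstruction, unramified case, and the split matrix.

Hints for `local_a`. Let `O = v.valuationSubring`, `κ` its residue field, `d = f.natDegree`, `L = AdjoinRoot f` (a field,
`Fact (Irreducible f)`), basis `B = AdjoinRoot.powerBasis` of `L` over `κ` indexed by `Fin d`
(dimension: `AdjoinRoot.powerBasis_dim`/`natDegree`; f need not be monic, `AdjoinRoot.powerBasis hf.ne_zero` handles it).
`Cbar = Algebra.leftMulMatrix B (root f)`; lift every entry to `O` (residue map surjective): `C0`, `C = C0.map Subtype.val`.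
If `v (C' i j - C i j) < 1` then `C'` has entries in `O` and the same reduction `Cbar`.
Given `h` with `det h(C') ≠ 0`: reduce modulo the charpoly so that `natDegree h < d` and `h ≠ 0`; let `c` be a coefficient of `h`
with `v` maximal, `h = C c * h'` with `h'` having all coefficients in `O` and one coefficient `1`; so `hbar ≠ 0`, degree `< d`.
`det h(C') = c^d * det h'(C')`, `det h'(C')` lies in `O` with residue `det hbar(Cbar) = Algebra.norm κ (aeval (root f) hbar)`
(`Algebra.norm_eq_matrix_det`, `aeval_algHom_apply`), which is nonzero since `aeval (root f) hbar ≠ 0` (degree < d, `AdjoinRoot.mk_ne_zero_of_degree_lt`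
or minpoly). Hence `v (det h(C')) = v c ^ d`. If moreover `v (det h(C') - b) < 1` with `b` a unit of `O` then `v (det) = 1`, so `v c ^ d = 1`, so `v c = 1`
(`d ≥ 1`, linearly ordered group), and the residue of `b` is `cbar^d * norm(..) = norm (cbar • ..)` (`Algebra.norm_algebraMap`, or put `c` back into `h`).

Hints for `diagonal_aeval`: `p = Lagrange basis polynomial` at the index `0` (so `p(x 0) = 1`, `p(x i) = 0` otherwise), `u = w = Pi.single 0 1`. -/

set_option autoImplicit false

namespace Pool.Agent.H7.ST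

open Polynomial Matrix

universe u

variable {K : Type u} [Field K]

theorem Da_res_zero {Γ : Type*} [LinearOrderedCommGroupWithZero Γ] (v : Valuation K Γ)
    (x : v.valuationSubring) : IsLocalRing.residue _ x = 0 ↔ v x < 1 := by
  have hx1 : v x ≤ 1 := (v.mem_valuationSubring_iff x).mp x.2
  rw [IsLocalRing.residue_eq_zero_iff, IsLocalRing.mem_maximalIdeal, mem_nonunits_iff]
  constructor
  · intro h
    by_contra hlt
    have h1 : v x = 1 := le_antisymm hx1 (not_lt.mp hlt)
    apply h
    have hx0 : (x : K) ≠ 0 := by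
      intro h0
      rw [h0, map_zero] at h1
      exact zero_ne_one h1
    have hinv : (x : K)⁻¹ ∈ v.valuationSubring := by
      rw [v.mem_valuationSubring_iff, map_inv₀, h1, inv_one]
    refine IsUnit.of_mul_eq_one ⟨(x : K)⁻¹, hinv⟩ ?_
    apply Subtype.ext
    exact mul_inv_cancel₀ hx0
  · intro h hu
    obtain ⟨y, hy⟩ := hu.exists_right_inv
    have h1 : (x : K) * (y : K) = 1 := congrArg Subtype.val hy
    have h2 : v x * v y = 1 := by rw [← map_mul, h1, map_one]
    have hy1 : v y ≤ 1 := (v.mem_valuationSubring_iff y).mp y.2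
    have h3 : v x * v y ≤ v x * 1 := mul_le_mul_right hy1 _
    rw [h2, mul_one] at h3
    exact absurd h (not_lt.mpr h3)

theorem Da_res_ne {Γ : Type*} [LinearOrderedCommGroupWithZero Γ] (v : Valuation K Γ)
    (x : v.valuationSubring) (h : IsLocalRing.residue _ x ≠ 0) : v x = 1 := by
  have hx1 : v x ≤ 1 := (v.mem_valuationSubring_iff x).mp x.2
  apply le_antisymm hx1
  by_contra hlt
  exact h ((Da_res_zero v x).mpr (not_le.mp hlt))

/-- evaluation of a polynomial commutes with a ring homomorphism -/
theorem Da_map_aeval {R S : Type*} [CommRing R] [CommRing S] {n : Type*} [Fintype n] [DecidableEq n]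
    (φ : R →+* S) (C : Matrix n n R) (p : R[X]) :
    (aeval (C.map φ) (p.map φ)) = (aeval C p).map φ := by
  have h := map_aeval_eq_aeval_map (R := R) (S := Matrix n n R) (T := S) (U := Matrix n n S)
    (φ := φ) (ψ := φ.mapMatrix) (by
      ext r i j
      simp [Matrix.algebraMap_matrix_apply, apply_ite φ]) p C
  exact h.symm

theorem Da_core {Γ : Type*} [LinearOrderedCommGroupWithZero Γ] (v : Valuation K Γ)
    (f : (IsLocalRing.ResidueField v.valuationSubring)[X]) (hf : Irreducible f)
    (C2 : Matrix (Fin f.natDegree) (Fin f.natDegree) v.valuationSubring)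
    (hC2 : C2.map (IsLocalRing.residue v.valuationSubring) =
      Algebra.leftMulMatrix (AdjoinRoot.powerBasisAux hf.ne_zero) (AdjoinRoot.root f))
    (H : v.valuationSubring[X]) (hdeg : H.degree < f.natDegree)
    (i0 : ℕ) (hi0 : H.coeff i0 = 1) :
    ∃ z : AdjoinRoot f, Algebra.norm (IsLocalRing.ResidueField v.valuationSubring) z =
      IsLocalRing.residue _ (aeval C2 H).det ∧ IsLocalRing.residue _ (aeval C2 H).det ≠ 0 := by
  have : Fact (Irreducible f) := ⟨hf⟩
  set Hb := H.map (IsLocalRing.residue v.valuationSubring) with hHb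
  have hHb0 : Hb ≠ 0 := by
    intro h
    have h1 : Hb.coeff i0 = 1 := by rw [hHb, coeff_map, hi0, map_one]
    rw [h, coeff_zero] at h1
    exact zero_ne_one h1
  have hHbdeg : Hb.degree < f.degree := by
    rw [degree_eq_natDegree hf.ne_zero]
    exact (degree_map_le).trans_lt hdeg
  have hz : aeval (AdjoinRoot.root f) Hb ≠ 0 := by
    rw [AdjoinRoot.aeval_eq]
    intro h
    rw [AdjoinRoot.mk_eq_zero] at h
    exact hHb0 (eq_zero_of_dvd_of_degree_lt h hHbdeg)
  have hdet : Algebra.norm (IsLocalRing.ResidueField v.valuationSubring)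
      (aeval (AdjoinRoot.root f) Hb) = IsLocalRing.residue _ (aeval C2 H).det := by
    rw [Algebra.norm_eq_matrix_det (AdjoinRoot.powerBasisAux hf.ne_zero), ← aeval_algHom_apply,
      ← hC2, hHb, Da_map_aeval]
    exact (RingHom.map_det _ _).symm
  refine ⟨_, hdet, ?_⟩
  rw [← hdet]
  have : Module.Finite (IsLocalRing.ResidueField v.valuationSubring) (AdjoinRoot f) :=
    Module.Finite.of_basis (AdjoinRoot.powerBasisAux hf.ne_zero)
  exact Algebra.norm_ne_zero_iff.mpr hz

theorem local_a {Γ : Type*} [LinearOrderedCommGroupWithZero Γ] (v : Valuation K Γ)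
    (f : (IsLocalRing.ResidueField v.valuationSubring)[X]) (hf : Irreducible f) :
    ∃ C : Matrix (Fin f.natDegree) (Fin f.natDegree) K,
      ∀ C' : Matrix (Fin f.natDegree) (Fin f.natDegree) K,
      (∀ i j, v (C' i j - C i j) < 1) → ∀ h : K[X], (aeval C' h).det ≠ 0 →
      (∃ y, v (aeval C' h).det = v y ^ f.natDegree) ∧
      (∀ b : v.valuationSubring, IsLocalRing.residue _ b ≠ 0 → v ((aeval C' h).det - b) < 1 →
        ∃ z : AdjoinRoot f, Algebra.norm (IsLocalRing.ResidueField v.valuationSubring) z =
          IsLocalRing.residue _ b) := by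
  classical
  have : Fact (Irreducible f) := ⟨hf⟩
  set d := f.natDegree with hd
  have hd0 : 0 < d := hf.natDegree_pos
  set Cb := Algebra.leftMulMatrix (AdjoinRoot.powerBasisAux hf.ne_zero) (AdjoinRoot.root f)
    with hCb
  have hlift : ∀ i j, ∃ c : v.valuationSubring, IsLocalRing.residue _ c = Cb i j :=
    fun i j => IsLocalRing.residue_surjective _
  choose c0 hc0 using hlift
  refine ⟨Matrix.of fun i j => (c0 i j : K), ?_⟩
  intro C' hC' h hh
  have hmem : ∀ i j, C' i j ∈ v.valuationSubring := by
    intro i j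
    have h1 : C' i j - c0 i j ∈ v.valuationSubring := by
      rw [v.mem_valuationSubring_iff]; exact (hC' i j).le
    have h2 := v.valuationSubring.add_mem _ _ h1 (c0 i j).2
    simpa using h2
  let C2 : Matrix (Fin d) (Fin d) v.valuationSubring := Matrix.of fun i j => ⟨C' i j, hmem i j⟩
  have hC2K : C2.map (algebraMap v.valuationSubring K) = C' := by
    ext i j; rfl
  have hC2res : C2.map (IsLocalRing.residue v.valuationSubring) = Cb := by
    ext i j
    rw [Matrix.map_apply, ← hc0 i j, ← sub_eq_zero, ← map_sub, Da_res_zero]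
    exact hC' i j
  -- reduction modulo the characteristic polynomial
  set h1 := h %ₘ C'.charpoly with hh1
  have hae : aeval C' h1 = aeval C' h :=
    aeval_modByMonic_eq_self_of_root (Matrix.aeval_self_charpoly C')
  have hdeg1 : h1.degree < d := by
    have := degree_modByMonic_lt h (Matrix.charpoly_monic C')
    rw [Matrix.charpoly_degree_eq_dim, Fintype.card_fin] at this
    exact this
  have hne1 : h1 ≠ 0 := by
    intro h0
    have : Nonempty (Fin d) := ⟨⟨0, hd0⟩⟩
    rw [← hae, h0, map_zero, Matrix.det_zero] at hh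
    exact hh rfl
  obtain ⟨i0, _, hi0⟩ := Finset.exists_max_image (Finset.range d) (fun i => v (h1.coeff i))
    ⟨0, Finset.mem_range.mpr hd0⟩
  have hmax : ∀ i, v (h1.coeff i) ≤ v (h1.coeff i0) := by
    intro i
    by_cases hi : i < d
    · exact hi0 i (Finset.mem_range.mpr hi)
    · rw [coeff_eq_zero_of_degree_lt (hdeg1.trans_le (by exact_mod_cast not_lt.mp hi)), map_zero]
      exact zero_le
  set c := h1.coeff i0 with hc
  have hcne : c ≠ 0 := by
    intro h0
    apply hne1
    ext i
    rw [coeff_zero]
    have := hmax i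
    rw [h0, map_zero] at this
    exact (v.zero_iff).mp (le_antisymm this zero_le)
  have hlifts : C c⁻¹ * h1 ∈ lifts (algebraMap v.valuationSubring K) := by
    rw [lifts_iff_coeff_lifts]
    intro n
    rw [coeff_C_mul]
    refine ⟨⟨c⁻¹ * h1.coeff n, ?_⟩, rfl⟩
    rw [v.mem_valuationSubring_iff, map_mul, map_inv₀]
    have hvc : v c ≠ 0 := v.ne_zero_iff.mpr hcne
    calc (v c)⁻¹ * v (h1.coeff n) ≤ (v c)⁻¹ * v c := mul_le_mul_right (hmax n) _
      _ = 1 := inv_mul_cancel₀ hvc
  obtain ⟨H, hH⟩ := hlifts
  have hHK : H.map (algebraMap v.valuationSubring K) = C c⁻¹ * h1 := hH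
  have hinj : Function.Injective (algebraMap v.valuationSubring K) := Subtype.val_injective
  have hHdeg : H.degree < d := by
    rw [← degree_map_eq_of_injective hinj, hHK]
    refine lt_of_le_of_lt ?_ hdeg1
    rw [degree_C_mul (inv_ne_zero hcne)]
  have hHi0 : H.coeff i0 = 1 := by
    apply hinj
    rw [← coeff_map, hHK, coeff_C_mul, map_one]
    exact inv_mul_cancel₀ hcne
  obtain ⟨z, hz, hzne⟩ := Da_core v f hf C2 hC2res H hHdeg i0 hHi0
  set D := (aeval C2 H).det with hD
  have hDK : (aeval C' (C c⁻¹ * h1)).det = (D : K) := by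
    rw [← hHK, ← hC2K, Da_map_aeval]
    exact (RingHom.map_det (algebraMap v.valuationSubring K) _).symm
  have hdetc : (aeval C' h).det = c ^ d * (D : K) := by
    rw [← hae, ← hDK]
    have : aeval C' h1 = c • aeval C' (C c⁻¹ * h1) := by
      rw [map_mul, aeval_C, ← Algebra.smul_def, smul_smul, mul_inv_cancel₀ hcne, one_smul]
    rw [this, Matrix.det_smul, Fintype.card_fin]
  have hvD : v (D : K) = 1 := Da_res_ne v D hzne
  have hvdet : v (aeval C' h).det = v c ^ d := by
    rw [hdetc, map_mul, map_pow, hvD, mul_one]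
  refine ⟨⟨c, hvdet⟩, ?_⟩
  intro b hb hvb
  have hvb1 : v (b : K) = 1 := Da_res_ne v b hb
  have hv1 : v (aeval C' h).det = 1 := by
    have h2 : v ((b : K) + ((aeval C' h).det - b)) = v (b : K) :=
      v.map_add_eq_of_lt_left (by rw [hvb1]; exact hvb)
    rw [add_sub_cancel, hvb1] at h2
    exact h2
  have hvc : v c = 1 := by
    rw [hvdet] at hv1
    rcases lt_trichotomy (v c) 1 with hlt | heq | hgt
    · exact absurd hv1 (pow_lt_one₀ zero_le hlt hd0.ne').ne
    · exact heq
    · exact absurd hv1 (one_lt_pow₀ hgt hd0.ne').ne'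
  have hcmem : c ∈ v.valuationSubring := by
    rw [v.mem_valuationSubring_iff, hvc]
  let c' : v.valuationSubring := ⟨c, hcmem⟩
  refine ⟨algebraMap _ _ (IsLocalRing.residue v.valuationSubring c') * z, ?_⟩
  have hfr : Module.finrank (IsLocalRing.ResidueField v.valuationSubring) (AdjoinRoot f) = d := by
    rw [Module.finrank_eq_card_basis (AdjoinRoot.powerBasisAux hf.ne_zero), Fintype.card_fin]
  rw [map_mul, Algebra.norm_algebraMap, hfr, hz, ← map_pow, ← map_mul, ← sub_eq_zero, ← map_sub,
    Da_res_zero]
  have h3 : ((c' ^ d * D - b : v.valuationSubring) : K) = (aeval C' h).det - b := by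
    rw [hdetc]; rfl
  rw [h3]
  exact hvb

theorem diagonal_aeval {d : ℕ} (hd : 0 < d) (x : Fin d → K) (hx : Function.Injective x) :
    ∃ (p : K[X]) (u w : Fin d → K), w ⬝ᵥ u = 1 ∧
      aeval (Matrix.diagonal x) p = vecMulVec u w := by
  classical
  let i0 : Fin d := ⟨0, hd⟩
  refine ⟨Lagrange.basis Finset.univ x i0, Pi.single i0 1, Pi.single i0 1, by simp, ?_⟩
  have h1 : aeval (Matrix.diagonal x) (Lagrange.basis Finset.univ x i0) =
      Matrix.diagonal (fun i => eval (x i) (Lagrange.basis Finset.univ x i0)) := by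
    have h2 := aeval_algHom_apply (Matrix.diagonalAlgHom (n := Fin d) K (α := K)) x
      (Lagrange.basis Finset.univ x i0)
    have h3 : (aeval x (Lagrange.basis Finset.univ x i0) : Fin d → K) =
        fun i => eval (x i) (Lagrange.basis Finset.univ x i0) := by
      funext i
      have h4 := aeval_algHom_apply (Pi.evalAlgHom K (fun _ : Fin d => K) i) x
        (Lagrange.basis Finset.univ x i0)
      rw [← coe_aeval_eq_eval]
      exact h4.symm
    rw [h3] at h2
    exact h2
  rw [h1]
  have hinj : Set.InjOn x ((Finset.univ : Finset (Fin d)) : Set (Fin d)) := hx.injOn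
  ext i j
  rw [Matrix.diagonal_apply, Matrix.vecMulVec_apply]
  by_cases hij : i = j
  · subst hij
    rw [if_pos rfl]
    by_cases hi : i = i0
    · subst hi
      rw [Lagrange.eval_basis_self hinj (Finset.mem_univ _)]
      simp
    · rw [Lagrange.eval_basis_of_ne (Ne.symm hi) (Finset.mem_univ _)]
      simp [hi]
  · rw [if_neg hij]
    by_cases hi : i = i0
    · subst hi
      simp [Ne.symm hij]
    · simp [Pi.single_apply, hi]

end Pool.Agent.H7.ST
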