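import Pool.Agent.H7.ST.Base

/-! Module Db: local obstruction, ramified case. `radMat l a` is the matrix `C` of multiplication by `X` on `K[X]/(X^l - a)`.

Proof of `local_b`. Reduce `h` modulo `X^l - a` (`C^l = a • 1`): `h(C) = ∑_{k<l} h_k C^k`, not all `h_k = 0` (else the determinant is 0).
Let `k*` maximise `v (h_k)^l * v a ^ k` over `k < l`. For `k ≠ k*` with `h_k ≠ 0` the value is strictly smaller: equality would give
`v a ^ (k* - k) ∈ (v K^*)^l` with `0 < |k* - k| < l`, hence (Bezout) `v a ∈ (v K^*)^l`, against `hna`.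
So `h(C) = h_{k*} • C^{k*} * (1 + M)`, `M = ∑_{k ≠ k*} c_k C^{k - k*}` (integer exponents; `C` is invertible, `C⁻¹ = a⁻¹ C^{l-1}`; if you prefer
natural exponents write `C^{k-k*} = a⁻¹ • C^{l+k-k*}` for `k < k*`), `v (c_k)^l * v a ^ (k - k*) < 1`.
Entries: `(C^m) i j` is nonzero only if `i ≡ j + m mod l`, and then it is `a ^ ((j + m - i)/l)`; so `v ((C^m) i j)^l ≤ v a ^ (j + m - i)`, and therefore
`v (M i j)^l < v a ^ (j - i)` for all `i, j`. In `det (1 + M) = ∑_σ sign σ ∏ (1+M)_{σ i, i}` every `σ ≠ 1` has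
`v(∏)^l < ∏ v a ^ (i - σ i) = 1`, and the term `σ = 1` is `∏ (1 + M i i)` of value `1`. So `v (det (1 + M)) = 1` and
`v (det h(C)) = v (h_{k*})^l * v (det C)^{k*} = v (h_{k*})^l * v a ^ k*` (`(det C)^l = a^l` as `C^l = a • 1`, so `v (det C) = v a`).
(An alternative proof is welcome, for example through the extension of `v` to the field `K[X]/(X^l - a)`.)

`radMat_one_aeval` : `p = (1/l) (1 + X + ... + X^(l-1))`, `aeval = (1/l) * all-ones matrix`, `u = 1`, `w = 1/l`. -/

set_option autoImplicit false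

namespace Pool.Agent.H7.ST

open Polynomial Matrix

universe u

variable {K : Type u} [Field K]

/-- twisted circulant matrices -/
private def Db_T (l : ℕ) (a : K) (c : ℕ → K) : Matrix (Fin l) (Fin l) K :=
  fun i j => if (j : ℕ) ≤ i then c (i - j) else a * c (l + i - j)

private def Db_sh (l : ℕ) (a : K) (c : ℕ → K) : ℕ → K := fun k => if k = 0 then a * c (l - 1) else c (k - 1)

private theorem Db_mul_apply (l : ℕ) (a : K) (M : Matrix (Fin l) (Fin l) K) (i j : Fin l) :
    (radMat l a * M) i j = if h : (i : ℕ) = 0 then a * M ⟨l - 1, by have := i.2; omega⟩ j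
      else M ⟨i - 1, by have := i.2; omega⟩ j := by
  rw [Matrix.mul_apply]
  have hl := i.2
  by_cases h : (i : ℕ) = 0
  · rw [dif_pos h]
    rw [Finset.sum_eq_single (⟨l - 1, by omega⟩ : Fin l)]
    · have : radMat l a i ⟨l - 1, by omega⟩ = a := by
        unfold radMat
        rw [if_neg (by simp; omega), if_pos ⟨h, by simp; omega⟩]
      rw [this]
    · intro t _ ht
      have h1 : ¬ ((i : ℕ) = t + 1) := by omega
      have h2 : ¬ ((i : ℕ) = 0 ∧ (t : ℕ) + 1 = l) := by
        rintro ⟨_, h3⟩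
        exact ht (Fin.ext (by simp; omega))
      unfold radMat
      rw [if_neg h1, if_neg h2, zero_mul]
    · intro h'; exact absurd (Finset.mem_univ _) h'
  · rw [dif_neg h]
    rw [Finset.sum_eq_single (⟨i - 1, by omega⟩ : Fin l)]
    · have : radMat l a i ⟨i - 1, by omega⟩ = 1 := by
        unfold radMat
        rw [if_pos (by simp; omega)]
      rw [this, one_mul]
    · intro t _ ht
      have h1 : ¬ ((i : ℕ) = t + 1) := by
        intro h3
        exact ht (Fin.ext (by simp; omega))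
      have h2 : ¬ ((i : ℕ) = 0 ∧ (t : ℕ) + 1 = l) := fun h3 => h h3.1
      unfold radMat
      rw [if_neg h1, if_neg h2, zero_mul]
    · intro h'; exact absurd (Finset.mem_univ _) h'

private theorem Db_mul_T (l : ℕ) (a : K) (c : ℕ → K) :
    radMat l a * Db_T l a c = Db_T l a (Db_sh l a c) := by
  ext i j
  rw [Db_mul_apply]
  have hi := i.2
  have hj := j.2
  by_cases h : (i : ℕ) = 0
  · rw [dif_pos h]
    unfold Db_T Db_sh
    by_cases hj0 : (j : ℕ) = 0
    · rw [if_pos (show ((j : ℕ) ≤ ((⟨l - 1, by omega⟩ : Fin l) : ℕ)) by simp; omega), if_pos (by omega),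
        if_pos (by omega)]
      congr 2
      simp; omega
    · rw [if_pos (show ((j : ℕ) ≤ ((⟨l - 1, by omega⟩ : Fin l) : ℕ)) by simp; omega), if_neg (by omega),
        if_neg (by omega)]
      congr 2
      simp; omega
  · rw [dif_neg h]
    unfold Db_T Db_sh
    rcases lt_trichotomy (j : ℕ) (i : ℕ) with hji | hji | hji
    · rw [if_pos (show ((j : ℕ) ≤ ((⟨i - 1, by omega⟩ : Fin l) : ℕ)) by simp; omega), if_pos (by omega),
        if_neg (by omega)]
      congr 1
      simp; omega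
    · rw [if_neg (show ¬ ((j : ℕ) ≤ ((⟨i - 1, by omega⟩ : Fin l) : ℕ)) by simp; omega), if_pos (by omega),
        if_pos (by omega)]
      congr 2
      simp; omega
    · rw [if_neg (show ¬ ((j : ℕ) ≤ ((⟨i - 1, by omega⟩ : Fin l) : ℕ)) by simp; omega), if_neg (by omega),
        if_neg (by omega)]
      congr 2
      simp; omega

private theorem Db_one (l : ℕ) (a : K) : (1 : Matrix (Fin l) (Fin l) K) =
    Db_T l a (fun k => if k = 0 then 1 else 0) := by
  ext i j
  have hi := i.2
  have hj := j.2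
  show (1 : Matrix (Fin l) (Fin l) K) i j = if (j : ℕ) ≤ i then (if (i : ℕ) - j = 0 then (1 : K) else 0)
    else a * (if l + (i : ℕ) - j = 0 then (1 : K) else 0)
  rcases lt_trichotomy (j : ℕ) (i : ℕ) with hji | hji | hji
  · rw [if_pos hji.le, if_neg (by omega), Matrix.one_apply_ne (by intro h; rw [h] at hji; omega)]
  · rw [if_pos hji.le, if_pos (by omega), Fin.ext hji, Matrix.one_apply_eq]
  · rw [if_neg (by omega), if_neg (by omega), Matrix.one_apply_ne (by intro h; rw [h] at hji; omega), mul_zero]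

private theorem Db_pow (l : ℕ) (a : K) (n : ℕ) : ∃ c, radMat l a ^ n = Db_T l a c := by
  induction n with
  | zero => exact ⟨_, by rw [pow_zero]; exact Db_one l a⟩
  | succ n ih =>
    obtain ⟨c, hc⟩ := ih
    exact ⟨_, by rw [pow_succ', hc]; exact Db_mul_T l a c⟩

private theorem Db_pow_lt (l : ℕ) (a : K) (n : ℕ) (hn : n < l) :
    radMat l a ^ n = Db_T l a (fun k => if k = n then 1 else 0) := by
  induction n with
  | zero => rw [pow_zero]; exact Db_one l a
  | succ n ih =>
    rw [pow_succ', ih (by omega), Db_mul_T]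
    congr 1
    funext k
    show (if k = 0 then a * (if l - 1 = n then (1 : K) else 0) else (if k - 1 = n then (1 : K) else 0)) =
      if k = n + 1 then 1 else 0
    by_cases hk : k = 0
    · rw [if_pos hk, if_neg (show ¬ (l - 1 = n) by omega), if_neg (show ¬ (k = n + 1) by omega), mul_zero]
    · rw [if_neg hk]
      by_cases hk2 : k = n + 1
      · rw [if_pos (show k - 1 = n by omega), if_pos hk2]
      · rw [if_neg (show ¬ (k - 1 = n) by omega), if_neg hk2]

private theorem Db_aeval (l : ℕ) (a : K) (h : K[X]) : ∃ c, aeval (radMat l a) h = Db_T l a c := by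
  induction h using Polynomial.induction_on' with
  | add p q hp hq =>
    obtain ⟨c, hc⟩ := hp
    obtain ⟨d, hd⟩ := hq
    refine ⟨fun k => c k + d k, ?_⟩
    rw [map_add, hc, hd]
    ext i j
    rw [Matrix.add_apply]
    unfold Db_T
    split_ifs <;> ring
  | monomial n b =>
    obtain ⟨c, hc⟩ := Db_pow l a n
    refine ⟨fun k => b * c k, ?_⟩
    rw [Polynomial.aeval_monomial, hc, ← Algebra.smul_def]
    ext i j
    rw [Matrix.smul_apply, smul_eq_mul]
    unfold Db_T
    split_ifs <;> ring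

/-- the offset -/
private def Db_kap (l : ℕ) (i j : Fin l) : ℕ := if (j : ℕ) ≤ i then i - j else l + i - j

private theorem Db_kap_lt {l : ℕ} (i j : Fin l) : Db_kap l i j < l := by
  have hi := i.2
  have hj := j.2
  unfold Db_kap
  split_ifs <;> omega

private theorem Db_kap_rot {l : ℕ} [NeZero l] (j k : Fin l) : Db_kap l (j + k) j = k := by
  have hj := j.2
  have hk := k.2
  unfold Db_kap
  rw [Fin.val_add_eq_ite]
  split_ifs <;> omega

private theorem Db_kap_eq {l : ℕ} [NeZero l] {i j k : Fin l} (h : Db_kap l i j = k) : i = j + k := by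
  have hi := i.2
  have hj := j.2
  have hk := k.2
  apply Fin.ext
  rw [Fin.val_add_eq_ite]
  unfold Db_kap at h
  split_ifs at h ⊢ <;> omega

private theorem Db_entry {Γ : Type*} [LinearOrderedCommGroupWithZero Γ] (v : Valuation K Γ)
    {l : ℕ} (a : K) (ha : a ≠ 0) (c : ℕ → K) (i j : Fin l) :
    v (Db_T l a c i j) ^ l = (v (c (Db_kap l i j)) ^ l * v a ^ (Db_kap l i j)) * v a ^ (j : ℕ) * (v a ^ (i : ℕ))⁻¹ := by
  have hi := i.2
  have hj := j.2
  have hva : v a ≠ 0 := (Valuation.ne_zero_iff v).mpr ha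
  unfold Db_T Db_kap
  rw [eq_mul_inv_iff_mul_eq₀ (pow_ne_zero _ hva)]
  by_cases h : (j : ℕ) ≤ i
  · rw [if_pos h, if_pos h, mul_assoc, ← pow_add, Nat.sub_add_cancel h]
  · rw [if_neg h, if_neg h, map_mul, mul_pow]
    rw [mul_assoc (v (c (l + ↑i - ↑j)) ^ l), ← pow_add]
    rw [show l + (i : ℕ) - j + j = l + i by omega, pow_add, mul_assoc (v a ^ l),
      mul_left_comm (v (c (l + ↑i - ↑j)) ^ l)]

/-- Leibniz terms -/
private theorem Db_term {Γ : Type*} [LinearOrderedCommGroupWithZero Γ] (v : Valuation K Γ)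
    {l : ℕ} (a : K) (ha : a ≠ 0) (c : ℕ → K) (σ : Equiv.Perm (Fin l)) :
    v (∏ j, Db_T l a c (σ j) j) ^ l =
      ∏ j, (v (c (Db_kap l (σ j) j)) ^ l * v a ^ (Db_kap l (σ j) j)) := by
  have hva : v a ≠ 0 := (Valuation.ne_zero_iff v).mpr ha
  rw [map_prod, ← Finset.prod_pow]
  rw [Finset.prod_congr rfl (fun j _ => Db_entry v a ha c (σ j) j)]
  rw [Finset.prod_mul_distrib, Finset.prod_mul_distrib, Finset.prod_inv_distrib]
  rw [Equiv.prod_comp σ (fun i : Fin l => v a ^ (i : ℕ))]
  rw [mul_assoc, mul_inv_cancel₀, mul_one]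
  exact Finset.prod_ne_zero_iff.mpr (fun j _ => pow_ne_zero _ hva)

private theorem Db_prod_lt {Γ : Type*} [LinearOrderedCommGroupWithZero Γ] {l : ℕ} (f : Fin l → Γ) (M : Γ)
    (hM : 0 < M) (hf : ∀ j, f j ≤ M) (j0 : Fin l) (hj0 : f j0 < M) : ∏ j, f j < M ^ l := by
  have hl : l = (l - 1) + 1 := by have := j0.2; omega
  rw [← Finset.mul_prod_erase Finset.univ f (Finset.mem_univ j0)]
  have h1 : ∏ j ∈ Finset.univ.erase j0, f j ≤ M ^ (l - 1) := by
    have := Finset.prod_le_pow_card (Finset.univ.erase j0) f M (fun j _ => hf j)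
    rwa [Finset.card_erase_of_mem (Finset.mem_univ _), Finset.card_univ, Fintype.card_fin] at this
  have h2 : M ^ l = M * M ^ (l - 1) := by
    conv_lhs => rw [hl]
    rw [pow_succ']
  rw [h2]
  calc f j0 * ∏ j ∈ Finset.univ.erase j0, f j ≤ f j0 * M ^ (l - 1) := mul_le_mul_right h1 _
    _ < M * M ^ (l - 1) := by
        rw [mul_lt_mul_iff_left₀ (pow_pos hM _)]
        exact hj0

/-- equality of two values forces an `l`-th power -/
private theorem Db_bezout {Γ : Type*} [LinearOrderedCommGroupWithZero Γ] (v : Valuation K Γ)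
    {l : ℕ} (hl : l.Prime) (a : K) (ha : a ≠ 0) (hna : ¬ ∃ y, v a = v y ^ l) (c c' : K) (k k' : ℕ)
    (hkk : k < k') (hk' : k' < l) (hc : v c ≠ 0)
    (h : v c ^ l * v a ^ k = v c' ^ l * v a ^ k') : False := by
  have hva : v a ≠ 0 := (Valuation.ne_zero_iff v).mpr ha
  have hc' : v c' ≠ 0 := by
    intro h0
    rw [h0, zero_pow hl.ne_zero, zero_mul] at h
    exact (mul_ne_zero (pow_ne_zero _ hc) (pow_ne_zero _ hva)) h
  obtain ⟨e, he⟩ : ∃ e, k' = k + e := ⟨k' - k, by omega⟩
  have hpow : v a ^ e = (v c / v c') ^ l := by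
    rw [he, pow_add] at h
    rw [div_pow, eq_div_iff (pow_ne_zero _ hc')]
    have h2 : v a ^ k * (v a ^ e * v c' ^ l) = v a ^ k * v c ^ l := by
      rw [mul_comm (v a ^ k) (v c ^ l), h]; ac_rfl
    exact mul_left_cancel₀ (pow_ne_zero _ hva) h2
  have hcop : Nat.Coprime e l := by
    rw [Nat.coprime_comm, Nat.Prime.coprime_iff_not_dvd hl]
    intro hd
    have := Nat.le_of_dvd (by omega) hd
    omega
  have hbez := Nat.gcd_eq_gcd_ab e l
  rw [hcop.gcd_eq_one] at hbez
  apply hna
  refine ⟨(c / c') ^ (Nat.gcdA e l) * a ^ (Nat.gcdB e l), ?_⟩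
  rw [map_mul, map_zpow₀, map_zpow₀, map_div₀]
  have h1 : v a = v a ^ (1 : ℤ) := (zpow_one _).symm
  have h2 : v a ^ (1 : ℤ) = (v a ^ e) ^ (Nat.gcdA e l) * (v a ^ (Nat.gcdB e l)) ^ l := by
    rw [← zpow_natCast (v a) e, ← _root_.zpow_mul, ← zpow_natCast (v a ^ (Nat.gcdB e l)) l, ← _root_.zpow_mul,
      ← zpow_add₀ hva]
    congr 1
    rw [mul_comm (Nat.gcdB e l) (l : ℤ)]
    exact_mod_cast hbez
  rw [mul_pow]
  conv_lhs => rw [h1, h2, hpow]
  congr 1
  rw [← zpow_natCast (v c / v c') l, ← _root_.zpow_mul, ← zpow_natCast ((v c / v c') ^ _) l, ← _root_.zpow_mul, mul_comm]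

theorem local_b {Γ : Type*} [LinearOrderedCommGroupWithZero Γ] (v : Valuation K Γ)
    {l : ℕ} (hl : l.Prime) (a : K) (ha : a ≠ 0) (hna : ¬ ∃ y, v a = v y ^ l) (h : K[X])
    (hdet : (aeval (radMat l a) h).det ≠ 0) :
    ∃ (y : K) (n : ℕ), v (aeval (radMat l a) h).det = v y ^ l * v a ^ n := by
  obtain ⟨c, hc⟩ := Db_aeval l a h
  rw [hc] at hdet ⊢
  have : NeZero l := ⟨hl.ne_zero⟩
  have hva : v a ≠ 0 := (Valuation.ne_zero_iff v).mpr ha
  set μ : ℕ → Γ := fun k => v (c k) ^ l * v a ^ k with hμ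
  obtain ⟨k, -, hk⟩ := Finset.exists_max_image (Finset.univ : Finset (Fin l)) (fun k => μ k)
    Finset.univ_nonempty
  have hmax : ∀ t : ℕ, t < l → μ t ≤ μ k := fun t ht => hk ⟨t, ht⟩ (Finset.mem_univ _)
  -- the maximum is positive
  have hpos : 0 < μ k := by
    rw [zero_lt_iff]
    intro h0
    apply hdet
    have hall : ∀ t : ℕ, t < l → c t = 0 := by
      intro t ht
      have h1 : μ t = 0 := le_antisymm ((hmax t ht).trans (le_of_eq h0)) zero_le
      rcases mul_eq_zero.mp h1 with h2 | h2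
      · exact (Valuation.zero_iff v).mp (pow_eq_zero_iff hl.ne_zero |>.mp h2)
      · exact absurd h2 (pow_ne_zero _ hva)
    have hz : Db_T l a c = 0 := by
      ext i j
      have hi := i.2
      have hj := j.2
      unfold Db_T
      split_ifs with h1
      · rw [hall _ (by omega)]; rfl
      · rw [hall _ (by omega), mul_zero]; rfl
    rw [hz]
    exact Matrix.det_zero
  have hck : v (c k) ≠ 0 := by
    intro h0
    have : μ k = 0 := by
      show v (c k) ^ l * v a ^ (k : ℕ) = 0
      rw [h0, zero_pow hl.ne_zero, zero_mul]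
    rw [this] at hpos
    exact lt_irrefl _ hpos
  -- strictness
  have hstrict : ∀ t : ℕ, t < l → t ≠ k → μ t < μ k := by
    intro t ht htk
    refine lt_of_le_of_ne (hmax t ht) ?_
    intro heq
    rcases lt_or_gt_of_ne htk with h1 | h1
    · refine Db_bezout v hl a ha hna (c t) (c k) t k h1 k.2 ?_ heq
      intro h0
      have : μ t = 0 := by
        show v (c t) ^ l * v a ^ t = 0
        rw [h0, zero_pow hl.ne_zero, zero_mul]
      rw [← heq, this] at hpos
      exact lt_irrefl _ hpos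
    · exact Db_bezout v hl a ha hna (c k) (c t) k t h1 ht hck heq.symm
  let ρ : Equiv.Perm (Fin l) := Equiv.addRight k
  have hρ : v (∏ j, Db_T l a c (ρ j) j) ^ l = μ k ^ l := by
    rw [Db_term v a ha c ρ]
    have : ∀ j : Fin l, (v (c (Db_kap l (ρ j) j)) ^ l * v a ^ (Db_kap l (ρ j) j)) = μ k := by
      intro j
      have h1 : Db_kap l (ρ j) j = k := Db_kap_rot j k
      rw [h1]
    rw [Finset.prod_congr rfl (fun j _ => this j), Finset.prod_const, Finset.card_univ, Fintype.card_fin]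
  have hσ : ∀ σ : Equiv.Perm (Fin l), σ ≠ ρ → v (∏ j, Db_T l a c (σ j) j) < v (∏ j, Db_T l a c (ρ j) j) := by
    intro σ hne
    have h1 : v (∏ j, Db_T l a c (σ j) j) ^ l < v (∏ j, Db_T l a c (ρ j) j) ^ l := by
      rw [hρ, Db_term v a ha c σ]
      obtain ⟨j0, hj0⟩ : ∃ j, σ j ≠ ρ j := by
        by_contra hcon
        push Not at hcon
        exact hne (Equiv.ext hcon)
      refine Db_prod_lt (fun j => μ (Db_kap l (σ j) j)) (μ k) hpos (fun j => hmax _ (Db_kap_lt _ _)) j0 ?_
      refine hstrict _ (Db_kap_lt _ _) ?_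
      intro h2
      exact hj0 (Db_kap_eq h2)
    by_contra hcon
    push Not at hcon
    exact absurd (pow_le_pow_left' hcon l) (not_le.mpr h1)
  have hρ' : v (∏ j, Db_T l a c (ρ j) j) = μ k := by
    rcases lt_trichotomy (v (∏ j, Db_T l a c (ρ j) j)) (μ k) with h1 | h1 | h1
    · exact absurd hρ (ne_of_lt (pow_lt_pow_left₀ h1 zero_le hl.ne_zero))
    · exact h1
    · exact absurd hρ (ne_of_gt (pow_lt_pow_left₀ h1 zero_le hl.ne_zero))
  refine ⟨c k, k, ?_⟩
  change _ = μ k
  rw [← hρ']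
  rw [Matrix.det_apply, ← Finset.add_sum_erase Finset.univ _ (Finset.mem_univ ρ)]
  have hsign : ∀ σ : Equiv.Perm (Fin l), v (Equiv.Perm.sign σ • ∏ j, Db_T l a c (σ j) j) =
      v (∏ j, Db_T l a c (σ j) j) := by
    intro σ
    rcases Int.units_eq_one_or (Equiv.Perm.sign σ) with h1 | h1
    · rw [h1, one_smul]
    · rw [h1, Units.neg_smul, one_smul, Valuation.map_neg]
  rw [Valuation.map_add_eq_of_lt_left, hsign]
  rw [hsign]
  apply Valuation.map_sum_lt
  · rw [hρ']; exact ne_of_gt hpos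
  · intro σ hs
    rw [hsign]
    exact hσ σ (Finset.ne_of_mem_erase hs)

theorem radMat_one_aeval {l : ℕ} (hl : (l : K) ≠ 0) :
    ∃ (p : K[X]) (u w : Fin l → K), w ⬝ᵥ u = 1 ∧
      aeval (radMat l (1 : K)) p = vecMulVec u w := by
  refine ⟨∑ k ∈ Finset.range l, Polynomial.monomial k ((l : K)⁻¹), fun _ => 1, fun _ => (l : K)⁻¹, ?_, ?_⟩
  · unfold dotProduct
    simp [mul_inv_cancel₀ hl]
  · rw [map_sum]
    ext i j
    rw [Matrix.sum_apply]
    have hi := i.2
    have hj := j.2
    have h1 : ∀ k ∈ Finset.range l, (aeval (radMat l (1 : K)) (Polynomial.monomial k ((l : K)⁻¹))) i j =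
        if Db_kap l i j = k then (l : K)⁻¹ else 0 := by
      intro k hk
      rw [Polynomial.aeval_monomial, ← Algebra.smul_def, Db_pow_lt l 1 k (Finset.mem_range.mp hk),
        Matrix.smul_apply, smul_eq_mul]
      unfold Db_T Db_kap
      by_cases hji : (j : ℕ) ≤ i
      · simp only [if_pos hji]
        split_ifs <;> simp
      · simp only [if_neg hji]
        split_ifs <;> simp
    rw [Finset.sum_congr rfl h1, Finset.sum_ite_eq, if_pos (Finset.mem_range.mpr (Db_kap_lt i j))]
    simp [vecMulVec_apply]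

end Pool.Agent.H7.ST
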