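import Pool.Agent.H7.ST.Base

/-! Definitions used in the statement on valuations of stable fields. -/

set_option autoImplicit false

namespace Pool.Agent.H7.ST

open Polynomial

universe u v

variable {K : Type u} [Field K] {Γ : Type v} [LinearOrderedCommGroupWithZero Γ]

/-- The residue field of a valuation. -/
abbrev Res (w : Valuation K Γ) : Type u := IsLocalRing.ResidueField w.valuationSubring

/-- For every irreducible polynomial `f` over the residue field: every value is a power of a value
with exponent the degree of `f`, and the norm from `k[X]/(f)` to the residue field `k` is onto. -/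
def UnramifiedNorms (w : Valuation K Γ) : Prop :=
  ∀ f : (Res w)[X], Irreducible f →
    (∀ x : K, ∃ y : K, w x = w y ^ f.natDegree) ∧
    ∀ c : Res w, ∃ z : AdjoinRoot f, Algebra.norm (Res w) z = c

/-- For every prime `l` that is nonzero in `K`, the value group modulo `l`-th powers is cyclic:
if `w a` is not an `l`-th power of a value then `w b` is an `l`-th power of a value times a power
of `w a`. -/
def CyclicModPrimes (w : Valuation K Γ) : Prop :=
  ∀ l : ℕ, l.Prime → (l : K) ≠ 0 → ∀ a b : K, a ≠ 0 → b ≠ 0 →
    (∃ y : K, w a = w y ^ l) ∨ ∃ (y : K) (n : ℕ), w b = w y ^ l * w a ^ n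

/-- For every finite separable field extension `N` of `M` the norm from `N` to `M` is onto. -/
def SurjectiveNorms (M : Type u) [Field M] : Prop :=
  ∀ (N : Type u) [Field N] [Algebra M N] [FiniteDimensional M N] [Algebra.IsSeparable M N]
    (b : M), ∃ z : N, Algebra.norm M z = b

end Pool.Agent.H7.ST
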