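import Pool.Agent.H7.ST.A
import Pool.Agent.H7.ST.B
import Pool.Agent.H7.ST.C

/-! Module E: no locally obstructed norm equations over a stable field with a ring topology. -/

set_option autoImplicit false

namespace Pool.Agent.H7.ST

open FirstOrder Polynomial Matrix Topology

universe u

variable {K : Type u} [Field K]

theorem E_NRel_zero {d : ℕ} (hd : 0 < d) (C : Matrix (Fin d) (Fin d) K) : NRel C 0 := by
  have : Nonempty (Fin d) := ⟨⟨0, hd⟩⟩
  exact ⟨fun _ => 0, by simp [Matrix.det_zero]⟩

theorem E_NRel_prod {d : ℕ} (C : Matrix (Fin d) (Fin d) K) {ι : Type*} (s : Finset ι)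
    (b : ι → K) (h : ∀ i ∈ s, NRel C (b i)) : NRel C (∏ i ∈ s, b i) := by
  classical
  induction s using Finset.induction_on with
  | empty => simpa using NRel.one C
  | insert a s ha ih =>
    rw [Finset.prod_insert ha]
    exact (h a (Finset.mem_insert_self _ _)).mul
      (ih (fun i hi => h i (Finset.mem_insert_of_mem hi)))

theorem E_continuous_tens [TopologicalSpace K] [IsTopologicalRing K] {X : Type*}
    [TopologicalSpace X] {ι : Type*} [Fintype ι] {d : ℕ}
    (E : ι → X → Matrix (Fin d) (Fin d) K) (hE : ∀ i, Continuous (E i)) :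
    Continuous (fun x => tens (fun i => E i x)) := by
  refine continuous_matrix (fun f g => ?_)
  unfold tens
  refine continuous_finsetProd _ (fun i _ => ?_)
  exact (hE i).matrix_elem (f i) (g i)

theorem E_psi_nhds [TopologicalSpace K] [IsTopologicalRing K]
    {σ : Type*} [Finite σ] {d : ℕ} (C : (σ → K) → Matrix (Fin d) (Fin d) K)
    (hC : ∀ i j, PolyFun (fun t => C t i j))
    (t0 : σ → K) (p : K[X]) (u w : Fin d → K) (huw : w ⬝ᵥ u = 1)
    (hp : aeval (C t0) p = vecMulVec u w)
    (t1 : σ → K) (b0 : K) (hobs : ∀ᶠ q in 𝓝 (t1, b0), ¬ NRel (C q.1) q.2) (n : ℕ) (j : Fin n) :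
    {T : Fin n × σ → K | ∃ b : K, ¬ NRel (C (fun s => T (j, s))) b ∧
      ∀ i, i ≠ j → NRel (C (fun s => T (i, s))) b} ∈
      𝓝 (fun q : Fin n × σ => if q.1 = j then t1 q.2 else t0 q.2) := by
  classical
  let E : {i : Fin n // i ≠ j} → (Fin n × σ → K) → Matrix (Fin d) (Fin d) K :=
    fun i T => aeval (C (fun s => T (i, s))) p
  let bf : (Fin n × σ → K) → K := fun T => (1 + (b0 - 1) • tens (fun i => E i T)).det
  have hCc : Continuous C := by
    refine continuous_matrix (fun i k => ?_)
    exact (hC i k).continuous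
  have hrow : ∀ i : Fin n, Continuous (fun (T : Fin n × σ → K) (s : σ) => T (i, s)) := fun i =>
    continuous_pi (fun s => continuous_apply (i, s))
  have hE : ∀ i, Continuous (E i) := by
    intro i
    have h1 : Continuous (fun M : Matrix (Fin d) (Fin d) K => aeval M p) := by
      simp only [aeval_eq_sum_range]
      refine continuous_finsetSum _ (fun k _ => ?_)
      exact (continuous_pow (M := Matrix (Fin d) (Fin d) K) k).const_smul (p.coeff k)
    exact h1.comp (hCc.comp (hrow i))
  have hbf : Continuous bf := by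
    have h1 : Continuous (fun T => tens (fun i => E i T)) := E_continuous_tens E hE
    exact (continuous_const.add (h1.const_smul (b0 - 1))).matrix_det
  set x0 : Fin n × σ → K := fun q => if q.1 = j then t1 q.2 else t0 q.2 with hx0
  have hbf0 : bf x0 = b0 := by
    have h1 : (fun i => E i x0) = fun _ => vecMulVec u w := by
      funext i
      have h2 : (fun s => x0 ((i : Fin n), s)) = t0 := by
        funext s
        simp [hx0, i.2]
      simp only [E, h2, hp]
    simp only [bf, h1]
    rw [det_one_add_smul_tens_vecMulVec u w huw]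
    ring
  have hj0 : (fun s => x0 (j, s)) = t1 := by
    funext s
    simp [hx0]
  have hcont : Continuous (fun T : Fin n × σ → K => ((fun s => T (j, s)), bf T)) :=
    (hrow j).prodMk hbf
  have ht : Filter.Tendsto (fun T : Fin n × σ → K => ((fun s => T (j, s)), bf T)) (𝓝 x0)
      (𝓝 (t1, b0)) := by
    have := hcont.tendsto x0
    simpa [hbf0, hj0] using this
  filter_upwards [ht.eventually hobs] with T hT
  exact ⟨bf T, hT, fun i hi => NRel_tens_aeval (fun i : {i : Fin n // i ≠ j} =>
    C (fun s => T (i, s))) p (b0 - 1) ⟨i, hi⟩⟩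

/-- Absorption from a neighbourhood in a nondiscrete ring topology. -/
theorem E_absorb [TopologicalSpace K] [IsTopologicalRing K] [(𝓝[≠] (0 : K)).NeBot]
    {α : Type*} (x0 : α → K) (U : Set (α → K)) (hU : U ∈ 𝓝 x0) (A : Finset (α → K)) :
    ∃ u : K, u ≠ 0 ∧ ∀ a ∈ A, x0 + u • a ∈ U := by
  have h1 : ∀ a ∈ A, ∀ᶠ u in 𝓝 (0 : K), x0 + u • a ∈ U := by
    intro a _
    have hc : Continuous (fun u : K => x0 + u • a) := by
      refine continuous_const.add (continuous_pi (fun i => ?_))
      simp only [Pi.smul_apply, smul_eq_mul]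
      exact continuous_id.mul continuous_const
    have := hc.tendsto 0
    simp only [zero_smul, add_zero] at this
    exact this.eventually hU
  have h2 : ∀ᶠ u in 𝓝 (0 : K), ∀ a ∈ A, x0 + u • a ∈ U := by
    rw [Filter.eventually_all_finset]
    exact h1
  have h3 : ∀ᶠ u in 𝓝[≠] (0 : K), ∀ a ∈ A, x0 + u • a ∈ U := h2.filter_mono nhdsWithin_le_nhds
  have h4 : ∀ᶠ u in 𝓝[≠] (0 : K), u ≠ 0 := eventually_mem_nhdsWithin
  obtain ⟨u, hu1, hu2⟩ := (h3.and h4).exists
  exact ⟨u, hu2, hu1⟩

variable [Infinite K] [FirstOrder.Ring.CompatibleRing K]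

/-- Over a stable field with a nondiscrete ring topology there is no open set of locally
insoluble norm equations, in a family that contains a split matrix. -/
theorem main_top (hK : StableField K) [TopologicalSpace K] [IsTopologicalRing K]
    [(𝓝[≠] (0 : K)).NeBot]
    {σ : Type*} [Finite σ] {d : ℕ} (hd : 0 < d) (C : (σ → K) → Matrix (Fin d) (Fin d) K)
    (hC : ∀ i j, PolyFun (fun t => C t i j))
    (t0 : σ → K) (p : K[X]) (u w : Fin d → K) (huw : w ⬝ᵥ u = 1)
    (hp : aeval (C t0) p = vecMulVec u w)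
    (t1 : σ → K) (b0 : K) (hobs : ∀ᶠ q in 𝓝 (t1, b0), ¬ NRel (C q.1) q.2) : False := by
  classical
  obtain ⟨n, hn⟩ := noLadder_NRel hK hC
  have hcp := common_point (K := K) (V := Fin n × σ → K) {X | Dfn X}
    (fun X hX => Set.Definable.compl hX)
    (fun X hX Y hY => Set.Definable.union hX hY)
    (fun X hX c a => dfn_affine hX c a)
    (fun X hX => noLadder_affine hK hX)
    (fun j : Fin n => {T : Fin n × σ → K | ∃ b : K, ¬ NRel (C (fun s => T (j, s))) b ∧
      ∀ i, i ≠ j → NRel (C (fun s => T (i, s))) b})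
    (fun j => dfn_psi hC n j)
    (fun j => fun q : Fin n × σ => if q.1 = j then t1 q.2 else t0 q.2)
    (fun j A => E_absorb _ _ (E_psi_nhds C hC t0 p u w huw hp t1 b0 hobs n j) A)
  obtain ⟨T, hT⟩ := hcp
  rw [Set.mem_iInter] at hT
  choose b hb1 hb2 using hT
  have hb0 : ∀ j, b j ≠ 0 := by
    intro j h
    apply hb1 j
    rw [h]
    exact E_NRel_zero hd _
  refine hn ⟨fun i s => T (i, s), fun j => ∏ k ∈ Finset.univ.filter (fun k => j ≤ k), b k,
    fun i j => ?_⟩
  constructor
  · intro h
    by_contra hij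
    rw [not_lt] at hij
    have hmem : i ∈ Finset.univ.filter (fun k => j ≤ k) := by simp [hij]
    beta_reduce at h
    rw [← Finset.mul_prod_erase _ _ hmem] at h
    have h2 : NRel (C (fun s => T (i, s)))
        (∏ k ∈ (Finset.univ.filter (fun k => j ≤ k)).erase i, b k) := by
      refine E_NRel_prod _ _ _ (fun k hk => ?_)
      exact hb2 k i (fun hh => (Finset.ne_of_mem_erase hk) hh.symm)
    have h3 := h.mul h2.inv
    have hne : (∏ k ∈ (Finset.univ.filter (fun k => j ≤ k)).erase i, b k) ≠ 0 :=
      Finset.prod_ne_zero_iff.mpr (fun k _ => hb0 k)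
    rw [mul_assoc, mul_inv_cancel₀ hne, mul_one] at h3
    exact hb1 i h3
  · intro hij
    refine E_NRel_prod _ _ _ (fun k hk => ?_)
    have hk' : j ≤ k := by simpa using hk
    exact hb2 k i (fun hh => absurd (hh ▸ hk') (not_le.mpr hij))

end Pool.Agent.H7.ST
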