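import Mathlib

/-! Module R: the `X`-adic valuation of the rational function field.

`v` is the `X`-adic valuation of `RatFunc F` (for example `(Polynomial.idealX F).valuation (RatFunc F)`, an `IsDedekindDomain.HeightOneSpectrum.valuation`;
or `FunctionField.inftyValuation`), `x` = `RatFunc.X` (value `exp (-1)`, a generator of the value group). The residue map kills the maximal ideal and every
element of the valuation ring is congruent to a constant from `F` (it is `P/Q` with `Q(0) ≠ 0`), so the map from `F` to the residue field is bijective;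
an algebraically closed residue field makes `F` algebraically closed (`IsAlgClosed.of_ringEquiv`, or `IsAlgClosed.of_exists_root` by mapping the polynomial). -/

set_option autoImplicit false

namespace Pool.Agent.H7.ST

universe u

open Polynomial IsDedekindDomain

theorem R_lt (F : Type u) [Field F] (p : F[X]) :
    (Polynomial.idealX F).valuation (RatFunc F) (algebraMap F[X] (RatFunc F) p) < 1 ↔ X ∣ p := by
  rw [← Ideal.mem_span_singleton, ← Polynomial.idealX_span]
  exact HeightOneSpectrum.valuation_lt_one_iff_mem _ p

theorem R_le (F : Type u) [Field F] (p : F[X]) :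
    (Polynomial.idealX F).valuation (RatFunc F) (algebraMap F[X] (RatFunc F) p) ≤ 1 :=
  HeightOneSpectrum.valuation_le_one _ p

theorem R_eq (F : Type u) [Field F] (p : F[X]) (h : ¬ X ∣ p) :
    (Polynomial.idealX F).valuation (RatFunc F) (algebraMap F[X] (RatFunc F) p) = 1 :=
  le_antisymm (R_le F p) (not_lt.1 fun h1 => h ((R_lt F p).1 h1))

/-- every element of the valuation ring is congruent to a constant -/
theorem R_const (F : Type u) [Field F] (a : RatFunc F)
    (ha : (Polynomial.idealX F).valuation (RatFunc F) a ≤ 1) :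
    ∃ c : F, (Polynomial.idealX F).valuation (RatFunc F) (a - algebraMap F[X] (RatFunc F) (C c)) < 1 := by
  set v := (Polynomial.idealX F).valuation (RatFunc F) with hv
  have hd : ¬ X ∣ a.denom := by
    intro hd
    have h1 : ¬ X ∣ a.num := by
      intro hn
      have h2 := (RatFunc.isCoprime_num_denom a).isUnit_of_dvd' hn hd
      exact Polynomial.not_isUnit_X h2
    have h3 := R_eq F _ h1
    have h4 := (R_lt F _).2 hd
    rw [← RatFunc.num_div_denom a, map_div₀, h3] at ha
    have h5 : v (algebraMap F[X] (RatFunc F) a.denom) ≠ 0 := by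
      rw [Valuation.ne_zero_iff]
      exact (map_ne_zero_iff _ (RatFunc.algebraMap_injective F)).2 a.denom_ne_zero
    have h6 : (1 : WithZero (Multiplicative ℤ)) ≤ v (algebraMap F[X] (RatFunc F) a.denom) := by
      rwa [div_le_iff₀ (zero_lt_iff.2 h5), one_mul] at ha
    exact absurd h4 (not_lt.2 h6)
  have hd0 : a.denom.coeff 0 ≠ 0 := fun h => hd (Polynomial.X_dvd_iff.2 h)
  refine ⟨a.num.coeff 0 / a.denom.coeff 0, ?_⟩
  have hdne : algebraMap F[X] (RatFunc F) a.denom ≠ 0 :=
    (map_ne_zero_iff _ (RatFunc.algebraMap_injective F)).2 a.denom_ne_zero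
  have h1 : a - algebraMap F[X] (RatFunc F) (C (a.num.coeff 0 / a.denom.coeff 0)) =
      algebraMap F[X] (RatFunc F) (a.num - C (a.num.coeff 0 / a.denom.coeff 0) * a.denom) /
        algebraMap F[X] (RatFunc F) a.denom := by
    rw [map_sub, map_mul, sub_div, mul_div_assoc, div_self hdne, mul_one, RatFunc.num_div_denom]
  rw [h1, map_div₀, R_eq F _ hd, div_one, R_lt, Polynomial.X_dvd_iff]
  simp only [coeff_sub, coeff_C_mul]
  rw [div_mul_cancel₀ _ hd0, sub_self]

theorem ratFunc_valuation (F : Type u) [Field F] :
    ∃ (v : Valuation (RatFunc F) (WithZero (Multiplicative ℤ))) (x : RatFunc F),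
      x ≠ 0 ∧ v x ≠ 1 ∧ (∀ d : ℕ, 2 ≤ d → ¬ ∃ y, v x = v y ^ d) ∧
      (IsAlgClosed (IsLocalRing.ResidueField v.valuationSubring) → IsAlgClosed F) := by
  set v := (Polynomial.idealX F).valuation (RatFunc F) with hv
  refine ⟨v, RatFunc.X, RatFunc.X_ne_zero, ?_, ?_, ?_⟩
  · rw [hv, Polynomial.valuation_X_eq_neg_one, ← WithZero.exp_zero, Ne, WithZero.exp_inj]
    norm_num
  · rintro d hd ⟨y, hy⟩
    rw [hv, Polynomial.valuation_X_eq_neg_one, ← hv] at hy
    have h0 : v y ≠ 0 := by
      intro h
      rw [h, zero_pow (by omega)] at hy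
      exact WithZero.exp_ne_zero hy
    rw [← WithZero.exp_log h0, ← WithZero.exp_nsmul, WithZero.exp_inj, nsmul_eq_mul] at hy
    have h1 : (d : ℤ) ∣ 1 := ⟨-(v y).log, by linarith⟩
    have h2 := Int.eq_one_of_dvd_one (by positivity) h1
    omega
  · intro hk
    -- the residue map on constants
    let ι : F →+* v.valuationSubring :=
      { toFun := fun c => ⟨algebraMap F[X] (RatFunc F) (C c), R_le F (C c)⟩
        map_one' := Subtype.ext (by simp)
        map_mul' := fun a b => Subtype.ext (by simp)
        map_zero' := Subtype.ext (by simp)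
        map_add' := fun a b => Subtype.ext (by simp) }
    let φ : F →+* IsLocalRing.ResidueField v.valuationSubring :=
      (IsLocalRing.residue v.valuationSubring).comp ι
    refine IsAlgClosed.of_exists_root F fun p _ hp => ?_
    have hdeg : (p.map φ).degree ≠ 0 := by
      rw [Polynomial.degree_map]
      exact (Polynomial.degree_pos_of_irreducible hp).ne'
    obtain ⟨α, hα⟩ := IsAlgClosed.exists_root (p.map φ) hdeg
    obtain ⟨a, rfl⟩ := IsLocalRing.residue_surjective α
    obtain ⟨c, hc⟩ := R_const F (a : RatFunc F) a.2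
    have h1 : IsLocalRing.residue v.valuationSubring a = φ c := by
      rw [← sub_eq_zero]
      show IsLocalRing.residue v.valuationSubring a - IsLocalRing.residue v.valuationSubring (ι c) = 0
      rw [← map_sub, IsLocalRing.residue_eq_zero_iff, Valuation.mem_maximalIdeal_iff]
      exact hc
    rw [h1, Polynomial.IsRoot.def, Polynomial.eval_map, Polynomial.eval₂_hom] at hα
    exact ⟨c, (map_eq_zero φ).1 hα⟩

end Pool.Agent.H7.ST
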