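import Pool.Agent.H7.ST.E
import Pool.Agent.H7.ST.Da
import Pool.Agent.H7.ST.Db
import Pool.Agent.H7.ST.R

/-! Module F: valuations on stable fields. -/

set_option autoImplicit false

namespace Pool.Agent.H7.ST

open FirstOrder Polynomial Matrix Topology

universe u v'

variable {K : Type u} [Field K] {Γ : Type v'} [LinearOrderedCommGroupWithZero Γ]

theorem F_ball (v : Valuation K Γ) (x : K) (g : K) (hg : g ≠ 0) :
    letI := Valued.mk' v
    {y : K | v (y - x) < v g} ∈ 𝓝 x := by
  let := Valued.mk' v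
  rw [Valued.mem_nhds]
  have h' : (Valued.v : Valuation K Γ).restrict g ≠ 0 := by
    rw [Ne, Valuation.restrict_eq_zero_iff]
    exact (Valuation.ne_zero_iff v).2 hg
  refine ⟨Units.mk0 _ h', ?_⟩
  intro y hy
  exact (Valuation.restrict_lt_iff v).1 hy

theorem F_neBot (v : Valuation K Γ) (hv : ∃ x : K, x ≠ 0 ∧ v x ≠ 1) :
    letI := Valued.mk' v
    (𝓝[≠] (0 : K)).NeBot := by
  letI := Valued.mk' v
  obtain ⟨x, hx, hx1⟩ := hv
  have : ∃ y : K, y ≠ 0 ∧ v y < 1 := by
    rcases lt_or_gt_of_ne hx1 with h | h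
    · exact ⟨x, hx, h⟩
    · refine ⟨x⁻¹, inv_ne_zero hx, ?_⟩
      rw [map_inv₀]
      exact inv_lt_one_of_one_lt₀ h
  obtain ⟨y, hy, hy1⟩ := this
  rw [← mem_closure_iff_nhdsWithin_neBot, mem_closure_iff_nhds]
  intro t ht
  rw [Valued.mem_nhds] at ht
  obtain ⟨γ, hγ⟩ := ht
  obtain ⟨r, s, hr, hs, hrs⟩ := Valuation.exists_div_eq_of_unit v γ
  have hr0 : r ≠ 0 := fun h => by rw [h, map_zero] at hr; exact lt_irrefl _ hr
  have hs0 : s ≠ 0 := fun h => by rw [h, map_zero] at hs; exact lt_irrefl _ hs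
  refine ⟨y * (r / s), ?_, ?_⟩
  · apply hγ
    have e : γ.1 = v.restrict (r / s) := by rw [map_div₀, hrs]
    show v.restrict (y * (r / s) - 0) < γ.1
    refine lt_of_lt_of_eq ?_ e.symm
    rw [sub_zero, Valuation.restrict_lt_iff, map_mul]
    have h1 : 0 < v (r / s) := (Valuation.pos_iff v).2 (div_ne_zero hr0 hs0)
    calc v y * v (r / s) < 1 * v (r / s) := by
          exact mul_lt_mul_of_pos_right hy1 h1
      _ = v (r / s) := one_mul _
  · exact mul_ne_zero hy (div_ne_zero hr0 hs0)

variable [Infinite K] [FirstOrder.Ring.CompatibleRing K]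

/-- The unramified obstruction. -/
theorem F_obstruct (hK : StableField K) (v : Valuation K Γ) (hv : ∃ x : K, x ≠ 0 ∧ v x ≠ 1)
    {d : ℕ} (hd : 0 < d) (C : Matrix (Fin d) (Fin d) K) (b0 : K) (g : K) (hg : g ≠ 0)
    (h : ∀ (C' : Matrix (Fin d) (Fin d) K) (b : K), (∀ i j, v (C' i j - C i j) < 1) →
      v (b - b0) < v g → ¬ NRel C' b) : False := by
  classical
  letI := Valued.mk' v
  haveI := F_neBot v hv
  let x : Fin d → K := fun i => Infinite.natEmbedding K i
  have hx : Function.Injective x := fun i j hij => by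
    have := (Infinite.natEmbedding K).injective hij
    exact Fin.ext this
  obtain ⟨p, u, w, huw, hp⟩ := diagonal_aeval hd x hx
  refine main_top hK hd (fun t : Fin d × Fin d → K => Matrix.of (fun i j => t (i, j)))
    (fun i j => PolyFun.coord (i, j)) (fun q => Matrix.diagonal x q.1 q.2) p u w huw ?_
    (fun q => C q.1 q.2) b0 ?_
  · exact hp
  · have h1 : ∀ᶠ q : (Fin d × Fin d → K) × K in 𝓝 ((fun q : Fin d × Fin d => C q.1 q.2), b0),
        ∀ i j, v (q.1 (i, j) - C i j) < 1 := by
      rw [Filter.eventually_all]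
      intro i
      rw [Filter.eventually_all]
      intro j
      have hc : Continuous (fun q : (Fin d × Fin d → K) × K => q.1 (i, j)) :=
        (continuous_apply (i, j)).comp continuous_fst
      have := hc.tendsto ((fun q : Fin d × Fin d => C q.1 q.2), b0)
      have hb := F_ball v (C i j) 1 one_ne_zero
      rw [map_one] at hb
      exact this.eventually hb
    have h2 : ∀ᶠ q : (Fin d × Fin d → K) × K in 𝓝 ((fun q : Fin d × Fin d => C q.1 q.2), b0),
        v (q.2 - b0) < v g := by
      have := (continuous_snd : Continuous (fun q : (Fin d × Fin d → K) × K => q.2)).tendsto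
        ((fun q : Fin d × Fin d => C q.1 q.2), b0)
      exact this.eventually (F_ball v b0 g hg)
    filter_upwards [h1, h2] with q hq1 hq2
    exact h _ _ hq1 hq2

theorem F_value (hK : StableField K) (v : Valuation K Γ) (hv : ∃ x : K, x ≠ 0 ∧ v x ≠ 1)
    (f : (IsLocalRing.ResidueField v.valuationSubring)[X]) (hf : Irreducible f) (x : K) :
    ∃ y, v x = v y ^ f.natDegree := by
  have hd : 0 < f.natDegree := hf.natDegree_pos
  by_contra hcon
  have hx : x ≠ 0 := by
    rintro rfl
    exact hcon ⟨0, by rw [map_zero, zero_pow hd.ne']⟩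
  obtain ⟨C, hC⟩ := local_a v f hf
  refine F_obstruct hK v hv hd C x x hx (fun C' b hC' hb hN => ?_)
  have hvb : v b = v x := Valuation.map_eq_of_sub_lt v hb
  rw [NRel_iff] at hN
  obtain ⟨h, hh⟩ := hN
  have hb0 : (aeval C' h).det ≠ 0 := by
    rw [hh]
    intro h0
    rw [h0, map_zero] at hvb
    exact hx ((Valuation.zero_iff v).1 hvb.symm)
  obtain ⟨⟨y, hy⟩, -⟩ := hC C' hC' h hb0
  exact hcon ⟨y, by rw [← hvb, ← hh, hy]⟩

theorem F_norm (hK : StableField K) (v : Valuation K Γ) (hv : ∃ x : K, x ≠ 0 ∧ v x ≠ 1)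
    (f : (IsLocalRing.ResidueField v.valuationSubring)[X]) (hf : Irreducible f) :
    Function.Surjective
      (fun z : AdjoinRoot f => Algebra.norm (IsLocalRing.ResidueField v.valuationSubring) z) := by
  intro c
  have hd : 0 < f.natDegree := hf.natDegree_pos
  by_contra hcon
  obtain ⟨b0, rfl⟩ := IsLocalRing.residue_surjective c
  have hb0 : IsLocalRing.residue v.valuationSubring b0 ≠ 0 := by
    intro h0
    apply hcon
    rw [h0]
    haveI := Fact.mk hf
    haveI : Module.Finite (IsLocalRing.ResidueField v.valuationSubring) (AdjoinRoot f) :=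
      (AdjoinRoot.powerBasis hf.ne_zero).finite
    exact ⟨0, Algebra.norm_zero⟩
  have hvb0 : v (b0 : K) = 1 := by
    have h1 : ¬ v (b0 : K) < 1 := by
      intro hlt
      apply hb0
      rw [IsLocalRing.residue_eq_zero_iff, Valuation.mem_maximalIdeal_iff]
      exact hlt
    exact le_antisymm b0.2 (not_lt.1 h1)
  obtain ⟨C, hC⟩ := local_a v f hf
  refine F_obstruct hK v hv hd C b0 1 one_ne_zero (fun C' b hC' hb hN => ?_)
  have hb' : v (b - b0) < v (b0 : K) := by rwa [hvb0, ← map_one v]
  have hvb : v b = v (b0 : K) := Valuation.map_eq_of_sub_lt v hb'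
  rw [NRel_iff] at hN
  obtain ⟨h, hh⟩ := hN
  have hdet : (aeval C' h).det ≠ 0 := by
    rw [hh]
    intro h0
    rw [h0, map_zero, hvb0] at hvb
    exact zero_ne_one hvb
  rw [map_one] at hb
  obtain ⟨-, hz⟩ := hC C' hC' h hdet
  exact hcon (hz b0 hb0 (by rw [hh]; exact hb))

theorem F_rank (hK : StableField K) (v : Valuation K Γ)
    {l : ℕ} (hl : l.Prime) (hlK : (l : K) ≠ 0) (a b : K) (ha : a ≠ 0) (hb : b ≠ 0) :
    (∃ y, v a = v y ^ l) ∨ ∃ (y : K) (n : ℕ), v b = v y ^ l * v a ^ n := by
  classical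
  by_contra hcon
  push Not at hcon
  obtain ⟨h1, h2⟩ := hcon
  have hv : ∃ x : K, x ≠ 0 ∧ v x ≠ 1 := ⟨a, ha, fun h => h1 1 (by rw [h, map_one, one_pow])⟩
  letI := Valued.mk' v
  haveI := F_neBot v hv
  obtain ⟨p, u, w, huw, hp⟩ := radMat_one_aeval (K := K) hlK
  refine main_top hK hl.pos (fun t : Unit → K => radMat l (t ()))
    (fun i j => ?_) (fun _ => 1) p u w huw hp (fun _ => a) b ?_
  · unfold radMat
    by_cases h : (i : ℕ) = j + 1
    · simp only [h, if_true]
      exact PolyFun.const 1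
    · simp only [h, if_false]
      by_cases h' : (i : ℕ) = 0 ∧ (j : ℕ) + 1 = l
      · simp only [h', and_self, if_true]
        exact PolyFun.coord ()
      · simp only [h', if_false]
        exact PolyFun.const 0
  · have e1 : ∀ᶠ q : (Unit → K) × K in 𝓝 ((fun _ : Unit => a), b), v (q.1 () - a) < v a := by
      have hc : Continuous (fun q : (Unit → K) × K => q.1 ()) :=
        (continuous_apply ()).comp continuous_fst
      have := hc.tendsto ((fun _ : Unit => a), b)
      exact this.eventually (F_ball v a a ha)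
    have e2 : ∀ᶠ q : (Unit → K) × K in 𝓝 ((fun _ : Unit => a), b), v (q.2 - b) < v b := by
      have := (continuous_snd : Continuous (fun q : (Unit → K) × K => q.2)).tendsto
        ((fun _ : Unit => a), b)
      exact this.eventually (F_ball v b b hb)
    filter_upwards [e1, e2] with q hq1 hq2 hN
    have hva : v (q.1 ()) = v a := Valuation.map_eq_of_sub_lt v hq1
    have hvb : v q.2 = v b := Valuation.map_eq_of_sub_lt v hq2
    rw [NRel_iff] at hN
    obtain ⟨h, hh⟩ := hN
    have ha' : q.1 () ≠ 0 := by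
      intro h0
      rw [h0, map_zero] at hva
      exact ha ((Valuation.zero_iff v).1 hva.symm)
    have hdet : (aeval (radMat l (q.1 ())) h).det ≠ 0 := by
      rw [hh]
      intro h0
      rw [h0, map_zero] at hvb
      exact hb ((Valuation.zero_iff v).1 hvb.symm)
    obtain ⟨y, n, hy⟩ := local_b v hl (q.1 ()) ha' (by rw [hva]; push Not; exact h1) h hdet
    refine h2 y n ?_
    rw [← hvb, ← hh, hy, hva]

omit [Infinite K] [FirstOrder.Ring.CompatibleRing K] in
theorem F_algClosed {k : Type*} [Field k] (h : ∀ f : k[X], Irreducible f → f.natDegree < 2) :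
    IsAlgClosed k := by
  refine IsAlgClosed.of_exists_root k (fun p _ hp => ?_)
  have h1 : p.natDegree = 1 := by
    have := h p hp
    have := hp.natDegree_pos
    omega
  have h2 : p.degree = 1 := by
    rw [Polynomial.degree_eq_natDegree hp.ne_zero, h1]; rfl
  obtain ⟨x, hx⟩ := Polynomial.exists_root_of_degree_eq_one h2
  exact ⟨x, hx⟩

/-- A valuation on a stable field with an element whose value is not divisible by any `d ≥ 2`
has algebraically closed residue field. -/
theorem F_discrete (hK : StableField K) (v : Valuation K Γ) (x : K)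
    (hx : ∀ d : ℕ, 2 ≤ d → ¬ ∃ y, v x = v y ^ d) :
    IsAlgClosed (IsLocalRing.ResidueField v.valuationSubring) := by
  refine F_algClosed (fun f hf => ?_)
  by_contra hcon
  rw [not_lt] at hcon
  refine hx _ hcon (F_value hK v ⟨x, ?_, ?_⟩ f hf x)
  · rintro rfl
    exact hx 2 le_rfl ⟨0, by simp⟩
  · intro h
    exact hx 2 le_rfl ⟨1, by simp [h]⟩

end Pool.Agent.H7.ST
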