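import Pool.Agent.H7.ST.F

/-! Module G: function fields. -/

set_option autoImplicit false

namespace Pool.Agent.H7.ST

open FirstOrder Polynomial Matrix Topology IsDedekindDomain

universe u w

section ext
variable (F : Type u) [Field F] (K : Type w) [Field K] [Algebra (RatFunc F) K]

/-- The `X`-adic valuation extends to `K`. -/
theorem G_ext : ∃ A : ValuationSubring K,
    (∀ c : RatFunc F, (idealX F).valuation (RatFunc F) c < 1 →
      A.valuation (algebraMap (RatFunc F) K c) < 1) ∧
    (∀ c : RatFunc F, (idealX F).valuation (RatFunc F) c = 1 →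
      A.valuation (algebraMap (RatFunc F) K c) = 1) := by
  set v := (idealX F).valuation (RatFunc F) with hv
  obtain ⟨A, hA, hloc⟩ := IsLocalRing.exists_factor_valuationRing
    ((algebraMap (RatFunc F) K).comp (v.valuationSubring.subtype))
  refine ⟨A, fun c hc => ?_, fun c hc => ?_⟩
  · have h1 : ¬ IsUnit (⟨c, hc.le⟩ : v.valuationSubring) := by
      rw [← mem_nonunits_iff, ← IsLocalRing.mem_maximalIdeal, Valuation.mem_maximalIdeal_iff]
      exact hc
    have h2 : ¬ IsUnit ((((algebraMap (RatFunc F) K).comp
        (v.valuationSubring.subtype)).codRestrict A.toSubring hA) ⟨c, hc.le⟩) := by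
      intro h
      exact h1 (hloc.map_nonunit _ h)
    have h3 := (A.valuation_lt_one_iff ⟨algebraMap (RatFunc F) K c, hA ⟨c, hc.le⟩⟩).1
    apply h3
    rw [IsLocalRing.mem_maximalIdeal, mem_nonunits_iff]
    exact h2
  · have h1 : IsUnit (⟨c, hc.le⟩ : v.valuationSubring) := by
      by_contra h
      rw [← mem_nonunits_iff, ← IsLocalRing.mem_maximalIdeal, Valuation.mem_maximalIdeal_iff] at h
      exact absurd h (by simp [hc])
    have h2 := h1.map (((algebraMap (RatFunc F) K).comp
        (v.valuationSubring.subtype)).codRestrict A.toSubring hA)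
    exact (A.valuation_eq_one_iff ⟨algebraMap (RatFunc F) K c, hA ⟨c, hc.le⟩⟩).1 h2

variable {F K}

/-- Every nonzero element of `F(X)` is a power of `X` times a unit. -/
theorem G_unif (c : RatFunc F) (hc : c ≠ 0) : ∃ (m : ℤ) (e : RatFunc F),
    (idealX F).valuation (RatFunc F) e = 1 ∧ c = RatFunc.X ^ m * e := by
  set v := (idealX F).valuation (RatFunc F) with hv
  have hvc : v c ≠ 0 := (Valuation.ne_zero_iff v).2 hc
  refine ⟨-(v c).log, RatFunc.X ^ ((v c).log) * c, ?_, ?_⟩
  · rw [map_mul, map_zpow₀, hv, Polynomial.valuation_X_eq_neg_one, ← hv]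
    conv_lhs => rw [← WithZero.exp_log hvc]
    rw [WithZero.log_exp, ← WithZero.exp_zsmul, ← WithZero.exp_add]
    simp
  · rw [← mul_assoc, ← zpow_add₀ RatFunc.X_ne_zero]
    simp

/-- Linear independence from distinct values. -/
theorem G_ram [FiniteDimensional (RatFunc F) K] (A : ValuationSubring K)
    (h1 : ∀ c : RatFunc F, (idealX F).valuation (RatFunc F) c < 1 →
      A.valuation (algebraMap (RatFunc F) K c) < 1)
    (h2 : ∀ c : RatFunc F, (idealX F).valuation (RatFunc F) c = 1 →
      A.valuation (algebraMap (RatFunc F) K c) = 1)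
    (y : K) (d : ℕ) (hd : 0 < d)
    (hy : A.valuation (algebraMap (RatFunc F) K RatFunc.X) = A.valuation y ^ d) :
    d ≤ Module.finrank (RatFunc F) K := by
  classical
  have hX : A.valuation (algebraMap (RatFunc F) K RatFunc.X) < 1 := by
    apply h1
    rw [Polynomial.valuation_X_eq_neg_one, ← WithZero.exp_zero, WithZero.exp_lt_exp]
    norm_num
  have hX0 : A.valuation (algebraMap (RatFunc F) K RatFunc.X) ≠ 0 := by
    rw [Valuation.ne_zero_iff]
    exact (_root_.map_ne_zero _).2 RatFunc.X_ne_zero
  have hy1 : A.valuation y < 1 := by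
    rw [hy] at hX
    by_contra hcon
    exact absurd hX (not_lt.2 (one_le_pow₀ (not_lt.1 hcon)))
  have hy0 : A.valuation y ≠ 0 := by
    intro h
    rw [hy, h, zero_pow hd.ne'] at hX0
    exact hX0 rfl
  have hli : LinearIndependent (RatFunc F) (fun i : Fin d => y ^ (i : ℕ)) := by
    rw [Fintype.linearIndependent_iff]
    intro g hg
    by_contra hcon
    push Not at hcon
    obtain ⟨i0, hi0⟩ := hcon
    -- values of the nonzero terms
    have hval : ∀ i : Fin d, g i ≠ 0 → ∃ m : ℤ,
        A.valuation (g i • y ^ (i : ℕ)) = A.valuation y ^ (d * m + i : ℤ) := by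
      intro i hi
      obtain ⟨m, e, he, hge⟩ := G_unif (g i) hi
      refine ⟨m, ?_⟩
      rw [Algebra.smul_def, map_mul, hge, map_mul, map_mul, h2 e he, mul_one, map_zpow₀,
        map_zpow₀, hy, map_pow, zpow_add₀ hy0, _root_.zpow_mul, zpow_natCast, zpow_natCast]
    -- the maximal term
    obtain ⟨j, hjs, hj⟩ := Finset.exists_max_image
      (Finset.univ.filter (fun i : Fin d => g i ≠ 0))
      (fun i => A.valuation (g i • y ^ (i : ℕ))) ⟨i0, by simp [hi0]⟩
    have hgj : g j ≠ 0 := by simpa using hjs
    have hlt : ∀ i ∈ (Finset.univ : Finset (Fin d)) \ {j},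
        A.valuation (g i • y ^ (i : ℕ)) < A.valuation (g j • y ^ (j : ℕ)) := by
      intro i hi
      have hij : i ≠ j := by simpa using hi
      by_cases hgi : g i = 0
      · rw [hgi, zero_smul, map_zero]
        obtain ⟨m, hm⟩ := hval j hgj
        rw [hm]
        exact zero_lt_iff.2 (zpow_ne_zero _ hy0)
      · refine lt_of_le_of_ne (hj i (by simp [hgi])) ?_
        obtain ⟨m, hm⟩ := hval j hgj
        obtain ⟨m', hm'⟩ := hval i hgi
        rw [hm, hm']
        intro h
        have hinj := (zpow_right_injective₀ (zero_lt_iff.2 hy0) hy1.ne) h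
        beta_reduce at hinj
        apply hij
        apply Fin.ext
        have hi' := i.2
        have hj' := j.2
        have h3 : ((i : ℕ) : ℤ) - (j : ℕ) = d * (m - m') := by linarith
        have h4 : (d : ℤ) ∣ ((i : ℕ) : ℤ) - (j : ℕ) := ⟨_, h3⟩
        have h5 := Int.eq_zero_of_abs_lt_dvd h4 (by rw [abs_lt]; omega)
        omega
    have := Valuation.map_sum_eq_of_lt A.valuation (Finset.mem_univ j) hlt
    rw [hg, map_zero] at this
    obtain ⟨m, hm⟩ := hval j hgj
    rw [hm] at this
    exact zpow_ne_zero _ hy0 this.symm
  simpa using hli.fintype_card_le_finrank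

/-- The value group is not divisible by any `d ≥ 2`. -/
theorem G_notdiv [FiniteDimensional (RatFunc F) K] (A : ValuationSubring K)
    (h1 : ∀ c : RatFunc F, (idealX F).valuation (RatFunc F) c < 1 →
      A.valuation (algebraMap (RatFunc F) K c) < 1)
    (h2 : ∀ c : RatFunc F, (idealX F).valuation (RatFunc F) c = 1 →
      A.valuation (algebraMap (RatFunc F) K c) = 1)
    (d : ℕ) (hd : 2 ≤ d) (hdiv : ∀ x : K, ∃ y : K, A.valuation x = A.valuation y ^ d) : False := by
  have key : ∀ m : ℕ, ∃ y : K,
      A.valuation (algebraMap (RatFunc F) K RatFunc.X) = A.valuation y ^ (d ^ m) := by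
    intro m
    induction m with
    | zero => exact ⟨algebraMap (RatFunc F) K RatFunc.X, by simp⟩
    | succ m ih =>
      obtain ⟨y, hy⟩ := ih
      obtain ⟨z, hz⟩ := hdiv y
      exact ⟨z, by rw [hy, hz, ← pow_mul, pow_succ']⟩
  obtain ⟨y, hy⟩ := key (Module.finrank (RatFunc F) K)
  have h3 := G_ram A h1 h2 y _ (by positivity) hy
  exact absurd h3 (not_le.2 (Nat.lt_pow_self (by omega)))

/-- The residue field is finite over `F`. -/
theorem G_res [FiniteDimensional (RatFunc F) K] (A : ValuationSubring K)
    (h1 : ∀ c : RatFunc F, (idealX F).valuation (RatFunc F) c < 1 →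
      A.valuation (algebraMap (RatFunc F) K c) < 1)
    (h2 : ∀ c : RatFunc F, (idealX F).valuation (RatFunc F) c = 1 →
      A.valuation (algebraMap (RatFunc F) K c) = 1)
    [IsAlgClosed (IsLocalRing.ResidueField A.valuation.valuationSubring)] :
    FiniteDimensional F (AlgebraicClosure F) := by
  classical
  set v := (idealX F).valuation (RatFunc F) with hv
  have hle : ∀ c : RatFunc F, v c ≤ 1 → A.valuation (algebraMap (RatFunc F) K c) ≤ 1 := by
    intro c hc
    rcases lt_or_eq_of_le hc with h | h
    · exact (h1 c h).le
    · exact (h2 c h).le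
  let io : F →+* RatFunc F := (algebraMap F[X] (RatFunc F)).comp C
  have hio : ∀ c : F, v (io c) ≤ 1 := fun c => R_le F (C c)
  let ι : F →+* A.valuation.valuationSubring :=
    ((algebraMap (RatFunc F) K).comp io).codRestrict A.valuation.valuationSubring.toSubring
      (fun c => hle _ (hio c))
  let φ : F →+* IsLocalRing.ResidueField A.valuation.valuationSubring :=
    (IsLocalRing.residue _).comp ι
  letI : Algebra F (IsLocalRing.ResidueField A.valuation.valuationSubring) := φ.toAlgebra
  have hrank : Module.rank F (IsLocalRing.ResidueField A.valuation.valuationSubring) ≤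
      (Module.finrank (RatFunc F) K : ℕ) := by
    refine rank_le (fun s hs => ?_)
    choose lift hlift using
      (IsLocalRing.residue_surjective (R := A.valuation.valuationSubring))
    have hli : LinearIndependent (RatFunc F) (fun i : s => (lift (i : _) : K)) := by
      rw [Fintype.linearIndependent_iff]
      intro g hg
      by_contra hcon
      push Not at hcon
      obtain ⟨i0, hi0⟩ := hcon
      obtain ⟨j, -, hj⟩ := Finset.exists_max_image (Finset.univ : Finset s)
        (fun i => v (g i)) ⟨i0, Finset.mem_univ _⟩
      have hgj : g j ≠ 0 := by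
        intro h
        have := hj i0 (Finset.mem_univ _)
        rw [h, map_zero] at this
        exact hi0 ((Valuation.zero_iff v).1 (le_zero_iff.1 this))
      have hvgj : v (g j) ≠ 0 := (Valuation.ne_zero_iff v).2 hgj
      -- normalise
      let g' : s → RatFunc F := fun i => g i / g j
      have hg' : ∀ i, v (g' i) ≤ 1 := by
        intro i
        simp only [g', map_div₀]
        rw [div_le_one₀ (zero_lt_iff.2 hvgj)]
        exact hj i (Finset.mem_univ _)
      have hg'j : g' j = 1 := div_self hgj
      have hsum : ∑ i, algebraMap (RatFunc F) K (g' i) * (lift (i : _) : K) = 0 := by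
        have : ∑ i, algebraMap (RatFunc F) K (g' i) * (lift (i : _) : K) =
            (algebraMap (RatFunc F) K (g j))⁻¹ * ∑ i, g i • (lift (i : _) : K) := by
          rw [Finset.mul_sum]
          refine Finset.sum_congr rfl (fun i _ => ?_)
          rw [Algebra.smul_def]
          simp only [g', map_div₀]
          ring
        rw [this, hg, mul_zero]
      choose c hc using fun i => R_const F (g' i) (hg' i)
      -- pass to the residue field
      have hres : ∀ i, IsLocalRing.residue A.valuation.valuationSubring
          ⟨algebraMap (RatFunc F) K (g' i), hle _ (hg' i)⟩ = φ (c i) := by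
        intro i
        rw [← sub_eq_zero]
        show IsLocalRing.residue A.valuation.valuationSubring _ -
          IsLocalRing.residue A.valuation.valuationSubring (ι (c i)) = 0
        rw [← map_sub, IsLocalRing.residue_eq_zero_iff, Valuation.mem_maximalIdeal_iff]
        have := h1 _ (hc i)
        rw [map_sub] at this
        exact this
      have hsum' : ∑ i : s, φ (c i) * (i : IsLocalRing.ResidueField A.valuation.valuationSubring) =
          0 := by
        have h3 : ∑ i : s, (⟨algebraMap (RatFunc F) K (g' i), hle _ (hg' i)⟩ :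
            A.valuation.valuationSubring) * lift (i : _) = 0 := by
          apply Subtype.ext
          refine Eq.trans ?_ hsum
          simp
        have h4 := congrArg (IsLocalRing.residue A.valuation.valuationSubring) h3
        rw [map_sum, map_zero] at h4
        rw [← h4]
        refine Finset.sum_congr rfl (fun i _ => ?_)
        rw [map_mul, hres, hlift]
      rw [Fintype.linearIndependent_iff] at hs
      have hcj := hs c (by
        rw [← hsum']
        refine Finset.sum_congr rfl (fun i _ => ?_)
        rw [Algebra.smul_def]; rfl) j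
      have h5 := hc j
      rw [hg'j, hcj, map_zero, map_zero, sub_zero, map_one] at h5
      exact lt_irrefl _ h5
    have := hli.fintype_card_le_finrank
    simpa using this
  have hfin : Module.Finite F (IsLocalRing.ResidueField A.valuation.valuationSubring) := by
    rw [← Module.rank_lt_aleph0_iff]
    exact lt_of_le_of_lt hrank (Cardinal.natCast_lt_aleph0)
  have hcl : IsAlgClosure F (IsLocalRing.ResidueField A.valuation.valuationSubring) :=
    ⟨inferInstance, inferInstance⟩
  exact Module.Finite.equiv
    (IsAlgClosure.equiv F (IsLocalRing.ResidueField A.valuation.valuationSubring)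
      (AlgebraicClosure F)).toLinearEquiv

end ext

/-- A stable function field in one variable over `F`: the algebraic closure of `F` is finite. -/
theorem G_main (F : Type u) [Field F] (K : Type w) [Field K] [Algebra (RatFunc F) K]
    [FiniteDimensional (RatFunc F) K] [FirstOrder.Ring.CompatibleRing K] (hK : StableField K) :
    FiniteDimensional F (AlgebraicClosure F) := by
  haveI : Infinite (RatFunc F) :=
    Infinite.of_injective _ (RatFunc.algebraMap_injective F)
  haveI : Infinite K := Infinite.of_injective _ (algebraMap (RatFunc F) K).injective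
  obtain ⟨A, h1, h2⟩ := G_ext F K
  have hX : A.valuation (algebraMap (RatFunc F) K RatFunc.X) < 1 := by
    apply h1
    rw [Polynomial.valuation_X_eq_neg_one, ← WithZero.exp_zero, WithZero.exp_lt_exp]
    norm_num
  have hac : IsAlgClosed (IsLocalRing.ResidueField A.valuation.valuationSubring) := by
    refine F_algClosed (fun f hf => ?_)
    by_contra hcon
    rw [not_lt] at hcon
    exact G_notdiv A h1 h2 _ hcon (fun x => F_value hK A.valuation
      ⟨_, (_root_.map_ne_zero (algebraMap (RatFunc F) K)).2 RatFunc.X_ne_zero, hX.ne⟩ f hf x)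
  exact G_res A h1 h2

theorem G_ratFunc_not_finite (F : Type u) [Field F] :
    ¬ FiniteDimensional (RatFunc F) (AlgebraicClosure (RatFunc F)) := by
  intro hfin
  obtain ⟨v, x, hx, hx1, hdiv, -⟩ := ratFunc_valuation F
  obtain ⟨p, hp, hpp⟩ := Nat.exists_infinite_primes
    (Module.finrank (RatFunc F) (AlgebraicClosure (RatFunc F)) + 1)
  have hirr : Irreducible (X ^ p - C x : (RatFunc F)[X]) := by
    refine X_pow_sub_C_irreducible_of_prime hpp (fun b hb => ?_)
    exact hdiv p hpp.two_le ⟨b, by rw [← hb, map_pow]⟩
  obtain ⟨α, hα⟩ := IsAlgClosed.exists_aeval_eq_zero (AlgebraicClosure (RatFunc F))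
    (X ^ p - C x : (RatFunc F)[X]) (by rw [degree_X_pow_sub_C hpp.pos]; exact_mod_cast hpp.ne_zero)
  have hmin : minpoly (RatFunc F) α = X ^ p - C x :=
    (minpoly.eq_of_irreducible_of_monic hirr hα (monic_X_pow_sub_C x hpp.ne_zero)).symm
  have hdeg := minpoly.natDegree_le (A := RatFunc F) α
  rw [hmin, natDegree_X_pow_sub_C] at hdeg
  omega

/-- A finite extension of `F(s,t)` is never stable. -/
theorem G_two (F : Type u) [Field F] (K : Type w) [Field K] [Algebra (RatFunc (RatFunc F)) K]
    [FiniteDimensional (RatFunc (RatFunc F)) K] [FirstOrder.Ring.CompatibleRing K] :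
    ¬ StableField K := fun hK =>
  G_ratFunc_not_finite F (G_main (RatFunc F) K hK)

end Pool.Agent.H7.ST
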