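import Mathlib

/-! Module W1: linear algebra of a separable extension `N = M(α)`. -/

set_option autoImplicit false

namespace Pool.Agent.H7.ST

open Polynomial

theorem W1_surj {M : Type*} [Field M] {N : Type*} [Field N] [Algebra M N]
    [FiniteDimensional M N] [Algebra.IsSeparable M N] {d : ℕ} (B : Module.Basis (Fin d) M N)
    (α : N) (hα : ∀ z : N, ∃ h : M[X], aeval α h = z) (r : Matrix (Fin d) (Fin d) M) :
    ∃ (p : Matrix (Fin d) (Fin d) M) (h : M[X]),
      Algebra.leftMulMatrix B α * p - p * Algebra.leftMulMatrix B α +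
        aeval (Algebra.leftMulMatrix B α) h = r := by
  classical
  set A0 := Algebra.leftMulMatrix B α with hA0
  let ad : Matrix (Fin d) (Fin d) M →ₗ[M] Matrix (Fin d) (Fin d) M :=
    LinearMap.mulLeft M A0 - LinearMap.mulRight M A0
  let W : Submodule M (Matrix (Fin d) (Fin d) M) :=
    LinearMap.range ad ⊔ LinearMap.range (aeval A0 : M[X] →ₐ[M] _).toLinearMap
  suffices hW : W = ⊤ by
    have hr : r ∈ W := by rw [hW]; trivial
    obtain ⟨y, ⟨p, hp⟩, z, ⟨h, hh⟩, hyz⟩ := Submodule.mem_sup.1 hr
    refine ⟨p, h, ?_⟩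
    rw [← hyz, ← hp, ← hh]
    simp [ad]
  by_contra hne
  obtain ⟨f, hf0, hf⟩ := Submodule.exists_le_ker_of_lt_top W (lt_top_iff_ne_top.2 hne)
  let Q : Matrix (Fin d) (Fin d) M := Matrix.of fun i j => f (Matrix.single j i 1)
  have hfQ : ∀ x : Matrix (Fin d) (Fin d) M, f x = (Q * x).trace := by
    intro x
    conv_lhs => rw [Matrix.matrix_eq_sum_single x]
    simp only [map_sum, Matrix.trace, Matrix.diag_apply, Matrix.mul_apply]
    rw [Finset.sum_comm]
    refine Finset.sum_congr rfl fun i _ => Finset.sum_congr rfl fun j _ => ?_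
    have : Matrix.single j i (x j i) = x j i • Matrix.single j i (1 : M) := by
      rw [Matrix.smul_single, smul_eq_mul, mul_one]
    rw [this, map_smul, smul_eq_mul]
    simp [Q, mul_comm]
  have hcomm : Q * A0 = A0 * Q := by
    rw [Matrix.ext_iff_trace_mul_right]
    intro x
    have h1 : f (A0 * x - x * A0) = 0 := by
      have : A0 * x - x * A0 ∈ W := Submodule.mem_sup_left ⟨x, by simp [ad]⟩
      exact hf this
    rw [hfQ, mul_sub, Matrix.trace_sub, sub_eq_zero] at h1
    rw [mul_assoc, h1, ← mul_assoc, Matrix.trace_mul_comm, ← mul_assoc]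
  -- the corresponding linear map
  let T : N →ₗ[M] N := Matrix.toLin B B Q
  have hTα : ∀ z : N, T (α * z) = α * T z := by
    intro z
    have h1 : Matrix.toLin B B (Q * A0) = Matrix.toLin B B (A0 * Q) := by rw [hcomm]
    rw [Matrix.toLin_mul B B B, Matrix.toLin_mul B B B] at h1
    have h2 := LinearMap.congr_fun h1 z
    simp only [LinearMap.comp_apply] at h2
    have h3 : Matrix.toLin B B A0 = LinearMap.mulLeft M α := by
      rw [hA0, Algebra.leftMulMatrix_apply, Matrix.toLin_toMatrix]
      rfl
    rw [h3] at h2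
    exact h2
  have hTh : ∀ (h : M[X]) (z : N), T (aeval α h * z) = aeval α h * T z := by
    intro h
    induction h using Polynomial.induction_on' with
    | add p q hp hq => intro z; simp only [map_add, add_mul, hp, hq]
    | monomial n a =>
      have hn : ∀ (n : ℕ) (z : N), T (α ^ n * z) = α ^ n * T z := by
        intro n
        induction n with
        | zero => intro z; simp
        | succ n ih => intro z; rw [pow_succ, mul_assoc, ih, hTα, mul_assoc]
      intro z
      simp only [aeval_monomial, mul_assoc]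
      rw [← Algebra.smul_def, ← Algebra.smul_def, map_smul, hn]
  have hT : ∀ z : N, T z = T 1 * z := by
    intro z
    obtain ⟨h, rfl⟩ := hα z
    have := hTh h 1
    rw [mul_one] at this
    rw [this, mul_comm]
  have hQ : Q = Algebra.leftMulMatrix B (T 1) := by
    apply (Matrix.toLin B B).injective
    rw [Algebra.leftMulMatrix_apply, Matrix.toLin_toMatrix]
    ext z
    exact hT z
  have htr : ∀ γ : N, Algebra.trace M N (T 1 * γ) = 0 := by
    intro γ
    obtain ⟨h, rfl⟩ := hα γ
    have h1 : f (aeval A0 h) = 0 := by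
      have : aeval A0 h ∈ W := Submodule.mem_sup_right ⟨h, rfl⟩
      exact hf this
    rw [hfQ, hQ, hA0, Polynomial.aeval_algHom_apply, ← map_mul,
      ← Algebra.trace_eq_matrix_trace B] at h1
    exact h1
  have hT1 : T 1 = 0 := by
    have := traceForm_nondegenerate M N
    apply this.1
    intro γ
    rw [Algebra.traceForm_apply]
    exact htr γ
  apply hf0
  ext x
  rw [hfQ, hQ, hT1, map_zero, zero_mul, Matrix.trace_zero]
  rfl

end Pool.Agent.H7.ST
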