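import Mathlib

/-! Module W2: matrices near `A0` are conjugate to elements of `M[A0]` (inverse function theorem).

`M` is a complete nontrivially normed field, `A0` a `d × d` matrix such that every matrix is `A0 * p - p * A0 + h(A0)` (hypothesis `hsurj`).
Put on matrices the normed algebra structure `Matrix.linftyOpNormedRing`, `Matrix.linftyOpNormedAlgebra` (local instances; the topology is the
product topology of the statement, check that it is defeq or use `continuity` to transfer).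
Reduce `h(A0)` to `Y c = ∑ i : Fin d, c i • A0 ^ (i : ℕ)` (Cayley-Hamilton: `Pool.Agent.H7.ST.NRel_iff` in module C has the same reduction),
so `hsurj` says that `(p, c) ↦ A0 * p - p * A0 + Y c` is onto; let `c0` satisfy `Y c0 = A0`.
Consider `G (A, P, c) = (A, A * P - P * Y c)` at the point `(A0, 1, c0)`: `G = (A0, 0)`, strict derivative
`(a, p, c) ↦ (a, a + A0 * p - p * A0 - Y c)`, which is onto. By `HasStrictFDerivAt.map_nhds_eq_of_surj` the image of a neighbourhood of `(A0, 1, c0)`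
(for example `{det P ≠ 0}`) is a neighbourhood of `(A0, 0)`; so for `A` near `A0` the point `(A, 0)` is `G (A, P, c)` with `det P ≠ 0`. -/

set_option autoImplicit false

namespace Pool.Agent.H7.ST

open Polynomial Topology

/-- a polynomial in a matrix of size `d` is a combination of the first `d` powers -/
theorem W2_red {M : Type*} [Field M] {d : ℕ} (A0 : Matrix (Fin d) (Fin d) M) (h : M[X]) :
    ∃ c : Fin d → M, aeval A0 h = ∑ i : Fin d, c i • A0 ^ (i : ℕ) := by
  rcases Nat.eq_zero_or_pos d with hd | hd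
  · subst hd
    exact ⟨fun _ => 0, Subsingleton.elim _ _⟩
  · have h1 : aeval A0 (h %ₘ A0.charpoly) = aeval A0 h :=
      Polynomial.aeval_modByMonic_eq_self_of_root (Matrix.aeval_self_charpoly A0)
    have h2 : A0.charpoly.natDegree = d := by
      rw [Matrix.charpoly_natDegree_eq_dim, Fintype.card_fin]
    have h3 : (h %ₘ A0.charpoly).natDegree < d := by
      have := Polynomial.natDegree_modByMonic_lt h (Matrix.charpoly_monic A0) (by
        intro h4
        rw [h4, Polynomial.natDegree_one] at h2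
        omega)
      rwa [h2] at this
    refine ⟨fun i => (h %ₘ A0.charpoly).coeff i, ?_⟩
    rw [← h1, Polynomial.aeval_eq_sum_range' h3, Finset.sum_range]

theorem W2_poly {M : Type*} [Field M] {d : ℕ} (A0 : Matrix (Fin d) (Fin d) M) (c : Fin d → M) :
    ∑ i : Fin d, c i • A0 ^ (i : ℕ) = aeval A0 (∑ i : Fin d, C (c i) * X ^ (i : ℕ)) := by
  rw [map_sum]
  refine Finset.sum_congr rfl fun i _ => ?_
  rw [map_mul, aeval_C, map_pow, aeval_X, Algebra.smul_def]

theorem W2_abs {M A V : Type*} [NontriviallyNormedField M] [NormedRing A] [NormedAlgebra M A]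
    [CompleteSpace A] [NormedAddCommGroup V] [NormedSpace M V] [CompleteSpace V] (Y : V →L[M] A)
    (a0 : A) (c0 : V) (e1 : Y c0 = a0) (hs : ∀ r : A, ∃ (p : A) (c : V), a0 * p - p * a0 + Y c = r)
    {S : Set A} (hS : S ∈ 𝓝 (1 : A)) :
    ∀ᶠ a in 𝓝 a0, ∃ P ∈ S, ∃ c : V, a * P = P * Y c := by
  have f1 : HasStrictFDerivAt (fun x : A × A × V => x.1) (ContinuousLinearMap.fst M A (A × V))
      (a0, 1, c0) := hasStrictFDerivAt_fst
  have f2 : HasStrictFDerivAt (fun x : A × A × V => x.2.1)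
      ((ContinuousLinearMap.fst M A V).comp (ContinuousLinearMap.snd M A (A × V))) (a0, 1, c0) :=
    ((ContinuousLinearMap.fst M A V).comp
      (ContinuousLinearMap.snd M A (A × V))).hasStrictFDerivAt
  have f3 : HasStrictFDerivAt (fun x : A × A × V => Y x.2.2)
      (Y.comp ((ContinuousLinearMap.snd M A V).comp (ContinuousLinearMap.snd M A (A × V))))
      (a0, 1, c0) :=
    (Y.comp ((ContinuousLinearMap.snd M A V).comp
      (ContinuousLinearMap.snd M A (A × V)))).hasStrictFDerivAt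
  have hG := f1.prodMk ((f1.mul' f2).sub (f2.mul' f3))
  have hmap := hG.map_nhds_eq_of_surj (by
    rw [LinearMap.range_eq_top]
    rintro ⟨a, r⟩
    obtain ⟨p, c, hph⟩ := hs (r - a)
    refine ⟨(a, p, -c), ?_⟩
    refine Prod.ext rfl ?_
    simp [e1]
    rw [eq_sub_iff_add_eq] at hph
    rw [← hph]
    noncomm_ring)
  have hS' : {x : A × A × V | x.2.1 ∈ S} ∈ 𝓝 ((a0, 1, c0) : A × A × V) :=
    (continuous_snd.fst.tendsto ((a0, 1, c0) : A × A × V)) hS
  have h1 := Filter.image_mem_map (m := fun x : A × A × V => (x.1, x.1 * x.2.1 - x.2.1 * Y x.2.2))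
    hS'
  have h2 : Filter.map (fun x : A × A × V => (x.1, x.1 * x.2.1 - x.2.1 * Y x.2.2))
      (𝓝 (a0, 1, c0)) = 𝓝 (a0, 0) := by
    refine Eq.trans hmap ?_
    congr 2
    show a0 * 1 - 1 * Y c0 = 0
    rw [e1, mul_one, one_mul, sub_self]
  rw [h2] at h1
  have h3 : Filter.Tendsto (fun a : A => ((a, 0) : A × A)) (𝓝 a0) (𝓝 (a0, 0)) :=
    (continuous_id.prodMk continuous_const).tendsto a0
  filter_upwards [h3 h1] with a ha
  obtain ⟨⟨a', P, c⟩, hP, hx⟩ := ha
  obtain ⟨hx1, hx2⟩ := Prod.mk.inj hx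
  refine ⟨P, hP, c, ?_⟩
  have hx1' : a' = a := hx1
  have hx2' : a' * P - P * Y c = 0 := hx2
  rw [hx1'] at hx2'
  exact sub_eq_zero.1 hx2'

/-- the combination of the first `d` powers, as a continuous linear map of the coefficients -/
noncomputable def W2_Y {M A : Type*} [NontriviallyNormedField M] [NormedRing A] [NormedAlgebra M A]
    (d : ℕ) (a0 : A) : (Fin d → M) →L[M] A :=
  ∑ i : Fin d, (ContinuousLinearMap.proj i).smulRight (a0 ^ (i : ℕ))

theorem W2_Y_apply {M A : Type*} [NontriviallyNormedField M] [NormedRing A] [NormedAlgebra M A]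
    {d : ℕ} (a0 : A) (c : Fin d → M) :
    W2_Y d a0 c = ∑ i : Fin d, c i • a0 ^ (i : ℕ) := by
  unfold W2_Y
  rw [sum_apply]
  rfl

theorem W2_abs2 {M A : Type*} [NontriviallyNormedField M] [CompleteSpace M] [NormedRing A]
    [NormedAlgebra M A] [FiniteDimensional M A] {d : ℕ} (a0 : A) (c0 : Fin d → M)
    (e1 : ∑ i : Fin d, c0 i • a0 ^ (i : ℕ) = a0)
    (hs : ∀ r : A, ∃ (p : A) (c : Fin d → M), a0 * p - p * a0 + ∑ i : Fin d, c i • a0 ^ (i : ℕ) = r)
    {S : Set A} (hS : S ∈ 𝓝 (1 : A)) :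
    ∀ᶠ a in 𝓝 a0, ∃ P ∈ S, ∃ c : Fin d → M, a * P = P * ∑ i : Fin d, c i • a0 ^ (i : ℕ) := by
  have : CompleteSpace A := FiniteDimensional.complete M A
  have h1 := W2_abs (W2_Y d a0) a0 c0 (by rw [W2_Y_apply, e1]) (by
    intro r
    obtain ⟨p, c, h⟩ := hs r
    exact ⟨p, c, by rw [W2_Y_apply]; exact h⟩) hS
  filter_upwards [h1] with a ha
  obtain ⟨P, hP, c, h⟩ := ha
  rw [W2_Y_apply] at h
  exact ⟨P, hP, c, h⟩

theorem W2_conj {M : Type*} [NontriviallyNormedField M] [CompleteSpace M] {d : ℕ}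
    (A0 : Matrix (Fin d) (Fin d) M)
    (hsurj : ∀ r : Matrix (Fin d) (Fin d) M, ∃ (p : Matrix (Fin d) (Fin d) M) (h : M[X]),
      A0 * p - p * A0 + aeval A0 h = r) :
    ∀ᶠ A in 𝓝 A0, ∃ (P : Matrix (Fin d) (Fin d) M) (h : M[X]), IsUnit P.det ∧
      A * P = P * aeval A0 h := by
  have hdet : {P : Matrix (Fin d) (Fin d) M | IsUnit P.det} ∈
      𝓝 (1 : Matrix (Fin d) (Fin d) M) := by
    have h1 : Continuous fun P : Matrix (Fin d) (Fin d) M => P.det := continuous_id.matrix_det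
    have h2 : ∀ᶠ P in 𝓝 (1 : Matrix (Fin d) (Fin d) M), P.det ≠ 0 :=
      h1.continuousAt.eventually_ne (by rw [Matrix.det_one]; exact one_ne_zero)
    exact h2.mono fun P hP => isUnit_iff_ne_zero.2 hP
  obtain ⟨c0, hc0⟩ := W2_red A0 X
  rw [aeval_X] at hc0
  have h1 : ∀ᶠ A in 𝓝 A0, ∃ P ∈ {P : Matrix (Fin d) (Fin d) M | IsUnit P.det},
      ∃ c : Fin d → M, A * P = P * ∑ i : Fin d, c i • A0 ^ (i : ℕ) :=
    @W2_abs2 M (Matrix (Fin d) (Fin d) M) _ _ Matrix.linftyOpNormedRing
      Matrix.linftyOpNormedAlgebra _ d A0 c0 hc0.symm (by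
      intro r
      obtain ⟨p, h, hph⟩ := hsurj r
      obtain ⟨c, hc⟩ := W2_red A0 h
      exact ⟨p, c, by rw [hc] at hph; exact hph⟩) _ hdet
  filter_upwards [h1] with A hA
  obtain ⟨P, hP, c, hPc⟩ := hA
  rw [W2_poly] at hPc
  exact ⟨P, _, hP, hPc⟩

end Pool.Agent.H7.ST
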