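import Mathlib

/-! Module W3: the norm of a finite separable extension of a complete field is open at `1`. -/

set_option autoImplicit false

namespace Pool.Agent.H7.ST

open Polynomial Topology

theorem W3_norm_open {M : Type*} [NontriviallyNormedField M] [CompleteSpace M] {N : Type*} [Field N]
    [Algebra M N] [FiniteDimensional M N] [Algebra.IsSeparable M N] :
    ∀ᶠ b in 𝓝 (1 : M), ∃ z : N, Algebra.norm M z = b := by
  classical
  obtain ⟨y, hy⟩ := Algebra.trace_surjective M N 1
  let B := Module.finBasis M N
  set Y := Algebra.leftMulMatrix B y with hY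
  let P : M[X] := (1 + (X : M[X]) • Y.map C).det
  have hP : ∀ s : M, P.eval s = Algebra.norm M (1 + s • y) := by
    intro s
    rw [Algebra.norm_eq_matrix_det B]
    have h1 : P.eval s = ((Polynomial.evalRingHom s).mapMatrix (1 + (X : M[X]) • Y.map C)).det := by
      rw [← RingHom.map_det]; rfl
    rw [h1]
    congr 1
    have h2 : (Polynomial.evalRingHom s).mapMatrix ((X : M[X]) • Y.map C) = s • Y := by
      ext i j
      simp
      ring
    rw [map_add, map_one, h2, map_add, map_one, map_smul, ← hY]
  have hP0 : P.eval 0 = 1 := by rw [hP]; simp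
  have hd : P.derivative.eval 0 = 1 := by
    rw [Matrix.derivative_det_one_add_X_smul, hY, ← Algebra.trace_eq_matrix_trace B, hy]
  have h1 : HasStrictDerivAt (fun s => P.eval s) (P.derivative.eval 0) 0 := P.hasStrictDerivAt 0
  rw [hd] at h1
  have h2 := h1.map_nhds_eq one_ne_zero
  rw [hP0] at h2
  have h3 : ∀ᶠ s in 𝓝 (0 : M), ∃ z : N, Algebra.norm M z = P.eval s :=
    Filter.Eventually.of_forall fun s => ⟨1 + s • y, (hP s).symm⟩
  rw [← h2, Filter.eventually_map]
  exact h3

end Pool.Agent.H7.ST
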