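import Pool.Agent.H7.ST.F
import Pool.Agent.H7.ST.W1
import Pool.Agent.H7.ST.W2
import Pool.Agent.H7.ST.W3

/-! Module W4: completions of stable fields. -/

set_option autoImplicit false

namespace Pool.Agent.H7.ST

open FirstOrder Polynomial Matrix Topology

universe u w

section top
variable {K : Type u} [Field K] [Infinite K] [FirstOrder.Ring.CompatibleRing K]

/-- `main_top` for the family of all matrices. -/
theorem W4_all (hK : StableField K) [TopologicalSpace K] [IsTopologicalRing K]
    [(𝓝[≠] (0 : K)).NeBot] {d : ℕ} (hd : 0 < d) (t1 : Fin d × Fin d → K) (b0 : K)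
    (hobs : ∀ᶠ q : (Fin d × Fin d → K) × K in 𝓝 (t1, b0),
      ¬ NRel (Matrix.of (fun i j => q.1 (i, j))) q.2) : False := by
  classical
  let x : Fin d → K := fun i => Infinite.natEmbedding K i
  have hx : Function.Injective x := fun i j hij => by
    have := (Infinite.natEmbedding K).injective hij
    exact Fin.ext this
  obtain ⟨p, u, w, huw, hp⟩ := diagonal_aeval hd x hx
  exact main_top hK hd (fun t : Fin d × Fin d → K => Matrix.of (fun i j => t (i, j)))
    (fun i j => PolyFun.coord (i, j)) (fun q => Matrix.diagonal x q.1 q.2) p u w huw hp t1 b0 hobs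

end top

section alg
variable {M : Type*} [Field M] {d : ℕ}

theorem W4_semiconj (A P Y : Matrix (Fin d) (Fin d) M) (h : A * P = P * Y) (f : M[X]) :
    aeval A f * P = P * aeval Y f := by
  induction f using Polynomial.induction_on' with
  | add p q hp hq => simp only [map_add, add_mul, mul_add, hp, hq]
  | monomial n a =>
    have hn : A ^ n * P = P * Y ^ n := by
      induction n with
      | zero => simp
      | succ n ih => rw [pow_succ, mul_assoc, h, ← mul_assoc, ih, mul_assoc, ← pow_succ]
    simp only [aeval_monomial, mul_assoc, hn]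
    rw [← mul_assoc, ← mul_assoc, Algebra.commutes]

theorem W4_det (A P Y : Matrix (Fin d) (Fin d) M) (h : A * P = P * Y) (hP : IsUnit P.det)
    (f : M[X]) : (aeval A f).det = (aeval Y f).det := by
  have h1 := congrArg Matrix.det (W4_semiconj A P Y h f)
  rw [Matrix.det_mul, Matrix.det_mul, mul_comm] at h1
  exact hP.mul_left_cancel h1

end alg

section complete
variable {M : Type*} [NontriviallyNormedField M] [CompleteSpace M] {N : Type*} [Field N]
  [Algebra M N] [FiniteDimensional M N] [Algebra.IsSeparable M N]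

/-- Failure to be a norm is an open condition. -/
theorem W4_open {d : ℕ} (B : Module.Basis (Fin d) M N) (α : N)
    (hα : ∀ z : N, ∃ h : M[X], aeval α h = z) (b0 : M) (hb0 : b0 ≠ 0)
    (hno : ¬ ∃ z : N, Algebra.norm M z = b0) :
    ∀ᶠ q : Matrix (Fin d) (Fin d) M × M in 𝓝 (Algebra.leftMulMatrix B α, b0),
      ∀ h : M[X], (aeval q.1 h).det ≠ q.2 := by
  have h1 := W2_conj (Algebra.leftMulMatrix B α) (fun r => W1_surj B α hα r)
  have h1' : ∀ᶠ q : Matrix (Fin d) (Fin d) M × M in 𝓝 (Algebra.leftMulMatrix B α, b0),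
      ∃ (P : Matrix (Fin d) (Fin d) M) (h : M[X]), IsUnit P.det ∧
        q.1 * P = P * aeval (Algebra.leftMulMatrix B α) h :=
    (continuous_fst.tendsto (Algebra.leftMulMatrix B α, b0)).eventually h1
  have h2 : ∀ᶠ q : Matrix (Fin d) (Fin d) M × M in 𝓝 (Algebra.leftMulMatrix B α, b0),
      ∃ z : N, Algebra.norm M z = q.2 / b0 := by
    have hc : Continuous (fun q : Matrix (Fin d) (Fin d) M × M => q.2 / b0) :=
      continuous_snd.div_const b0
    have := hc.tendsto (Algebra.leftMulMatrix B α, b0)
    simp only [div_self hb0] at this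
    exact this.eventually W3_norm_open
  have h3 : ∀ᶠ q : Matrix (Fin d) (Fin d) M × M in 𝓝 (Algebra.leftMulMatrix B α, b0),
      q.2 ≠ 0 :=
    (continuous_snd.tendsto (Algebra.leftMulMatrix B α, b0)).eventually
      (isOpen_ne.eventually_mem hb0)
  filter_upwards [h1', h2, h3] with q hq1 hq2 hq3 h hh
  obtain ⟨P, g, hP, hPg⟩ := hq1
  obtain ⟨z, hz⟩ := hq2
  rw [W4_det _ _ _ hPg hP] at hh
  rw [Polynomial.aeval_algHom_apply, Polynomial.aeval_algHom_apply,
    ← Algebra.norm_eq_matrix_det B] at hh
  apply hno
  have hz1 : Algebra.norm M z ≠ 0 := by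
    rw [hz]
    exact div_ne_zero hq3 hb0
  have hz0 : z ≠ 0 := by
    rintro rfl
    exact hz1 Algebra.norm_zero
  have hz2 : Algebra.norm M z⁻¹ * Algebra.norm M z = 1 := by
    rw [← map_mul, inv_mul_cancel₀ hz0, map_one]
  refine ⟨aeval α (aeval g h) * z⁻¹, ?_⟩
  rw [map_mul, hh, eq_inv_of_mul_eq_one_left hz2, hz, inv_div, mul_div_assoc', mul_comm,
    mul_div_assoc, div_self hq3, mul_one]

end complete

/-- A complete field in which a stable field is dense has surjective norms. -/
theorem W4_complete {K : Type u} [Field K] [Infinite K] [FirstOrder.Ring.CompatibleRing K]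
    (hK : StableField K) {M : Type w} [NontriviallyNormedField M] [CompleteSpace M] [Algebra K M]
    (hdense : DenseRange (algebraMap K M)) {N : Type*} [Field N] [Algebra M N]
    [FiniteDimensional M N] [Algebra.IsSeparable M N] (b0 : M) :
    ∃ z : N, Algebra.norm M z = b0 := by
  classical
  by_contra hno
  have hb0 : b0 ≠ 0 := by
    rintro rfl
    exact hno ⟨0, Algebra.norm_zero⟩
  let pb := Field.powerBasisOfFiniteOfSeparable M N
  have hα : ∀ z : N, ∃ h : M[X], aeval pb.gen h = z := by
    intro z
    obtain ⟨f, hf⟩ := pb.exists_eq_aeval' z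
    exact ⟨f, hf.symm⟩
  let B := Module.finBasis M N
  set d := Module.finrank M N with hd
  have hdpos : 0 < d := Module.finrank_pos
  have hopen := W4_open B pb.gen hα b0 hb0 hno
  -- the topology on `K`
  letI : TopologicalSpace K := TopologicalSpace.induced (algebraMap K M) inferInstance
  have hind : IsInducing (algebraMap K M) := ⟨rfl⟩
  haveI : ContinuousMul K := continuousMul_induced (algebraMap K M)
  haveI : ContinuousAdd K := continuousAdd_induced (algebraMap K M)
  haveI : ContinuousNeg K := ⟨by
    rw [hind.continuous_iff]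
    have : (⇑(algebraMap K M) ∘ fun a : K => -a) = fun a => -(algebraMap K M a) := by
      funext a; simp
    rw [this]
    exact hind.continuous.neg⟩
  haveI : IsTopologicalRing K := { }
  haveI : (𝓝[≠] (0 : K)).NeBot := by
    rw [← mem_closure_iff_nhdsWithin_neBot, mem_closure_iff_nhds]
    intro t ht
    rw [hind.nhds_eq_comap, Filter.mem_comap, map_zero] at ht
    obtain ⟨V, hV, hVt⟩ := ht
    have h1 : (interior V \ {0}).Nonempty := by
      have h2 : interior V ∈ 𝓝[≠] (0 : M) := mem_nhdsWithin_of_mem_nhds (interior_mem_nhds.2 hV)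
      have h3 : interior V ∩ {(0 : M)}ᶜ ∈ 𝓝[≠] (0 : M) :=
        Filter.inter_mem h2 self_mem_nhdsWithin
      obtain ⟨x, hx⟩ := Filter.nonempty_of_mem h3
      exact ⟨x, hx.1, hx.2⟩
    have h2 : IsOpen (interior V \ {(0 : M)}) := isOpen_interior.sdiff isClosed_singleton
    obtain ⟨k, hk⟩ := hdense.exists_mem_open h2 h1
    have hkV : algebraMap K M k ∈ V := interior_subset hk.1
    refine ⟨k, hVt hkV, ?_⟩
    intro h0
    apply hk.2
    have : k = 0 := h0
    simp [this]
  -- density of the points with coordinates in `K`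
  let ψ : (Fin d × Fin d → K) × K → Matrix (Fin d) (Fin d) M × M := fun q =>
    (Matrix.of (fun i j => algebraMap K M (q.1 (i, j))), algebraMap K M q.2)
  have hψc : Continuous ψ := by
    refine Continuous.prodMk ?_ (hind.continuous.comp continuous_snd)
    refine continuous_matrix (fun i j => ?_)
    exact hind.continuous.comp ((continuous_apply (i, j)).comp continuous_fst)
  have hψd : DenseRange ψ := by
    have h1 : DenseRange (fun t : Fin d × Fin d → K =>
        (Matrix.of (fun i j => algebraMap K M (t (i, j))) : Matrix (Fin d) (Fin d) M)) := by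
      have h2 : DenseRange (Pi.map fun (_ : Fin d) => Pi.map fun (_ : Fin d) => algebraMap K M) :=
        DenseRange.piMap fun _ => DenseRange.piMap fun _ => hdense
      intro A
      have h3 := h2 (fun i j => A i j)
      rw [mem_closure_iff_nhds] at h3 ⊢
      intro t ht
      obtain ⟨y, hy, x, hx⟩ := h3 t ht
      refine ⟨y, hy, fun q => x q.1 q.2, ?_⟩
      rw [← hx]
      rfl
    exact h1.prodMap hdense
  have hS : {q : Matrix (Fin d) (Fin d) M × M | ∀ h : M[X], (aeval q.1 h).det ≠ q.2} ∈
      𝓝 (Algebra.leftMulMatrix B pb.gen, b0) := hopen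
  obtain ⟨q1, hq1⟩ := hψd.exists_mem_open isOpen_interior
    ⟨_, mem_interior_iff_mem_nhds.2 hS⟩
  refine W4_all hK hdpos q1.1 q1.2 ?_
  have h5 : ∀ᶠ q in 𝓝 q1, ψ q ∈ interior
      {q : Matrix (Fin d) (Fin d) M × M | ∀ h : M[X], (aeval q.1 h).det ≠ q.2} :=
    (hψc.tendsto q1).eventually (isOpen_interior.mem_nhds hq1)
  filter_upwards [h5] with q hq hN
  have h6 := interior_subset hq
  rw [NRel_iff] at hN
  obtain ⟨h, hh⟩ := hN
  apply h6 (h.map (algebraMap K M))
  have h7 : (ψ q).1 = (Matrix.of (fun i j => q.1 (i, j))).map (algebraMap K M) := by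
    ext i j; rfl
  have h8 : aeval ((Matrix.of (fun i j => q.1 (i, j))).map (algebraMap K M))
      (h.map (algebraMap K M)) = (aeval (Matrix.of (fun i j => q.1 (i, j))) h).map
        (algebraMap K M) := by
    have := Polynomial.map_aeval_eq_aeval_map (S := Matrix (Fin d) (Fin d) K)
      (T := M) (U := Matrix (Fin d) (Fin d) M) (φ := algebraMap K M)
      (ψ := (algebraMap K M).mapMatrix) (by
        ext a i j
        by_cases hij : i = j <;> simp [Matrix.algebraMap_matrix_apply, hij]) h (Matrix.of (fun i j => q.1 (i, j)))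
    exact this.symm
  rw [h7, h8]
  have h9 := (RingHom.map_det (algebraMap K M)
    (aeval (Matrix.of (fun i j => q.1 (i, j))) h)).symm
  rw [RingHom.mapMatrix_apply] at h9
  rw [h9, hh]

end Pool.Agent.H7.ST
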